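import Mathlib

set_option autoImplicit false

/-!
# MP_9e760c_nt (S17915): definitions

`K` is the far kernel with window `58`, `w` the near weight; `1/|x| = w x + K x` for `x ≠ 0`.
`K` is positive definite on `ℤ`.
-/

namespace Pool.MP_9e760c_nt.GapSum

/-- Far kernel: `1/|x|` for `|x| ≥ 58`, linear (and finite at `0`) inside. -/
noncomputable def K (x : ℤ) : ℝ :=
  if 58 ≤ |x| then 1 / (|x| : ℝ) else (117 - (|x| : ℝ)) / 3422

/-- Near weight: `1/|x| - K x` for `0 < |x| < 58`, and `0` otherwise. -/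
noncomputable def w (x : ℤ) : ℝ :=
  if x = 0 ∨ 58 ≤ |x| then 0 else (58 - (|x| : ℝ)) * (59 - (|x| : ℝ)) / (3422 * (|x| : ℝ))

/-- `S2 n = 2 S(n)`: sum of `1/|d-e|` over ordered pairs of divisors (the diagonal is `1/0 = 0`). -/
noncomputable def S2 (n : ℕ) : ℝ :=
  ∑ d ∈ n.divisors, ∑ e ∈ n.divisors, 1 / |(d : ℝ) - (e : ℝ)|

/-- Energy of the divisor set for the kernel `K` (diagonal included). -/
noncomputable def En (n : ℕ) : ℝ :=
  ∑ d ∈ n.divisors, ∑ e ∈ n.divisors, K ((d : ℤ) - (e : ℤ))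

/-- The exceptional integers: those with `S(n) ≥ τ(n)`. -/
def Exc : List ℕ := [12, 24, 60, 120, 180, 240, 360, 420, 720, 840, 1260, 1680, 2520, 5040]

/-- What is proved for every `n`. -/
def Good (n : ℕ) : Prop :=
  S2 n ≤ 2.254 * (n.divisors.card : ℝ) ∧ En n ≤ 0.8142 * (n.divisors.card : ℝ) ∧
    (n ∉ Exc → S2 n < 2 * (n.divisors.card : ℝ))

end Pool.MP_9e760c_nt.GapSum
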