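import Mathlib
import Pool.Agent.Lib.MP_9e760c_nt.Defs

set_option autoImplicit false

/-!
# MP_9e760c_nt, piece D (boxes), part A: the recursion for the divisor sum

`T n x y = ∑_{d, e ∣ n} 1/|x d - y e|` is computed by splitting off one prime at a time.
-/

open Finset
open scoped Pointwise

namespace Pool.MP_9e760c_nt.GapSum.Box

/-- `∑_{d, e ∣ n} 1/|x d - y e|`. -/
noncomputable def T (n x y : ℕ) : ℝ :=
  ∑ d ∈ n.divisors, ∑ e ∈ n.divisors, 1 / |((x * d : ℕ) : ℝ) - ((y * e : ℕ) : ℝ)|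

/-- Splitting the divisors of `p ^ i * m`. -/
theorem sum_divisors_split {M : Type*} [AddCommMonoid M] (p i m : ℕ) (hp : p.Prime)
    (hm : ¬ p ∣ m) (F : ℕ → M) :
    ∑ d ∈ (p ^ i * m).divisors, F d =
      ∑ s ∈ range (i + 1), ∑ d ∈ m.divisors, F (p ^ s * d) := by
  have hcop : Nat.Coprime (p ^ i) m :=
    Nat.Coprime.pow_left _ ((Nat.Prime.coprime_iff_not_dvd hp).2 hm)
  rw [Nat.divisors_mul, ← Finset.sum_product']
  have himg : (p ^ i).divisors * m.divisors =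
      (range (i + 1) ×ˢ m.divisors).image (fun q => p ^ q.1 * q.2) := by
    ext d
    simp only [Finset.mem_mul, Finset.mem_image, Finset.mem_product, Prod.exists,
      Nat.mem_divisors_prime_pow hp, Finset.mem_range]
    constructor
    · rintro ⟨y, ⟨s, hs, rfl⟩, z, hz, rfl⟩
      exact ⟨s, z, ⟨by omega, hz⟩, rfl⟩
    · rintro ⟨s, z, ⟨hs, hz⟩, rfl⟩
      exact ⟨p ^ s, ⟨s, by omega, rfl⟩, z, hz, rfl⟩
  rw [himg, Finset.sum_image]
  rintro ⟨s, d⟩ h1 ⟨t, e⟩ h2 h
  have h1' : s < i + 1 ∧ d ∈ m.divisors := by simpa using h1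
  have h2' : t < i + 1 ∧ e ∈ m.divisors := by simpa using h2
  have hs : p ^ s ∈ (p ^ i).divisors := by
    rw [Nat.mem_divisors_prime_pow hp]; exact ⟨s, by omega, rfl⟩
  have ht : p ^ t ∈ (p ^ i).divisors := by
    rw [Nat.mem_divisors_prime_pow hp]; exact ⟨t, by omega, rfl⟩
  have hA : ((p ^ s, d) : ℕ × ℕ) ∈ (((p ^ i).divisors ×ˢ m.divisors : Finset (ℕ × ℕ)) : Set (ℕ × ℕ)) :=
    Finset.mem_coe.2 (Finset.mem_product.2 ⟨hs, h1'.2⟩)
  have hB : ((p ^ t, e) : ℕ × ℕ) ∈ (((p ^ i).divisors ×ˢ m.divisors : Finset (ℕ × ℕ)) : Set (ℕ × ℕ)) :=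
    Finset.mem_coe.2 (Finset.mem_product.2 ⟨ht, h2'.2⟩)
  have := hcop.mul_injOn_divisors hA hB h
  simp only [Prod.mk.injEq] at this
  obtain ⟨h3, h4⟩ := this
  rw [Nat.pow_right_injective hp.two_le h3, h4]

theorem card_divisors_split (p i m : ℕ) (hp : p.Prime) (hm : ¬ p ∣ m) :
    (p ^ i * m).divisors.card = (i + 1) * m.divisors.card := by
  have := sum_divisors_split p i m hp hm (fun _ => 1)
  simpa using this

/-- Double sum with a scaling relation. -/
theorem sum_scaling (f : ℕ → ℕ → ℝ) (c : ℝ) (hf : ∀ s t, f (s + 1) (t + 1) = c * f s t) (i : ℕ) :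
    ∑ s ∈ range (i + 1), ∑ t ∈ range (i + 1), f s t =
      (∑ j ∈ range (i + 1), c ^ j) * f 0 0 +
        ∑ δ ∈ range i, (∑ j ∈ range (i - δ), c ^ j) * (f (δ + 1) 0 + f 0 (δ + 1)) := by
  induction i with
  | zero => simp
  | succ i ih =>
    have e1 : ∑ s ∈ range (i + 1 + 1), ∑ t ∈ range (i + 1 + 1), f s t =
        c * (∑ s ∈ range (i + 1), ∑ t ∈ range (i + 1), f s t) +
          (f 0 0 + ∑ δ ∈ range (i + 1), (f (δ + 1) 0 + f 0 (δ + 1))) := by
      rw [Finset.sum_range_succ' _ (i + 1)]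
      rw [Finset.sum_range_succ' (fun t => f 0 t) (i + 1)]
      have : ∀ s ∈ range (i + 1), ∑ t ∈ range (i + 1 + 1), f (s + 1) t =
          c * (∑ t ∈ range (i + 1), f s t) + f (s + 1) 0 := by
        intro s _
        rw [Finset.sum_range_succ' _ (i + 1), Finset.mul_sum]
        simp only [hf]
      rw [Finset.sum_congr rfl this, Finset.sum_add_distrib, ← Finset.mul_sum,
        Finset.sum_add_distrib]
      ring
    rw [e1, ih]
    have e2 : ∀ k : ℕ, ∑ j ∈ range (k + 1), c ^ j = 1 + c * ∑ j ∈ range k, c ^ j := by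
      intro k
      rw [Finset.sum_range_succ', Finset.mul_sum]
      simp only [pow_succ, pow_zero]
      rw [add_comm]
      congr 1
      exact Finset.sum_congr rfl fun j _ => by ring
    rw [e2 (i + 1)]
    have e3 : ∑ δ ∈ range (i + 1), (∑ j ∈ range (i + 1 - δ), c ^ j) * (f (δ + 1) 0 + f 0 (δ + 1)) =
        ∑ δ ∈ range (i + 1), ((f (δ + 1) 0 + f 0 (δ + 1)) +
          c * ((∑ j ∈ range (i - δ), c ^ j) * (f (δ + 1) 0 + f 0 (δ + 1)))) := by
      apply Finset.sum_congr rfl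
      intro δ hδ
      have hδ' : δ ≤ i := by simpa [Nat.lt_succ_iff] using hδ
      rw [show i + 1 - δ = (i - δ) + 1 by omega, e2]
      ring
    have e4 : ∑ δ ∈ range (i + 1), ((f (δ + 1) 0 + f 0 (δ + 1)) +
          c * ((∑ j ∈ range (i - δ), c ^ j) * (f (δ + 1) 0 + f 0 (δ + 1)))) =
        ∑ δ ∈ range (i + 1), (f (δ + 1) 0 + f 0 (δ + 1)) +
          c * ∑ δ ∈ range i, (∑ j ∈ range (i - δ), c ^ j) * (f (δ + 1) 0 + f 0 (δ + 1)) := by
      rw [Finset.sum_add_distrib, ← Finset.mul_sum, Finset.sum_range_succ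
        (fun δ => (∑ j ∈ range (i - δ), c ^ j) * (f (δ + 1) 0 + f 0 (δ + 1))) i]
      simp
    rw [e3, e4]
    ring

theorem T_split (p i m x y : ℕ) (hp : p.Prime) (hm : ¬ p ∣ m) :
    T (p ^ i * m) x y =
      (∑ j ∈ range (i + 1), ((p : ℝ)⁻¹) ^ j) * T m x y +
        ∑ δ ∈ range i, (∑ j ∈ range (i - δ), ((p : ℝ)⁻¹) ^ j) *
          (T m (x * p ^ (δ + 1)) y + T m x (y * p ^ (δ + 1))) := by
  have hp0 : (p : ℝ) ≠ 0 := by exact_mod_cast hp.ne_zero
  have e0 : T (p ^ i * m) x y =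
      ∑ s ∈ range (i + 1), ∑ t ∈ range (i + 1), T m (x * p ^ s) (y * p ^ t) := by
    unfold T
    rw [sum_divisors_split p i m hp hm]
    apply Finset.sum_congr rfl
    intro s _
    simp_rw [sum_divisors_split p i m hp hm]
    rw [Finset.sum_comm]
    apply Finset.sum_congr rfl
    intro t _
    apply Finset.sum_congr rfl
    intro d _
    apply Finset.sum_congr rfl
    intro e _
    rw [mul_assoc, mul_assoc]
  rw [e0, sum_scaling (fun s t => T m (x * p ^ s) (y * p ^ t)) ((p : ℝ)⁻¹)]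
  · simp
  · intro s t
    unfold T
    rw [Finset.mul_sum]
    apply Finset.sum_congr rfl
    intro d _
    rw [Finset.mul_sum]
    apply Finset.sum_congr rfl
    intro e _
    have : (((x * p ^ (s + 1) * d : ℕ) : ℝ) - ((y * p ^ (t + 1) * e : ℕ) : ℝ)) =
        p * (((x * p ^ s * d : ℕ) : ℝ) - ((y * p ^ t * e : ℕ) : ℝ)) := by
      push_cast; ring
    rw [this, abs_mul, abs_of_pos (by exact_mod_cast hp.pos : (0 : ℝ) < p)]
    rw [one_div, one_div, mul_inv]

theorem T_symm (n x y : ℕ) : T n x y = T n y x := by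
  unfold T
  rw [Finset.sum_comm]
  apply Finset.sum_congr rfl
  intro d _
  apply Finset.sum_congr rfl
  intro e _
  rw [abs_sub_comm]

theorem T_nonneg (n x y : ℕ) : 0 ≤ T n x y := by
  unfold T
  positivity

theorem T_one (x y : ℕ) : T 1 x y = 1 / |(x : ℝ) - (y : ℝ)| := by
  simp [T]

theorem S2_eq_T (n : ℕ) : S2 n = T n 1 1 := by
  simp [S2, T]

end Pool.MP_9e760c_nt.GapSum.Box
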