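import Mathlib
import Pool.Agent.Lib.MP_9e760c_nt.Defs
import Pool.Agent.Lib.MP_9e760c_nt.BoxA

set_option autoImplicit false

/-!
# MP_9e760c_nt, piece D (boxes), part B: packed evaluation of the recursion

All exponent vectors of a box are treated at once: the values are the digits in base `2 ^ 96`
of one natural number.
-/

open Finset

namespace Pool.MP_9e760c_nt.GapSum.Box

/-- Upper bound for `10 ^ 9 / |x - y|`. -/
def leaf (x y : ℕ) : ℕ := 1000000000 / ((x - y) + (y - x)) + 1

/-- `1 + p + ... + p ^ i`. -/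
def geo (p : ℕ) : ℕ → ℕ
  | 0 => 1
  | i + 1 => p * geo p i + 1

/-- `p ^ a (1 + 1/p + ... + 1/p ^ i)`. -/
def gN (p a i : ℕ) : ℕ := p ^ (a - i) * geo p i

/-- Base of the packing. -/
def Bs : ℕ := 2 ^ 96

/-- Number of exponent vectors. -/
def len : List (ℕ × ℕ) → ℕ
  | [] => 1
  | b :: bs => (b.2 + 1) * len bs

def sumTo (f : ℕ → ℕ) : ℕ → ℕ
  | 0 => 0
  | k + 1 => sumTo f k + f k

theorem sumTo_eq (f : ℕ → ℕ) (k : ℕ) : sumTo f k = ∑ j ∈ range k, f j := by
  induction k with
  | zero => rfl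
  | succ k ih => rw [sumTo, ih, Finset.sum_range_succ]

/-- `∑_{i ≥ δ} gN p a (i - δ) C ^ i`. -/
def GG (p a C δ : ℕ) : ℕ := sumTo (fun j => gN p a j * C ^ (j + δ)) (a + 1 - δ)

def dat : List (ℕ × ℕ) → List (ℕ × List (ℕ × ℕ))
  | [] => []
  | b :: bs => (GG b.1 b.2 (Bs ^ len bs) 0,
      (List.range b.2).map (fun δ => (b.1 ^ (δ + 1), GG b.1 b.2 (Bs ^ len bs) (δ + 1)))) :: dat bs

def inner (f : ℕ → ℕ → ℕ) (x y : ℕ) : List (ℕ × ℕ) → ℕ
  | [] => 0
  | q :: l => q.2 * (f (x * q.1) y + f x (y * q.1)) + inner f x y l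

def ZZ : List (ℕ × List (ℕ × ℕ)) → ℕ → ℕ → ℕ
  | [], x, y => leaf x y
  | c :: ps, x, y => c.1 * ZZ ps x y + inner (ZZ ps) x y c.2

def innerR (f : ℕ → ℕ → ℕ) : List (ℕ × ℕ) → ℕ
  | [] => 0
  | q :: l => q.2 * f q.1 1 + innerR f l

def RR : List (ℕ × List (ℕ × ℕ)) → ℕ
  | [] => 0
  | c :: ps => c.1 * RR ps + innerR (ZZ ps) c.2

/-! ## The specification -/

/-- Packing of a function on exponent vectors. -/
def packF : List (ℕ × ℕ) → (List ℕ → ℕ) → ℕ
  | [], F => F []
  | b :: bs, F => ∑ i ∈ range (b.2 + 1), (Bs ^ len bs) ^ i * packF bs (fun es => F (i :: es))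

def FN : List (ℕ × ℕ) → List ℕ → ℕ → ℕ → ℕ
  | b :: bs, i :: es, x, y => gN b.1 b.2 i * FN bs es x y +
      ∑ δ ∈ range i, gN b.1 b.2 (i - (δ + 1)) *
        (FN bs es (x * b.1 ^ (δ + 1)) y + FN bs es x (y * b.1 ^ (δ + 1)))
  | _, _, x, y => leaf x y

def RN : List (ℕ × ℕ) → List ℕ → ℕ
  | b :: bs, i :: es => gN b.1 b.2 i * RN bs es +
      ∑ δ ∈ range i, gN b.1 b.2 (i - (δ + 1)) * FN bs es (b.1 ^ (δ + 1)) 1
  | _, _ => 0

theorem packF_add (bs : List (ℕ × ℕ)) (F G : List ℕ → ℕ) :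
    packF bs (fun es => F es + G es) = packF bs F + packF bs G := by
  induction bs generalizing F G with
  | nil => rfl
  | cons b bs ih =>
    simp only [packF]
    rw [← Finset.sum_add_distrib]
    apply Finset.sum_congr rfl
    intro i _
    rw [ih, mul_add]

theorem packF_mul (bs : List (ℕ × ℕ)) (c : ℕ) (F : List ℕ → ℕ) :
    packF bs (fun es => c * F es) = c * packF bs F := by
  induction bs generalizing F with
  | nil => rfl
  | cons b bs ih =>
    simp only [packF]
    rw [Finset.mul_sum]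
    apply Finset.sum_congr rfl
    intro i _
    rw [ih]
    ring

theorem packF_zero (bs : List (ℕ × ℕ)) : packF bs (fun _ => 0) = 0 := by
  have := packF_mul bs 0 (fun _ => 0)
  simpa using this

theorem packF_sum (bs : List (ℕ × ℕ)) (k : ℕ) (F : ℕ → List ℕ → ℕ) :
    packF bs (fun es => ∑ δ ∈ range k, F δ es) = ∑ δ ∈ range k, packF bs (F δ) := by
  induction k with
  | zero => simp [packF_zero]
  | succ k ih =>
    simp only [Finset.sum_range_succ]
    rw [packF_add, ih]

theorem list_sum_range (f : ℕ → ℕ) (k : ℕ) :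
    ((List.range k).map f).sum = ∑ i ∈ range k, f i := by
  induction k with
  | zero => rfl
  | succ k ih => rw [List.range_succ, Finset.sum_range_succ, List.map_append, List.sum_append, ih]; simp

theorem inner_eq (f : ℕ → ℕ → ℕ) (x y : ℕ) (l : List (ℕ × ℕ)) :
    inner f x y l = (l.map (fun q => q.2 * (f (x * q.1) y + f x (y * q.1)))).sum := by
  induction l with
  | nil => rfl
  | cons q l ih => simp [inner, ih]

theorem innerR_eq (f : ℕ → ℕ → ℕ) (l : List (ℕ × ℕ)) :
    innerR f l = (l.map (fun q => q.2 * f q.1 1)).sum := by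
  induction l with
  | nil => rfl
  | cons q l ih => simp [innerR, ih]

theorem exchange (u : ℕ → ℕ → ℕ) (a : ℕ) :
    ∑ i ∈ range (a + 1), ∑ δ ∈ range i, u i δ =
      ∑ δ ∈ range a, ∑ j ∈ range (a - δ), u (j + (δ + 1)) δ := by
  induction a with
  | zero => simp
  | succ a ih =>
    rw [Finset.sum_range_succ, ih]
    have e : ∀ δ ∈ range (a + 1), ∑ j ∈ range (a + 1 - δ), u (j + (δ + 1)) δ =
        ∑ j ∈ range (a - δ), u (j + (δ + 1)) δ + u (a + 1) δ := by
      intro δ hδ
      have hδ' : δ ≤ a := by simpa [Nat.lt_succ_iff] using hδ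
      rw [show a + 1 - δ = (a - δ) + 1 by omega, Finset.sum_range_succ]
      congr 2
      omega
    rw [Finset.sum_congr rfl e, Finset.sum_add_distrib, Finset.sum_range_succ
      (fun δ => ∑ j ∈ range (a - δ), u (j + (δ + 1)) δ) a]
    simp

theorem comb (C a : ℕ) (g : ℕ → ℕ) (P : ℕ) (H : ℕ → ℕ) :
    ∑ i ∈ range (a + 1), C ^ i * (g i * P + ∑ δ ∈ range i, g (i - (δ + 1)) * H δ) =
      (∑ j ∈ range (a + 1), g j * C ^ j) * P +
        ∑ δ ∈ range a, (∑ j ∈ range (a - δ), g j * C ^ (j + (δ + 1))) * H δ := by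
  have h1 : ∀ i ∈ range (a + 1), C ^ i * (g i * P + ∑ δ ∈ range i, g (i - (δ + 1)) * H δ) =
      g i * C ^ i * P + ∑ δ ∈ range i, C ^ i * (g (i - (δ + 1)) * H δ) := by
    intro i _
    rw [mul_add, Finset.mul_sum]
    ring
  rw [Finset.sum_congr rfl h1, Finset.sum_add_distrib, ← Finset.sum_mul,
    exchange (fun i δ => C ^ i * (g (i - (δ + 1)) * H δ))]
  congr 1
  apply Finset.sum_congr rfl
  intro δ _
  rw [Finset.sum_mul]
  apply Finset.sum_congr rfl
  intro j _
  rw [show j + (δ + 1) - (δ + 1) = j by omega]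
  ring

theorem ZZ_eq (bs : List (ℕ × ℕ)) (x y : ℕ) :
    ZZ (dat bs) x y = packF bs (fun es => FN bs es x y) := by
  induction bs generalizing x y with
  | nil => rfl
  | cons b bs ih =>
    have e1 : ∀ i, packF bs (fun es => FN (b :: bs) (i :: es) x y) =
        gN b.1 b.2 i * packF bs (fun es => FN bs es x y) +
          ∑ δ ∈ range i, gN b.1 b.2 (i - (δ + 1)) *
            (packF bs (fun es => FN bs es (x * b.1 ^ (δ + 1)) y) +
              packF bs (fun es => FN bs es x (y * b.1 ^ (δ + 1)))) := by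
      intro i
      simp only [FN]
      rw [packF_add, packF_mul, packF_sum]
      congr 1
      apply Finset.sum_congr rfl
      intro δ _
      rw [packF_mul, packF_add]
    simp only [packF, e1]
    rw [comb (Bs ^ len bs) b.2 (gN b.1 b.2) (packF bs (fun es => FN bs es x y))
      (fun δ => packF bs (fun es => FN bs es (x * b.1 ^ (δ + 1)) y) +
              packF bs (fun es => FN bs es x (y * b.1 ^ (δ + 1))))]
    simp only [dat, ZZ, inner_eq, List.map_map, GG, sumTo_eq]
    rw [list_sum_range]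
    simp only [Function.comp, ih, Nat.sub_zero, add_zero, Nat.add_sub_add_right]

theorem RR_eq (bs : List (ℕ × ℕ)) : RR (dat bs) = packF bs (fun es => RN bs es) := by
  induction bs with
  | nil => rfl
  | cons b bs ih =>
    have e1 : ∀ i, packF bs (fun es => RN (b :: bs) (i :: es)) =
        gN b.1 b.2 i * packF bs (fun es => RN bs es) +
          ∑ δ ∈ range i, gN b.1 b.2 (i - (δ + 1)) *
            packF bs (fun es => FN bs es (b.1 ^ (δ + 1)) 1) := by
      intro i
      simp only [RN]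
      rw [packF_add, packF_mul, packF_sum]
      congr 1
      apply Finset.sum_congr rfl
      intro δ _
      rw [packF_mul]
    simp only [packF, e1]
    rw [comb (Bs ^ len bs) b.2 (gN b.1 b.2) (packF bs (fun es => RN bs es))
      (fun δ => packF bs (fun es => FN bs es (b.1 ^ (δ + 1)) 1))]
    simp only [dat, RR, innerR_eq, List.map_map, GG, sumTo_eq]
    rw [list_sum_range]
    simp only [Function.comp, ih, ZZ_eq, Nat.sub_zero, add_zero, Nat.add_sub_add_right]

/-! ## Bounds and extraction -/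

/-- Exponent vectors of the box. -/
def Valid : List (ℕ × ℕ) → List ℕ → Prop
  | [], [] => True
  | b :: bs, i :: es => i ≤ b.2 ∧ Valid bs es
  | _, _ => False

theorem geo_le (p : ℕ) (hp : 2 ≤ p) (i : ℕ) : geo p i + 1 ≤ 2 * p ^ i := by
  induction i with
  | zero => simp [geo]
  | succ i ih =>
    simp only [geo, pow_succ]
    nlinarith [Nat.mul_le_mul_left p ih]

theorem gN_le (p a i : ℕ) (hp : 2 ≤ p) (hi : i ≤ a) : gN p a i ≤ 2 * p ^ a := by
  have h1 := geo_le p hp i
  have h2 : p ^ a = p ^ (a - i) * p ^ i := by rw [← pow_add]; congr 1; omega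
  rw [h2, gN]
  calc p ^ (a - i) * geo p i ≤ p ^ (a - i) * (2 * p ^ i) := Nat.mul_le_mul_left _ (by omega)
    _ = 2 * (p ^ (a - i) * p ^ i) := by ring

def bnd : List (ℕ × ℕ) → ℕ
  | [] => 1000000001
  | b :: bs => 2 * b.1 ^ b.2 * (2 * b.2 + 1) * bnd bs

theorem FN_le (bs : List (ℕ × ℕ)) (hbs : ∀ b ∈ bs, 2 ≤ b.1) (es : List ℕ) (hes : Valid bs es)
    (x y : ℕ) : FN bs es x y ≤ bnd bs := by
  induction bs generalizing es x y with
  | nil =>
    cases es with
    | nil =>
      simp only [FN, bnd, leaf]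
      have := Nat.div_le_self 1000000000 ((x - y) + (y - x))
      omega
    | cons _ _ => exact absurd hes id
  | cons b bs ih =>
    cases es with
    | nil => exact absurd hes id
    | cons i es =>
      obtain ⟨hi, hv⟩ := hes
      have hb : 2 ≤ b.1 := hbs b (by simp)
      have ih' := ih (fun c hc => hbs c (by simp [hc])) es hv
      simp only [FN, bnd]
      have h1 : gN b.1 b.2 i * FN bs es x y ≤ 2 * b.1 ^ b.2 * bnd bs :=
        Nat.mul_le_mul (gN_le _ _ _ hb hi) (ih' _ _)
      have h2 : ∑ δ ∈ range i, gN b.1 b.2 (i - (δ + 1)) *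
          (FN bs es (x * b.1 ^ (δ + 1)) y + FN bs es x (y * b.1 ^ (δ + 1))) ≤
          ∑ δ ∈ range i, 2 * b.1 ^ b.2 * (2 * bnd bs) := by
        apply Finset.sum_le_sum
        intro δ _
        apply Nat.mul_le_mul (gN_le _ _ _ hb (by omega))
        have := ih' (x * b.1 ^ (δ + 1)) y
        have := ih' x (y * b.1 ^ (δ + 1))
        omega
      rw [Finset.sum_const, Finset.card_range, smul_eq_mul] at h2
      calc _ ≤ 2 * b.1 ^ b.2 * bnd bs + i * (2 * b.1 ^ b.2 * (2 * bnd bs)) := Nat.add_le_add h1 h2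
        _ ≤ 2 * b.1 ^ b.2 * bnd bs + b.2 * (2 * b.1 ^ b.2 * (2 * bnd bs)) := by gcongr
        _ = 2 * b.1 ^ b.2 * (2 * b.2 + 1) * bnd bs := by ring

theorem RN_le (bs : List (ℕ × ℕ)) (hbs : ∀ b ∈ bs, 2 ≤ b.1) (es : List ℕ) (hes : Valid bs es) :
    RN bs es ≤ bnd bs := by
  induction bs generalizing es with
  | nil => simp [RN, bnd]
  | cons b bs ih =>
    cases es with
    | nil => exact absurd hes id
    | cons i es =>
      obtain ⟨hi, hv⟩ := hes
      have hb : 2 ≤ b.1 := hbs b (by simp)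
      have hbs' : ∀ c ∈ bs, 2 ≤ c.1 := fun c hc => hbs c (by simp [hc])
      have ih' := ih hbs' es hv
      simp only [RN, bnd]
      have h1 : gN b.1 b.2 i * RN bs es ≤ 2 * b.1 ^ b.2 * bnd bs :=
        Nat.mul_le_mul (gN_le _ _ _ hb hi) ih'
      have h2 : ∑ δ ∈ range i, gN b.1 b.2 (i - (δ + 1)) * FN bs es (b.1 ^ (δ + 1)) 1 ≤
          ∑ δ ∈ range i, 2 * b.1 ^ b.2 * (2 * bnd bs) := by
        apply Finset.sum_le_sum
        intro δ _
        apply Nat.mul_le_mul (gN_le _ _ _ hb (by omega))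
        have := FN_le bs hbs' es hv (b.1 ^ (δ + 1)) 1
        omega
      rw [Finset.sum_const, Finset.card_range, smul_eq_mul] at h2
      calc _ ≤ 2 * b.1 ^ b.2 * bnd bs + i * (2 * b.1 ^ b.2 * (2 * bnd bs)) := Nat.add_le_add h1 h2
        _ ≤ 2 * b.1 ^ b.2 * bnd bs + b.2 * (2 * b.1 ^ b.2 * (2 * bnd bs)) := by gcongr
        _ = 2 * b.1 ^ b.2 * (2 * b.2 + 1) * bnd bs := by ring

theorem sum_pow_lt (C k : ℕ) (v : ℕ → ℕ) (hv : ∀ i < k, v i < C) :
    ∑ i ∈ range k, C ^ i * v i < C ^ k := by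
  induction k with
  | zero => simp
  | succ k ih =>
    rw [Finset.sum_range_succ, pow_succ]
    have h1 := ih (fun i hi => hv i (by omega))
    have h2 : v k + 1 ≤ C := hv k (by omega)
    calc _ < C ^ k + C ^ k * v k := by omega
      _ = C ^ k * (v k + 1) := by ring
      _ ≤ C ^ k * C := Nat.mul_le_mul_left _ h2

theorem packF_lt (bs : List (ℕ × ℕ)) (F : List ℕ → ℕ) (hF : ∀ es, Valid bs es → F es < Bs) :
    packF bs F < Bs ^ len bs := by
  induction bs generalizing F with
  | nil => simpa [packF, len] using hF [] trivial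
  | cons b bs ih =>
    simp only [packF, len]
    rw [mul_comm (b.2 + 1), pow_mul]
    apply sum_pow_lt
    intro i hi
    exact ih _ (fun es hes => hF (i :: es) ⟨by omega, hes⟩)

/-- Run through the blocks. -/
def lp (g : ℕ → ℕ → ℕ → Bool) (p C t : ℕ) : ℕ → ℕ → ℕ → ℕ → Bool
  | 0, _, _, _ => true
  | k + 1, i, n, N => g n (t * i) (N % C) && lp g p C t k (i + 1) (n * p) (N / C)

def chk (test : ℕ → ℕ → ℕ → Bool) : List (ℕ × ℕ) → ℕ → ℕ → ℕ → Bool
  | [], n, t, N => test n t N
  | b :: bs, n, t, N => lp (fun n t N => chk test bs n t N) b.1 (Bs ^ len bs) t (b.2 + 1) 1 n N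

theorem lp_sound (g : ℕ → ℕ → ℕ → Bool) (p C t k i0 n : ℕ) (v : ℕ → ℕ) (hv : ∀ i < k, v i < C)
    (h : lp g p C t k i0 n (∑ i ∈ range k, C ^ i * v i) = true) (i : ℕ) (hi : i < k) :
    g (n * p ^ i) (t * (i0 + i)) (v i) = true := by
  induction k generalizing i0 n v i with
  | zero => omega
  | succ k ih =>
    have h0 : v 0 < C := hv 0 (by omega)
    have hC : 0 < C := by omega
    have e1 : ∑ i ∈ range (k + 1), C ^ i * v i = v 0 + C * ∑ i ∈ range k, C ^ i * v (i + 1) := by
      rw [Finset.sum_range_succ', Finset.mul_sum, add_comm]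
      simp only [pow_zero, one_mul]
      congr 1
      exact Finset.sum_congr rfl fun j _ => by ring
    rw [e1] at h
    simp only [lp, Bool.and_eq_true] at h
    have e2 : (v 0 + C * ∑ i ∈ range k, C ^ i * v (i + 1)) % C = v 0 := by
      rw [Nat.add_mul_mod_self_left, Nat.mod_eq_of_lt h0]
    have e3 : (v 0 + C * ∑ i ∈ range k, C ^ i * v (i + 1)) / C = ∑ i ∈ range k, C ^ i * v (i + 1) := by
      rw [Nat.add_mul_div_left _ _ hC, Nat.div_eq_of_lt h0, zero_add]
    rw [e2, e3] at h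
    cases i with
    | zero => simpa using h.1
    | succ i =>
      have := ih (i0 + 1) (n * p) (fun i => v (i + 1)) (fun i hi => hv (i + 1) (by omega)) h.2 i (by omega)
      rw [show n * p ^ (i + 1) = n * p * p ^ i by ring, show i0 + (i + 1) = i0 + 1 + i by ring]
      exact this

def nn : List (ℕ × ℕ) → List ℕ → ℕ
  | b :: bs, i :: es => b.1 ^ i * nn bs es
  | _, _ => 1

def tt : List (ℕ × ℕ) → List ℕ → ℕ
  | _ :: bs, i :: es => (i + 1) * tt bs es
  | _, _ => 1

theorem chk_sound (test : ℕ → ℕ → ℕ → Bool) (bs : List (ℕ × ℕ)) (n t : ℕ) (F : List ℕ → ℕ)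
    (hF : ∀ es, Valid bs es → F es < Bs) (h : chk test bs n t (packF bs F) = true)
    (es : List ℕ) (hes : Valid bs es) : test (n * nn bs es) (t * tt bs es) (F es) = true := by
  induction bs generalizing n t F es with
  | nil =>
    cases es with
    | nil => simpa [nn, tt, chk, packF] using h
    | cons _ _ => exact absurd hes id
  | cons b bs ih =>
    cases es with
    | nil => exact absurd hes id
    | cons i es =>
      obtain ⟨hi, hv⟩ := hes
      simp only [chk, packF] at h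
      have h1 := lp_sound _ b.1 (Bs ^ len bs) t (b.2 + 1) 1 n
        (fun i => packF bs (fun es => F (i :: es)))
        (fun j hj => packF_lt bs _ (fun es' hes' => hF (j :: es') ⟨by omega, hes'⟩)) h i (by omega)
      have h2 := ih (n * b.1 ^ i) (t * (1 + i)) (fun es => F (i :: es))
        (fun es' hes' => hF (i :: es') ⟨hi, hes'⟩) h1 es hv
      simp only [nn, tt]
      rw [show n * (b.1 ^ i * nn bs es) = n * b.1 ^ i * nn bs es by ring,
        show t * ((i + 1) * tt bs es) = t * (1 + i) * tt bs es by ring]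
      exact h2

end Pool.MP_9e760c_nt.GapSum.Box
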