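import Mathlib
import Pool.Agent.Lib.MP_9e760c_nt.Defs
import Pool.Agent.Lib.MP_9e760c_nt.BoxA
import Pool.Agent.Lib.MP_9e760c_nt.BoxB

set_option autoImplicit false

/-!
# MP_9e760c_nt, piece D (boxes), part C: soundness of the box check
-/

open Finset

namespace Pool.MP_9e760c_nt.GapSum.Box

/-- Distinct primes. -/
def PD : List (ℕ × ℕ) → Prop
  | [] => True
  | b :: bs => b.1.Prime ∧ (∀ c ∈ bs, c.1 ≠ b.1) ∧ PD bs

theorem PD.prime {bs : List (ℕ × ℕ)} (h : PD bs) : ∀ b ∈ bs, b.1.Prime := by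
  induction bs with
  | nil => simp
  | cons b bs ih =>
    obtain ⟨h1, _, h3⟩ := h
    intro c hc
    rcases List.mem_cons.1 hc with rfl | hc
    · exact h1
    · exact ih h3 c hc

theorem not_dvd_nn (p : ℕ) (hp : p.Prime) (bs : List (ℕ × ℕ)) (hbs : ∀ b ∈ bs, b.1.Prime)
    (hne : ∀ b ∈ bs, b.1 ≠ p) (es : List ℕ) : ¬ p ∣ nn bs es := by
  induction bs generalizing es with
  | nil =>
    simp only [nn]
    exact fun h => hp.one_lt.ne' (Nat.dvd_one.1 h)
  | cons b bs ih =>
    cases es with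
    | nil =>
      simp only [nn]
      exact fun h => hp.one_lt.ne' (Nat.dvd_one.1 h)
    | cons i es =>
      simp only [nn]
      intro h
      rcases (Nat.Prime.dvd_mul hp).1 h with h | h
      · have h1 := hp.dvd_of_dvd_pow h
        have h2 := (Nat.prime_dvd_prime_iff_eq hp (hbs b (by simp))).1 h1
        exact hne b (by simp) h2.symm
      · exact ih (fun c hc => hbs c (by simp [hc])) (fun c hc => hne c (by simp [hc])) es h

def DD : List (ℕ × ℕ) → ℕ
  | [] => 1
  | b :: bs => b.1 ^ b.2 * DD bs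

theorem geo_real (p : ℕ) (hp : p ≠ 0) (i : ℕ) :
    (∑ j ∈ range (i + 1), ((p : ℝ)⁻¹) ^ j) * (p : ℝ) ^ i = geo p i := by
  have hp' : (p : ℝ) ≠ 0 := by exact_mod_cast hp
  induction i with
  | zero => simp [geo]
  | succ i ih =>
    rw [Finset.sum_range_succ, add_mul, pow_succ, ← mul_assoc, ih, geo]
    rw [← pow_succ, inv_pow, inv_mul_cancel₀ (pow_ne_zero _ hp')]
    push_cast
    ring

theorem gN_real (p a i : ℕ) (hp : p ≠ 0) (hi : i ≤ a) :
    (∑ j ∈ range (i + 1), ((p : ℝ)⁻¹) ^ j) * (p : ℝ) ^ a = gN p a i := by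
  have h : (p : ℝ) ^ a = (p : ℝ) ^ i * (p : ℝ) ^ (a - i) := by rw [← pow_add]; congr 1; omega
  rw [h, ← mul_assoc, geo_real p hp, gN]
  push_cast
  ring

theorem leaf_ge (x y : ℕ) : 1 / |(x : ℝ) - (y : ℝ)| * 1000000000 ≤ (leaf x y : ℝ) := by
  have hd : (((x - y) + (y - x) : ℕ) : ℝ) = |(x : ℝ) - (y : ℝ)| := by
    rcases le_total x y with h | h
    · rw [Nat.sub_eq_zero_of_le h, abs_of_nonpos (by simpa using h), zero_add, Nat.cast_sub h]
      ring
    · rw [Nat.sub_eq_zero_of_le h, abs_of_nonneg (by simpa using h), add_zero, Nat.cast_sub h]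
  rw [← hd]
  unfold leaf
  generalize (x - y) + (y - x) = z
  rcases Nat.eq_zero_or_pos z with rfl | hz
  · simp
  · have h1 : 1000000000 < z * (1000000000 / z + 1) := by
      have := Nat.lt_mul_div_succ 1000000000 hz
      simpa using this
    have h2 : (1000000000 : ℝ) < z * ((1000000000 / z : ℕ) + 1) := by exact_mod_cast h1
    have hz' : (0 : ℝ) < z := by exact_mod_cast hz
    push_cast
    rw [div_mul_eq_mul_div, one_mul, div_le_iff₀ hz']
    linarith

theorem FN_real (bs : List (ℕ × ℕ)) (hbs : PD bs) (es : List ℕ) (hes : Valid bs es) (x y : ℕ) :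
    T (nn bs es) x y * (1000000000 * (DD bs : ℝ)) ≤ (FN bs es x y : ℝ) := by
  induction bs generalizing es x y with
  | nil =>
    cases es with
    | nil => simpa [nn, DD, FN, T_one] using leaf_ge x y
    | cons _ _ => exact absurd hes id
  | cons b bs ih =>
    cases es with
    | nil => exact absurd hes id
    | cons i es =>
      obtain ⟨hi, hv⟩ := hes
      obtain ⟨hp, hne, hpd⟩ := hbs
      have ih' := ih hpd es hv
      simp only [nn, DD, FN]
      rw [T_split _ _ _ _ _ hp (not_dvd_nn _ hp bs hpd.prime hne es)]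
      push_cast
      rw [add_mul]
      apply add_le_add
      · calc _ = ((∑ j ∈ range (i + 1), ((b.1 : ℝ)⁻¹) ^ j) * (b.1 : ℝ) ^ b.2) *
              (T (nn bs es) x y * (1000000000 * (DD bs : ℝ))) := by ring
          _ = (gN b.1 b.2 i : ℝ) * (T (nn bs es) x y * (1000000000 * (DD bs : ℝ))) := by
              rw [gN_real _ _ _ hp.ne_zero hi]
          _ ≤ _ := mul_le_mul_of_nonneg_left (ih' x y) (Nat.cast_nonneg _)
      · rw [Finset.sum_mul]
        apply Finset.sum_le_sum
        intro δ hδ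
        have hδ' : δ < i := by simpa using hδ
        calc _ = ((∑ j ∈ range (i - δ), ((b.1 : ℝ)⁻¹) ^ j) * (b.1 : ℝ) ^ b.2) *
              (T (nn bs es) (x * b.1 ^ (δ + 1)) y * (1000000000 * (DD bs : ℝ)) +
                T (nn bs es) x (y * b.1 ^ (δ + 1)) * (1000000000 * (DD bs : ℝ))) := by ring
          _ = (gN b.1 b.2 (i - (δ + 1)) : ℝ) *
              (T (nn bs es) (x * b.1 ^ (δ + 1)) y * (1000000000 * (DD bs : ℝ)) +
                T (nn bs es) x (y * b.1 ^ (δ + 1)) * (1000000000 * (DD bs : ℝ))) := by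
              rw [show i - δ = (i - (δ + 1)) + 1 by omega, gN_real _ _ _ hp.ne_zero (by omega)]
          _ ≤ _ := mul_le_mul_of_nonneg_left (add_le_add (ih' _ _) (ih' _ _)) (Nat.cast_nonneg _)

theorem RN_real (bs : List (ℕ × ℕ)) (hbs : PD bs) (es : List ℕ) (hes : Valid bs es) :
    S2 (nn bs es) * (1000000000 * (DD bs : ℝ)) ≤ 2 * (RN bs es : ℝ) := by
  induction bs generalizing es with
  | nil =>
    cases es with
    | nil => simp [nn, DD, RN, S2]
    | cons _ _ => exact absurd hes id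
  | cons b bs ih =>
    cases es with
    | nil => exact absurd hes id
    | cons i es =>
      obtain ⟨hi, hv⟩ := hes
      obtain ⟨hp, hne, hpd⟩ := hbs
      have ih' := ih hpd es hv
      simp only [nn, DD, RN]
      rw [S2_eq_T, T_split _ _ _ _ _ hp (not_dvd_nn _ hp bs hpd.prime hne es)]
      rw [S2_eq_T] at ih'
      push_cast
      rw [add_mul, mul_add]
      apply add_le_add
      · calc _ = ((∑ j ∈ range (i + 1), ((b.1 : ℝ)⁻¹) ^ j) * (b.1 : ℝ) ^ b.2) *
              (T (nn bs es) 1 1 * (1000000000 * (DD bs : ℝ))) := by ring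
          _ = (gN b.1 b.2 i : ℝ) * (T (nn bs es) 1 1 * (1000000000 * (DD bs : ℝ))) := by
              rw [gN_real _ _ _ hp.ne_zero hi]
          _ ≤ (gN b.1 b.2 i : ℝ) * (2 * (RN bs es : ℝ)) :=
              mul_le_mul_of_nonneg_left ih' (Nat.cast_nonneg _)
          _ = _ := by ring
      · rw [Finset.sum_mul, Finset.mul_sum]
        apply Finset.sum_le_sum
        intro δ hδ
        have hδ' : δ < i := by simpa using hδ
        rw [one_mul, T_symm _ 1 (b.1 ^ (δ + 1))]
        calc _ = ((∑ j ∈ range (i - δ), ((b.1 : ℝ)⁻¹) ^ j) * (b.1 : ℝ) ^ b.2) *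
              (2 * (T (nn bs es) (b.1 ^ (δ + 1)) 1 * (1000000000 * (DD bs : ℝ)))) := by ring
          _ = (gN b.1 b.2 (i - (δ + 1)) : ℝ) *
              (2 * (T (nn bs es) (b.1 ^ (δ + 1)) 1 * (1000000000 * (DD bs : ℝ)))) := by
              rw [show i - δ = (i - (δ + 1)) + 1 by omega, gN_real _ _ _ hp.ne_zero (by omega)]
          _ ≤ (gN b.1 b.2 (i - (δ + 1)) : ℝ) * (2 * (FN bs es (b.1 ^ (δ + 1)) 1 : ℝ)) :=
              mul_le_mul_of_nonneg_left
                (mul_le_mul_of_nonneg_left (FN_real bs hpd es hv _ _) (by norm_num))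
                (Nat.cast_nonneg _)
          _ = _ := by ring

theorem tt_eq (bs : List (ℕ × ℕ)) (hbs : PD bs) (es : List ℕ) (hes : Valid bs es) :
    (nn bs es).divisors.card = tt bs es := by
  induction bs generalizing es with
  | nil =>
    cases es with
    | nil => simp [nn, tt]
    | cons _ _ => exact absurd hes id
  | cons b bs ih =>
    cases es with
    | nil => exact absurd hes id
    | cons i es =>
      obtain ⟨hi, hv⟩ := hes
      obtain ⟨hp, hne, hpd⟩ := hbs
      simp only [nn, tt]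
      rw [card_divisors_split _ _ _ hp (not_dvd_nn _ hp bs hpd.prime hne es), ih hpd es hv]

theorem exists_valid (bs : List (ℕ × ℕ)) (hbs : ∀ b ∈ bs, b.1.Prime) (n : ℕ) (hn : n ∣ DD bs) :
    ∃ es, Valid bs es ∧ n = nn bs es := by
  induction bs generalizing n with
  | nil => exact ⟨[], trivial, by simpa [DD, nn] using hn⟩
  | cons b bs ih =>
    simp only [DD] at hn
    obtain ⟨k1, k2, h1, h2, rfl⟩ := (Nat.dvd_mul).1 hn
    obtain ⟨i, hi, rfl⟩ := (Nat.dvd_prime_pow (hbs b (by simp))).1 h1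
    obtain ⟨es, hv, rfl⟩ := ih (fun c hc => hbs c (by simp [hc])) k2 h2
    exact ⟨i :: es, ⟨hi, hv⟩, rfl⟩

end Pool.MP_9e760c_nt.GapSum.Box
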