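import Mathlib
import Pool.Agent.Lib.MP_9e760c_nt.Defs
import Pool.Agent.Lib.MP_9e760c_nt.BoxA
import Pool.Agent.Lib.MP_9e760c_nt.BoxB
import Pool.Agent.Lib.MP_9e760c_nt.BoxC

set_option autoImplicit false

/-!
# MP_9e760c_nt, piece D (boxes), part D: the near part, the test and its soundness
-/

open Finset

namespace Pool.MP_9e760c_nt.GapSum.Box

/-- Integer lower bound for `10 ^ 9 w h`. -/
def wN (h : ℕ) : ℕ := 1000000000 * ((58 - h) * (59 - h)) / (3422 * h)

theorem w_nonneg (x : ℤ) : 0 ≤ w x := by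
  unfold w
  split_ifs with h
  · exact le_rfl
  · push Not at h
    have h1 : |x| ≤ 57 := by omega
    have h2 : (|x| : ℝ) ≤ 57 := by exact_mod_cast h1
    have h3 : (0 : ℝ) ≤ |(x : ℝ)| := abs_nonneg _
    have h4 : (0 : ℝ) ≤ 58 - |(x : ℝ)| := by linarith
    have h5 : (0 : ℝ) ≤ 59 - |(x : ℝ)| := by linarith
    positivity

theorem w_neg (x : ℤ) : w (-x) = w x := by
  unfold w
  simp

theorem wN_le (h : ℕ) (h0 : 0 < h) (h58 : h < 58) : (wN h : ℝ) ≤ 1000000000 * w (h : ℤ) := by
  have e1 : w (h : ℤ) = (58 - (h : ℝ)) * (59 - (h : ℝ)) / (3422 * (h : ℝ)) := by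
    unfold w
    have h1 : ¬ ((h : ℤ) = 0 ∨ 58 ≤ |(h : ℤ)|) := by
      rw [abs_of_nonneg (by positivity)]
      omega
    rw [if_neg h1]
    simp
  rw [e1]
  unfold wN
  have h2 : ((1000000000 * ((58 - h) * (59 - h)) / (3422 * h) : ℕ) : ℝ) ≤
      ((1000000000 * ((58 - h) * (59 - h)) : ℕ) : ℝ) / ((3422 * h : ℕ) : ℝ) := Nat.cast_div_le
  refine h2.trans (le_of_eq ?_)
  rw [Nat.cast_mul, Nat.cast_mul, Nat.cast_sub (by omega), Nat.cast_sub (by omega)]
  push_cast
  ring

theorem K_eq (x : ℤ) : K x = 1 / |(x : ℝ)| - w x + (if x = 0 then 117 / 3422 else 0) := by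
  unfold K w
  by_cases h0 : x = 0
  · subst h0
    norm_num
  · have hx : (0 : ℝ) < |(x : ℝ)| := abs_pos.2 (by exact_mod_cast h0)
    rw [if_neg h0]
    by_cases h : 58 ≤ |x|
    · rw [if_pos h, if_pos (Or.inr h)]
      ring
    · rw [if_neg h, if_neg (by tauto)]
      field_simp
      ring

/-- The near part. -/
noncomputable def WW (n : ℕ) : ℝ :=
  ∑ d ∈ n.divisors, ∑ e ∈ n.divisors, w ((d : ℤ) - (e : ℤ))

theorem En_eq (n : ℕ) : En n = 117 / 3422 * (n.divisors.card : ℝ) + S2 n - WW n := by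
  have h1 : En n = ∑ d ∈ n.divisors, ∑ e ∈ n.divisors, (1 / |(d : ℝ) - (e : ℝ)| -
      w ((d : ℤ) - (e : ℤ)) + (if d = e then 117 / 3422 else 0)) := by
    unfold En
    apply Finset.sum_congr rfl
    intro d _
    apply Finset.sum_congr rfl
    intro e _
    rw [K_eq]
    have : ((d : ℤ) - (e : ℤ) = 0) ↔ d = e := by omega
    simp only [this]
    push_cast
    rfl
  rw [h1]
  simp only [Finset.sum_add_distrib, Finset.sum_sub_distrib]
  rw [S2, WW]
  have h2 : ∑ d ∈ n.divisors, ∑ e ∈ n.divisors, (if d = e then (117 : ℝ) / 3422 else 0) =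
      117 / 3422 * (n.divisors.card : ℝ) := by
    have : ∀ d ∈ n.divisors, ∑ e ∈ n.divisors, (if d = e then (117 : ℝ) / 3422 else 0) =
        117 / 3422 := by
      intro d hd
      rw [Finset.sum_ite_eq, if_pos hd]
    rw [Finset.sum_congr rfl this, Finset.sum_const, nsmul_eq_mul]
    ring
  rw [h2]
  ring

/-! ## The list of close pairs -/

def asc {α : Type*} (f : α → ℕ) : List α → Bool
  | a :: b :: l => Nat.blt (f a) (f b) && asc f (b :: l)
  | _ => true

theorem asc_pairwise {α : Type*} (f : α → ℕ) (l : List α) (h : asc f l = true) :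
    l.Pairwise (fun a b => f a < f b) := by
  have key : ∀ (l : List α) (a : α), asc f (a :: l) = true →
      (∀ b ∈ l, f a < f b) ∧ l.Pairwise (fun a b => f a < f b) := by
    intro l
    induction l with
    | nil => intro a _; simp
    | cons b l ih =>
      intro a h
      simp only [asc, Bool.and_eq_true] at h
      obtain ⟨h1, h2⟩ := h
      have h1' : f a < f b := Nat.le_of_ble_eq_true h1
      obtain ⟨h3, h4⟩ := ih b h2
      refine ⟨?_, List.pairwise_cons.2 ⟨h3, h4⟩⟩
      intro c hc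
      rcases List.mem_cons.1 hc with rfl | hc
      · exact h1'
      · exact h1'.trans (h3 c hc)
  cases l with
  | nil => exact List.Pairwise.nil
  | cons a l =>
    obtain ⟨h3, h4⟩ := key l a h
    exact List.pairwise_cons.2 ⟨h3, h4⟩

/-- A key: `(m, wt, [(d, h), ...])` with `lcm (d, d + h) = m`. -/
def keyOK (k : ℕ × ℕ × List (ℕ × ℕ)) : Bool :=
  Nat.ble k.2.1 ((k.2.2.map (fun q => wN q.2)).sum) && asc (fun q => q.1 * 64 + q.2) k.2.2 &&
    k.2.2.all (fun q => Nat.blt 0 q.2 && Nat.blt q.2 58 &&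
      Nat.beq (Nat.lcm q.1 (q.1 + q.2)) k.1)

def keysOK (KL : List (ℕ × ℕ × List (ℕ × ℕ))) : Bool :=
  asc (fun k => k.1) KL && KL.all keyOK

def ksum (KL : List (ℕ × ℕ × List (ℕ × ℕ))) (n : ℕ) : ℕ :=
  (KL.map (fun k => if n % k.1 = 0 then k.2.1 else 0)).sum

def plist (KL : List (ℕ × ℕ × List (ℕ × ℕ))) (n : ℕ) : List (ℕ × ℕ) :=
  KL.flatMap (fun k => if n % k.1 = 0 then k.2.2 else [])

theorem ksum_le (KL : List (ℕ × ℕ × List (ℕ × ℕ))) (h : ∀ k ∈ KL, keyOK k = true) (n : ℕ) :
    ksum KL n ≤ ((plist KL n).map (fun q => wN q.2)).sum := by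
  induction KL with
  | nil => simp [ksum, plist]
  | cons k KL ih =>
    have ih' := ih (fun c hc => h c (by simp [hc]))
    have hk := h k (by simp)
    simp only [keyOK, Bool.and_eq_true] at hk
    have h1 : k.2.1 ≤ (k.2.2.map (fun q => wN q.2)).sum := Nat.le_of_ble_eq_true hk.1.1
    unfold ksum plist at *
    rw [List.map_cons, List.sum_cons, List.flatMap_cons, List.map_append, List.sum_append]
    apply Nat.add_le_add _ ih'
    split_ifs
    · exact h1
    · simp

theorem plist_mem (KL : List (ℕ × ℕ × List (ℕ × ℕ))) (h : ∀ k ∈ KL, keyOK k = true) (n : ℕ)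
    (q : ℕ × ℕ) (hq : q ∈ plist KL n) : q.1 ∣ n ∧ q.1 + q.2 ∣ n ∧ 0 < q.2 ∧ q.2 < 58 := by
  unfold plist at hq
  rw [List.mem_flatMap] at hq
  obtain ⟨k, hk, hq⟩ := hq
  split_ifs at hq with hn
  · have hk' := h k hk
    simp only [keyOK, Bool.and_eq_true, List.all_eq_true] at hk'
    obtain ⟨⟨h1, h2⟩, h3⟩ := hk'.2 q hq
    have h3' : Nat.lcm q.1 (q.1 + q.2) = k.1 := Nat.eq_of_beq_eq_true h3
    have hdvd : k.1 ∣ n := Nat.dvd_of_mod_eq_zero hn
    refine ⟨?_, ?_, Nat.le_of_ble_eq_true h1, Nat.le_of_ble_eq_true h2⟩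
    · exact (h3' ▸ Nat.dvd_lcm_left _ _).trans hdvd
    · exact (h3' ▸ Nat.dvd_lcm_right _ _).trans hdvd
  · simp at hq

theorem plist_nodup (KL : List (ℕ × ℕ × List (ℕ × ℕ))) (h : ∀ k ∈ KL, keyOK k = true)
    (ha : asc (fun k => k.1) KL = true) (n : ℕ) : (plist KL n).Nodup := by
  unfold plist
  rw [List.nodup_flatMap]
  constructor
  · intro k hk
    split_ifs
    · have hk' := h k hk
      simp only [keyOK, Bool.and_eq_true] at hk'
      have := asc_pairwise _ _ hk'.1.2
      exact this.imp (fun {a b} hab => by rintro rfl; exact lt_irrefl _ hab)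
    · exact List.nodup_nil
  · have hp := asc_pairwise _ _ ha
    refine List.Pairwise.imp_of_mem ?_ hp
    intro a b hA hB hab
    simp only [Function.onFun]
    rw [List.disjoint_left]
    intro q h1 h2
    split_ifs at h1 h2
    · have hkA := h a hA
      have hkB := h b hB
      simp only [keyOK, Bool.and_eq_true, List.all_eq_true] at hkA hkB
      have e1 := Nat.eq_of_beq_eq_true (hkA.2 q h1).2
      have e2 := Nat.eq_of_beq_eq_true (hkB.2 q h2).2
      omega
    · simp at h2
    · simp at h1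
    · simp at h1

theorem WW_ge (KL : List (ℕ × ℕ × List (ℕ × ℕ))) (h : ∀ k ∈ KL, keyOK k = true)
    (ha : asc (fun k => k.1) KL = true) (n : ℕ) (hn : 0 < n) :
    2 * (ksum KL n : ℝ) ≤ 1000000000 * WW n := by
  have h1 : (ksum KL n : ℝ) ≤ (((plist KL n).map (fun q => wN q.2)).sum : ℕ) := by
    exact_mod_cast ksum_le KL h n
  have hmem := plist_mem KL h n
  have hnd := plist_nodup KL h ha n
  -- as a sum over a finset
  have h2 : (((plist KL n).map (fun q => wN q.2)).sum : ℕ) =
      ∑ q ∈ (plist KL n).toFinset, wN q.2 := (List.sum_toFinset _ hnd).symm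
  have h3 : ((∑ q ∈ (plist KL n).toFinset, wN q.2 : ℕ) : ℝ) ≤
      1000000000 * ∑ q ∈ (plist KL n).toFinset, w (((q.1 + q.2 : ℕ) : ℤ) - (q.1 : ℤ)) := by
    rw [Finset.mul_sum]
    push_cast
    apply Finset.sum_le_sum
    intro q hq
    obtain ⟨_, _, h5, h6⟩ := hmem q (List.mem_toFinset.1 hq)
    have := wN_le q.2 h5 h6
    rw [add_sub_cancel_left]
    exact this
  -- comparison with the ordered pairs e < d
  set P := n.divisors ×ˢ n.divisors with hP
  have h4 : ∑ q ∈ (plist KL n).toFinset, w (((q.1 + q.2 : ℕ) : ℤ) - (q.1 : ℤ)) ≤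
      ∑ c ∈ P.filter (fun c => c.2 < c.1), w ((c.1 : ℤ) - (c.2 : ℤ)) := by
    have hinj : Set.InjOn (fun q : ℕ × ℕ => (q.1 + q.2, q.1)) ((plist KL n).toFinset : Set (ℕ × ℕ)) := by
      rintro ⟨a, b⟩ _ ⟨c, d⟩ _ hE
      simp only [Prod.mk.injEq] at hE ⊢
      omega
    have : ∑ q ∈ (plist KL n).toFinset, w (((q.1 + q.2 : ℕ) : ℤ) - (q.1 : ℤ)) =
        ∑ c ∈ (plist KL n).toFinset.image (fun q : ℕ × ℕ => (q.1 + q.2, q.1)),
          w ((c.1 : ℤ) - (c.2 : ℤ)) := by
      rw [Finset.sum_image hinj]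
    rw [this]
    apply Finset.sum_le_sum_of_subset_of_nonneg
    · intro c hc
      rw [Finset.mem_image] at hc
      obtain ⟨q, hq, rfl⟩ := hc
      obtain ⟨h5, h6, h7, _⟩ := hmem q (List.mem_toFinset.1 hq)
      rw [Finset.mem_filter, hP, Finset.mem_product, Nat.mem_divisors, Nat.mem_divisors]
      exact ⟨⟨⟨h6, hn.ne'⟩, ⟨h5, hn.ne'⟩⟩, by simpa using h7⟩
    · intro c _ _
      exact w_nonneg _
  have h5 : ∑ c ∈ P.filter (fun c => c.1 < c.2), w ((c.1 : ℤ) - (c.2 : ℤ)) =
      ∑ c ∈ P.filter (fun c => c.2 < c.1), w ((c.1 : ℤ) - (c.2 : ℤ)) := by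
    refine Finset.sum_bij' (i := fun c _ => (c.2, c.1)) (j := fun c _ => (c.2, c.1))
      (hi := ?_) (hj := ?_) (left_neg := ?_) (right_neg := ?_) (h := ?_)
    · intro c hc
      simp only [hP, Finset.mem_filter, Finset.mem_product] at hc ⊢
      tauto
    · intro c hc
      simp only [hP, Finset.mem_filter, Finset.mem_product] at hc ⊢
      tauto
    · intro c _; rfl
    · intro c _; rfl
    · intro c _
      have : ((c.1 : ℤ) - (c.2 : ℤ)) = -((c.2 : ℤ) - (c.1 : ℤ)) := by ring
      simp only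
      rw [this, w_neg]
  have h6 : ∑ c ∈ P.filter (fun c => c.1 < c.2), w ((c.1 : ℤ) - (c.2 : ℤ)) +
      ∑ c ∈ P.filter (fun c => c.2 < c.1), w ((c.1 : ℤ) - (c.2 : ℤ)) ≤ WW n := by
    have e : WW n = ∑ c ∈ P, w ((c.1 : ℤ) - (c.2 : ℤ)) := by
      rw [hP, Finset.sum_product]; rfl
    rw [e, ← Finset.sum_union]
    · apply Finset.sum_le_sum_of_subset_of_nonneg
      · intro c hc
        rw [Finset.mem_union, Finset.mem_filter, Finset.mem_filter] at hc
        tauto
      · intro c _ _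
        exact w_nonneg _
    · rw [Finset.disjoint_left]
      intro c h1 h2
      rw [Finset.mem_filter] at h1 h2
      omega
  rw [h2] at h1
  linarith

/-! ## The test -/

def wl : List (ℕ × ℕ) → ℕ → ℕ → Bool
  | [], _, r => Nat.beq r 0
  | k :: ks, n, r => match r with
    | 0 => true
    | r + 1 => bif Nat.beq (n % k.1) 0 then wl ks n (r + 1 - k.2) else wl ks n (r + 1)

theorem wl_sound (KL : List (ℕ × ℕ × List (ℕ × ℕ))) (n r : ℕ)
    (h : wl (KL.map (fun k => (k.1, k.2.1))) n r = true) : r ≤ ksum KL n := by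
  induction KL generalizing r with
  | nil =>
    simp only [List.map_nil, wl] at h
    have := Nat.eq_of_beq_eq_true h
    omega
  | cons k KL ih =>
    cases r with
    | zero => exact Nat.zero_le _
    | succ r =>
      simp only [List.map_cons, wl] at h
      have e : ksum (k :: KL) n = (if n % k.1 = 0 then k.2.1 else 0) + ksum KL n := by
        simp [ksum]
      rw [e]
      cases hb : Nat.beq (n % k.1) 0 with
      | true =>
        rw [hb] at h
        have h0 : n % k.1 = 0 := Nat.eq_of_beq_eq_true hb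
        rw [if_pos h0]
        have := ih _ h
        omega
      | false =>
        rw [hb] at h
        have := ih _ h
        omega

def t1 (KW : List (ℕ × ℕ)) (n t sn : ℕ) : Bool :=
  (Nat.ble sn (1000000000 * t) || Exc.contains n) && Nat.ble (1000 * sn) (1127000000000 * t) &&
    wl KW n (sn - 390000000 * t)

def test (D : ℕ) (KW : List (ℕ × ℕ)) (n t s : ℕ) : Bool :=
  match s / D with
  | 0 => t1 KW n t 1
  | r + 1 => t1 KW n t (r + 2)

theorem test_eq (D : ℕ) (KW : List (ℕ × ℕ)) (n t s : ℕ) :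
    test D KW n t s = t1 KW n t (s / D + 1) := by
  unfold test
  split
  · rename_i h; rw [h]
  · rename_i r h; rw [h]

/-- Soundness of the box check. -/
theorem box_sound (bs : List (ℕ × ℕ)) (KL : List (ℕ × ℕ × List (ℕ × ℕ))) (hpd : PD bs)
    (hb : bnd bs < Bs) (hk : keysOK KL = true)
    (hc : chk (test (DD bs) (KL.map (fun k => (k.1, k.2.1)))) bs 1 1 (RR (dat bs)) = true)
    (n : ℕ) (hn : n ∣ DD bs) : Good n := by
  have hprime := hpd.prime
  have hD0 : 0 < DD bs := by
    clear hn hc hk hb hpd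
    induction bs with
    | nil => simp [DD]
    | cons b bs ih =>
      simp only [DD]
      exact Nat.mul_pos (pow_pos (hprime b (by simp)).pos _)
        (ih (fun c hc => hprime c (by simp [hc])))
  have hn0 : 0 < n := Nat.pos_of_dvd_of_pos hn hD0
  obtain ⟨es, hv, hne⟩ := exists_valid bs hprime n hn
  have h2 : ∀ b ∈ bs, 2 ≤ b.1 := fun b hb => (hprime b hb).two_le
  rw [RR_eq] at hc
  have ht := chk_sound _ bs 1 1 (fun es => RN bs es)
    (fun es' hes' => (RN_le bs h2 es' hes').trans_lt hb) hc es hv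
  rw [one_mul, one_mul, ← hne, test_eq, ← tt_eq bs hpd es hv, ← hne] at ht
  have hr := RN_real bs hpd es hv
  rw [← hne] at hr
  set s := RN bs es with hs
  set t := n.divisors.card with htt
  set D := DD bs with hD
  set sn := s / D + 1 with hsn
  simp only [t1, Bool.and_eq_true, Bool.or_eq_true] at ht
  obtain ⟨⟨hA, hB⟩, hC⟩ := ht
  have hB' : 1000 * sn ≤ 1127000000000 * t := Nat.le_of_ble_eq_true hB
  have hC' := wl_sound KL n _ hC
  simp only [keysOK, Bool.and_eq_true, List.all_eq_true] at hk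
  have hW := WW_ge KL hk.2 hk.1 n hn0
  -- real bound
  have hsn' : (s : ℝ) < sn * D := by
    have : s < sn * D := by
      rw [hsn, mul_comm]
      exact Nat.lt_mul_div_succ s hD0
    exact_mod_cast this
  have hDr : (0 : ℝ) < D := by exact_mod_cast hD0
  have hS : S2 n * 1000000000 < 2 * (sn : ℝ) := by
    have h3 : S2 n * 1000000000 * D < 2 * (sn : ℝ) * D := by
      calc S2 n * 1000000000 * D = S2 n * (1000000000 * D) := by ring
        _ ≤ 2 * (s : ℝ) := hr
        _ < 2 * (sn * D) := by linarith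
        _ = 2 * (sn : ℝ) * D := by ring
    exact lt_of_mul_lt_mul_right h3 hDr.le
  have hBr : (1000 : ℝ) * sn ≤ 1127000000000 * t := by exact_mod_cast hB'
  have hCr : (sn : ℝ) ≤ ksum KL n + 390000000 * t := by
    have : sn ≤ ksum KL n + 390000000 * t := by omega
    exact_mod_cast this
  have ht0 : (0 : ℝ) ≤ t := Nat.cast_nonneg _
  refine ⟨?_, ?_, ?_⟩
  · norm_num at hBr ⊢
    linarith
  · rw [En_eq, ← htt]
    norm_num
    linarith
  · intro hE
    rcases hA with hA | hA
    · have hA' : sn ≤ 1000000000 * t := Nat.le_of_ble_eq_true hA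
      have hAr : (sn : ℝ) ≤ 1000000000 * t := by exact_mod_cast hA'
      linarith
    · exact absurd (by simpa using hA) hE

end Pool.MP_9e760c_nt.GapSum.Box
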