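import Mathlib
import Pool.Agent.Lib.MP_9e760c_nt.Defs
import Pool.Agent.Lib.MP_9e760c_nt.BoxD

set_option autoImplicit false
set_option maxRecDepth 100000

/-!
# MP_9e760c_nt, piece D (boxes), part F: the small boxes
-/

open Finset

namespace Pool.MP_9e760c_nt.GapSum

namespace Box

def bsFive : List (ℕ × ℕ) := [(7, 1), (5, 3), (3, 2), (2, 4)]

/-- Keys for the box with `5 ^ 3`. -/
def klFive : List (ℕ × ℕ × List (ℕ × ℕ)) := [
  (2, 966101694, [(1, 1)]),
  (3, 466393921, [(1, 2)]),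
  (4, 766413402, [(1, 3), (2, 2)]),
  (5, 216978375, [(1, 4)]),
  (6, 1650370151, [(1, 5), (2, 1), (2, 4), (3, 3)]),
  (7, 134229495, [(1, 6)]),
  (8, 461920068, [(1, 7), (2, 6), (4, 4)]),
  (9, 227376777, [(1, 8), (3, 6)]),
  (10, 639987984, [(1, 9), (2, 3), (2, 8), (5, 5)]),
  (12, 1868087800, [(1, 11), (2, 10), (3, 1), (3, 9), (4, 2), (4, 8), (6, 6)]),
  (14, 377163814, [(1, 13), (2, 5), (2, 12), (7, 7)]),
  (15, 629104392, [(1, 14), (3, 2), (3, 12), (5, 10)]),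
  (18, 642377305, [(1, 17), (2, 7), (2, 16), (3, 15), (6, 3), (6, 12), (9, 9)]),
  (20, 1289526016, [(1, 19), (2, 18), (4, 1), (4, 6), (4, 16), (5, 15), (10, 10)]),
  (21, 306586697, [(1, 20), (3, 4), (3, 18), (7, 14)]),
  (24, 984556623, [(3, 5), (4, 20), (6, 2), (6, 18), (8, 4), (8, 16), (12, 12)]),
  (28, 410080430, [(4, 3), (4, 10), (14, 14)]),
  (30, 1645658520, [(2, 13), (3, 7), (5, 1), (6, 4), (6, 9), (10, 5), (10, 20), (15, 15)]),
  (35, 466393921, [(5, 2)]),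
  (36, 669473896, [(4, 5), (4, 14), (9, 3), (12, 6), (18, 18)]),
  (40, 840716927, [(5, 3), (8, 2), (8, 12), (20, 20)]),
  (42, 1290747118, [(2, 19), (3, 11), (6, 1), (6, 8), (6, 15), (14, 7)]),
  (45, 351207870, [(5, 4), (9, 6)]),
  (48, 425388885, [(3, 13), (6, 10), (12, 4), (16, 8)]),
  (56, 1121985192, [(7, 1), (8, 6), (8, 20)]),
  (60, 1363763442, [(3, 17), (4, 11), (5, 7), (6, 14), (10, 2), (12, 3), (12, 8), (12, 18), (15,
    5), (20, 10)]),
  (63, 519043443, [(7, 2), (9, 12)]),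
  (70, 596548476, [(5, 9), (7, 3), (10, 4)]),
  (72, 1258571982, [(8, 1), (8, 10), (9, 15), (18, 6), (24, 12)]),
  (80, 411140923, [(5, 11), (10, 6), (16, 4)]),
  (84, 927842502, [(4, 17), (7, 5), (12, 2), (12, 9), (12, 16), (21, 7), (28, 14)]),
  (90, 1495309008, [(5, 13), (9, 1), (10, 8), (15, 3), (18, 12), (30, 15)]),
  (105, 323345090, [(5, 16), (7, 8), (15, 6), (15, 20), (21, 14)]),
  (112, 598594063, [(7, 9), (14, 2), (16, 12)]),
  (120, 730164091, [(5, 19), (8, 7), (10, 14), (15, 9), (20, 4), (24, 6), (24, 16), (30, 10),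
    (40, 20)]),
  (126, 744201510, [(7, 11), (9, 5), (14, 4), (18, 3)]),
  (140, 448105109, [(7, 13), (10, 18), (14, 6), (20, 8), (20, 15), (28, 7)]),
  (144, 651409644, [(9, 7), (16, 2), (16, 20), (36, 12)]),
  (168, 729816255, [(7, 17), (8, 13), (14, 10), (21, 3), (24, 4), (24, 18), (42, 14)]),
  (180, 809951721, [(9, 11), (18, 2), (20, 16), (30, 6), (36, 9), (45, 15)]),
  (210, 1469202784, [(10, 11), (14, 1), (14, 16), (21, 9), (30, 5), (30, 12), (35, 7)]),
  (240, 1201506820, [(15, 1), (16, 14), (30, 18), (40, 8), (48, 12), (60, 20)]),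
  (252, 356961403, [(9, 19), (18, 10), (21, 15), (28, 8), (36, 6)]),
  (280, 294234433, [(28, 12), (35, 5), (40, 16), (56, 14)]),
  (336, 416301381, [(16, 5), (28, 20), (42, 6), (48, 8)]),
  (360, 463523603, [(36, 4), (40, 5), (60, 12), (72, 18)]),
  (420, 1615713162, [(15, 13), (20, 1), (28, 2), (42, 18), (60, 10), (70, 14)]),
  (450, 314842335, [(18, 7), (45, 5), (75, 15)]),
  (504, 297551439, [(36, 20), (56, 7), (56, 16), (63, 9), (72, 12)]),
  (525, 216978375, [(21, 4)]),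
  (600, 987755697, [(24, 1), (100, 20)]),
  (630, 498846070, [(18, 17), (42, 3), (63, 7), (70, 20), (90, 15)]),
  (700, 300019481, [(25, 3)]),
  (720, 461898498, [(45, 3), (72, 8), (80, 10)]),
  (840, 825812243, [(21, 19), (24, 11), (40, 2), (56, 4), (105, 15), (120, 20)]),
  (1050, 290018735, [(25, 17), (42, 8), (70, 5)]),
  (1200, 633664522, [(48, 2), (75, 5)]),
  (1260, 1471280736, [(28, 17), (35, 1), (60, 3), (84, 6), (126, 14)]),
  (1680, 467369348, [(35, 13), (80, 4), (105, 7), (112, 8)]),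
  (1800, 321673484, [(72, 3), (180, 20)]),
  (2100, 348538052, [(75, 9), (84, 16), (100, 5), (140, 10)]),
  (2520, 713205991, [(45, 11), (70, 2), (120, 6), (168, 12)]),
  (5040, 299228749, [(63, 17), (140, 4), (240, 12)])]

theorem pdFive : PD bsFive := by
  simp only [bsFive, PD]
  norm_num

theorem ddFive : DD bsFive = 2 ^ 4 * 3 ^ 2 * 5 ^ 3 * 7 := by
  decide +kernel

theorem chkFive : (Nat.blt (bnd bsFive) Bs && keysOK klFive &&
    chk (test (DD bsFive) (klFive.map (fun k => (k.1, k.2.1)))) bsFive 1 1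
    (RR (dat bsFive))) = true := by
  decide +kernel

end Box

theorem box_five (n : ℕ) (hn : n ∣ 2 ^ 4 * 3 ^ 2 * 5 ^ 3 * 7) : Good n := by
  have h := Box.chkFive
  simp only [Bool.and_eq_true] at h
  rw [← Box.ddFive] at hn
  exact Box.box_sound Box.bsFive Box.klFive Box.pdFive (Nat.le_of_ble_eq_true h.1.1) h.1.2 h.2 n hn

namespace Box

/-- The box of `5040 p`. -/
def bsP (p : ℕ) : List (ℕ × ℕ) := [(p, 1), (7, 1), (5, 1), (3, 2), (2, 4)]

def okP (p : ℕ) (kl : List (ℕ × ℕ × List (ℕ × ℕ))) : Bool :=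
  Nat.blt (bnd (bsP p)) Bs && keysOK kl && Nat.beq (DD (bsP p)) (5040 * p) &&
    chk (test (DD (bsP p)) (kl.map (fun k => (k.1, k.2.1)))) (bsP p) 1 1 (RR (dat (bsP p)))

theorem okP_sound (p : ℕ) (hp : p.Prime) (h19 : 19 ≤ p) (kl : List (ℕ × ℕ × List (ℕ × ℕ)))
    (h : okP p kl = true) (n : ℕ) (hn : n ∣ 5040 * p) : Good n := by
  simp only [okP, Bool.and_eq_true] at h
  obtain ⟨⟨⟨h1, h2⟩, h3⟩, h4⟩ := h
  rw [← Nat.eq_of_beq_eq_true h3] at hn
  refine box_sound (bsP p) kl ?_ (Nat.le_of_ble_eq_true h1) h2 h4 n hn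
  simp only [bsP, PD]
  refine ⟨hp, ?_, ?_⟩
  · intro c hc
    simp only [List.mem_cons, List.not_mem_nil, or_false] at hc
    rcases hc with rfl | rfl | rfl | rfl <;> simp only <;> omega
  · norm_num

/-- Keys for the box of `5040 * 19`. -/
def kl19 : List (ℕ × ℕ × List (ℕ × ℕ)) := [
  (2, 966101694, [(1, 1)]),
  (3, 466393921, [(1, 2)]),
  (4, 766413402, [(1, 3), (2, 2)]),
  (5, 216978375, [(1, 4)]),
  (6, 1650370151, [(1, 5), (2, 1), (2, 4), (3, 3)]),
  (7, 134229495, [(1, 6)]),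
  (8, 461920068, [(1, 7), (2, 6), (4, 4)]),
  (9, 227376777, [(1, 8), (3, 6)]),
  (10, 639987984, [(1, 9), (2, 3), (2, 8), (5, 5)]),
  (12, 1868087800, [(1, 11), (2, 10), (3, 1), (3, 9), (4, 2), (4, 8), (6, 6)]),
  (14, 377163814, [(1, 13), (2, 5), (2, 12), (7, 7)]),
  (15, 629104392, [(1, 14), (3, 2), (3, 12), (5, 10)]),
  (18, 642377305, [(1, 17), (2, 7), (2, 16), (3, 15), (6, 3), (6, 12), (9, 9)]),
  (20, 1289526016, [(1, 19), (2, 18), (4, 1), (4, 6), (4, 16), (5, 15), (10, 10)]),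
  (21, 306586697, [(1, 20), (3, 4), (3, 18), (7, 14)]),
  (24, 984556623, [(3, 5), (4, 20), (6, 2), (6, 18), (8, 4), (8, 16), (12, 12)]),
  (28, 410080430, [(4, 3), (4, 10), (14, 14)]),
  (30, 1645658520, [(2, 13), (3, 7), (5, 1), (6, 4), (6, 9), (10, 5), (10, 20), (15, 15)]),
  (35, 466393921, [(5, 2)]),
  (36, 669473896, [(4, 5), (4, 14), (9, 3), (12, 6), (18, 18)]),
  (40, 840716927, [(5, 3), (8, 2), (8, 12), (20, 20)]),
  (42, 1290747118, [(2, 19), (3, 11), (6, 1), (6, 8), (6, 15), (14, 7)]),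
  (45, 351207870, [(5, 4), (9, 6)]),
  (48, 425388885, [(3, 13), (6, 10), (12, 4), (16, 8)]),
  (56, 1121985192, [(7, 1), (8, 6), (8, 20)]),
  (60, 1363763442, [(3, 17), (4, 11), (5, 7), (6, 14), (10, 2), (12, 3), (12, 8), (12, 18), (15,
    5), (20, 10)]),
  (63, 519043443, [(7, 2), (9, 12)]),
  (70, 596548476, [(5, 9), (7, 3), (10, 4)]),
  (72, 1258571982, [(8, 1), (8, 10), (9, 15), (18, 6), (24, 12)]),
  (80, 411140923, [(5, 11), (10, 6), (16, 4)]),
  (84, 927842502, [(4, 17), (7, 5), (12, 2), (12, 9), (12, 16), (21, 7), (28, 14)]),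
  (90, 1495309008, [(5, 13), (9, 1), (10, 8), (15, 3), (18, 12), (30, 15)]),
  (105, 323345090, [(5, 16), (7, 8), (15, 6), (15, 20), (21, 14)]),
  (112, 598594063, [(7, 9), (14, 2), (16, 12)]),
  (120, 730164091, [(5, 19), (8, 7), (10, 14), (15, 9), (20, 4), (24, 6), (24, 16), (30, 10),
    (40, 20)]),
  (126, 744201510, [(7, 11), (9, 5), (14, 4), (18, 3)]),
  (140, 448105109, [(7, 13), (10, 18), (14, 6), (20, 8), (20, 15), (28, 7)]),
  (144, 651409644, [(9, 7), (16, 2), (16, 20), (36, 12)]),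
  (168, 729816255, [(7, 17), (8, 13), (14, 10), (21, 3), (24, 4), (24, 18), (42, 14)]),
  (180, 809951721, [(9, 11), (18, 2), (20, 16), (30, 6), (36, 9), (45, 15)]),
  (210, 1469202784, [(10, 11), (14, 1), (14, 16), (21, 9), (30, 5), (30, 12), (35, 7)]),
  (240, 1201506820, [(15, 1), (16, 14), (30, 18), (40, 8), (48, 12), (60, 20)]),
  (252, 356961403, [(9, 19), (18, 10), (21, 15), (28, 8), (36, 6)]),
  (280, 294234433, [(28, 12), (35, 5), (40, 16), (56, 14)]),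
  (336, 416301381, [(16, 5), (28, 20), (42, 6), (48, 8)]),
  (342, 987755697, [(18, 1), (18, 20)]),
  (360, 463523603, [(36, 4), (40, 5), (60, 12), (72, 18)]),
  (380, 1016720154, [(19, 1), (20, 18), (76, 19)]),
  (399, 466393921, [(19, 2)]),
  (420, 1615713162, [(15, 13), (20, 1), (28, 2), (42, 18), (60, 10), (70, 14)]),
  (630, 498846070, [(18, 17), (42, 3), (63, 7), (70, 20), (90, 15)]),
  (684, 495994773, [(19, 17), (36, 2)]),
  (720, 461898498, [(45, 3), (72, 8), (80, 10)]),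
  (760, 466393921, [(38, 2)]),
  (840, 825812243, [(21, 19), (24, 11), (40, 2), (56, 4), (105, 15), (120, 20)]),
  (1260, 1471280736, [(28, 17), (35, 1), (60, 3), (84, 6), (126, 14)]),
  (1680, 467369348, [(35, 13), (80, 4), (105, 7), (112, 8)]),
  (2520, 713205991, [(45, 11), (70, 2), (120, 6), (168, 12)]),
  (3192, 999086790, [(56, 1), (152, 16)]),
  (5040, 299228749, [(63, 17), (140, 4), (240, 12)]),
  (6384, 466393921, [(112, 2)])]

theorem ok19 : okP 19 kl19 = true := by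
  decide +kernel

/-- Keys for the box of `5040 * 23`. -/
def kl23 : List (ℕ × ℕ × List (ℕ × ℕ)) := [
  (2, 966101694, [(1, 1)]),
  (3, 466393921, [(1, 2)]),
  (4, 766413402, [(1, 3), (2, 2)]),
  (5, 216978375, [(1, 4)]),
  (6, 1650370151, [(1, 5), (2, 1), (2, 4), (3, 3)]),
  (8, 461920068, [(1, 7), (2, 6), (4, 4)]),
  (10, 639987984, [(1, 9), (2, 3), (2, 8), (5, 5)]),
  (12, 1868087800, [(1, 11), (2, 10), (3, 1), (3, 9), (4, 2), (4, 8), (6, 6)]),
  (14, 377163814, [(1, 13), (2, 5), (2, 12), (7, 7)]),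
  (15, 629104392, [(1, 14), (3, 2), (3, 12), (5, 10)]),
  (18, 642377305, [(1, 17), (2, 7), (2, 16), (3, 15), (6, 3), (6, 12), (9, 9)]),
  (20, 1289526016, [(1, 19), (2, 18), (4, 1), (4, 6), (4, 16), (5, 15), (10, 10)]),
  (21, 306586697, [(1, 20), (3, 4), (3, 18), (7, 14)]),
  (24, 984556623, [(3, 5), (4, 20), (6, 2), (6, 18), (8, 4), (8, 16), (12, 12)]),
  (28, 410080430, [(4, 3), (4, 10), (14, 14)]),
  (30, 1645658520, [(2, 13), (3, 7), (5, 1), (6, 4), (6, 9), (10, 5), (10, 20), (15, 15)]),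
  (35, 466393921, [(5, 2)]),
  (36, 669473896, [(4, 5), (4, 14), (9, 3), (12, 6), (18, 18)]),
  (40, 840716927, [(5, 3), (8, 2), (8, 12), (20, 20)]),
  (42, 1290747118, [(2, 19), (3, 11), (6, 1), (6, 8), (6, 15), (14, 7)]),
  (45, 351207870, [(5, 4), (9, 6)]),
  (48, 425388885, [(3, 13), (6, 10), (12, 4), (16, 8)]),
  (56, 1121985192, [(7, 1), (8, 6), (8, 20)]),
  (60, 1363763442, [(3, 17), (4, 11), (5, 7), (6, 14), (10, 2), (12, 3), (12, 8), (12, 18), (15,
    5), (20, 10)]),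
  (63, 519043443, [(7, 2), (9, 12)]),
  (70, 596548476, [(5, 9), (7, 3), (10, 4)]),
  (72, 1258571982, [(8, 1), (8, 10), (9, 15), (18, 6), (24, 12)]),
  (80, 411140923, [(5, 11), (10, 6), (16, 4)]),
  (84, 927842502, [(4, 17), (7, 5), (12, 2), (12, 9), (12, 16), (21, 7), (28, 14)]),
  (90, 1495309008, [(5, 13), (9, 1), (10, 8), (15, 3), (18, 12), (30, 15)]),
  (105, 323345090, [(5, 16), (7, 8), (15, 6), (15, 20), (21, 14)]),
  (112, 598594063, [(7, 9), (14, 2), (16, 12)]),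
  (120, 730164091, [(5, 19), (8, 7), (10, 14), (15, 9), (20, 4), (24, 6), (24, 16), (30, 10),
    (40, 20)]),
  (126, 744201510, [(7, 11), (9, 5), (14, 4), (18, 3)]),
  (140, 448105109, [(7, 13), (10, 18), (14, 6), (20, 8), (20, 15), (28, 7)]),
  (144, 651409644, [(9, 7), (16, 2), (16, 20), (36, 12)]),
  (168, 729816255, [(7, 17), (8, 13), (14, 10), (21, 3), (24, 4), (24, 18), (42, 14)]),
  (180, 809951721, [(9, 11), (18, 2), (20, 16), (30, 6), (36, 9), (45, 15)]),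
  (210, 1469202784, [(10, 11), (14, 1), (14, 16), (21, 9), (30, 5), (30, 12), (35, 7)]),
  (240, 1201506820, [(15, 1), (16, 14), (30, 18), (40, 8), (48, 12), (60, 20)]),
  (252, 356961403, [(9, 19), (18, 10), (21, 15), (28, 8), (36, 6)]),
  (280, 294234433, [(28, 12), (35, 5), (40, 16), (56, 14)]),
  (336, 416301381, [(16, 5), (28, 20), (42, 6), (48, 8)]),
  (360, 463523603, [(36, 4), (40, 5), (60, 12), (72, 18)]),
  (420, 1615713162, [(15, 13), (20, 1), (28, 2), (42, 18), (60, 10), (70, 14)]),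
  (504, 297551439, [(36, 20), (56, 7), (56, 16), (63, 9), (72, 12)]),
  (552, 966101694, [(23, 1)]),
  (630, 498846070, [(18, 17), (42, 3), (63, 7), (70, 20), (90, 15)]),
  (720, 461898498, [(45, 3), (72, 8), (80, 10)]),
  (840, 825812243, [(21, 19), (24, 11), (40, 2), (56, 4), (105, 15), (120, 20)]),
  (1260, 1471280736, [(28, 17), (35, 1), (60, 3), (84, 6), (126, 14)]),
  (1680, 467369348, [(35, 13), (80, 4), (105, 7), (112, 8)]),
  (2070, 966101694, [(45, 1)]),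
  (2520, 713205991, [(45, 11), (70, 2), (120, 6), (168, 12)]),
  (5040, 299228749, [(63, 17), (140, 4), (240, 12)])]

theorem ok23 : okP 23 kl23 = true := by
  decide +kernel

/-- Keys for the box of `5040 * 29`. -/
def kl29 : List (ℕ × ℕ × List (ℕ × ℕ)) := [
  (2, 966101694, [(1, 1)]),
  (3, 466393921, [(1, 2)]),
  (4, 766413402, [(1, 3), (2, 2)]),
  (5, 216978375, [(1, 4)]),
  (6, 1650370151, [(1, 5), (2, 1), (2, 4), (3, 3)]),
  (7, 134229495, [(1, 6)]),
  (8, 461920068, [(1, 7), (2, 6), (4, 4)]),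
  (9, 227376777, [(1, 8), (3, 6)]),
  (10, 639987984, [(1, 9), (2, 3), (2, 8), (5, 5)]),
  (12, 1868087800, [(1, 11), (2, 10), (3, 1), (3, 9), (4, 2), (4, 8), (6, 6)]),
  (14, 377163814, [(1, 13), (2, 5), (2, 12), (7, 7)]),
  (15, 629104392, [(1, 14), (3, 2), (3, 12), (5, 10)]),
  (16, 223985554, [(1, 15), (2, 14), (4, 12), (8, 8)]),
  (18, 642377305, [(1, 17), (2, 7), (2, 16), (3, 15), (6, 3), (6, 12), (9, 9)]),
  (20, 1289526016, [(1, 19), (2, 18), (4, 1), (4, 6), (4, 16), (5, 15), (10, 10)]),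
  (21, 306586697, [(1, 20), (3, 4), (3, 18), (7, 14)]),
  (24, 984556623, [(3, 5), (4, 20), (6, 2), (6, 18), (8, 4), (8, 16), (12, 12)]),
  (28, 410080430, [(4, 3), (4, 10), (14, 14)]),
  (30, 1645658520, [(2, 13), (3, 7), (5, 1), (6, 4), (6, 9), (10, 5), (10, 20), (15, 15)]),
  (35, 466393921, [(5, 2)]),
  (36, 669473896, [(4, 5), (4, 14), (9, 3), (12, 6), (18, 18)]),
  (40, 840716927, [(5, 3), (8, 2), (8, 12), (20, 20)]),
  (42, 1290747118, [(2, 19), (3, 11), (6, 1), (6, 8), (6, 15), (14, 7)]),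
  (45, 351207870, [(5, 4), (9, 6)]),
  (48, 425388885, [(3, 13), (6, 10), (12, 4), (16, 8)]),
  (56, 1121985192, [(7, 1), (8, 6), (8, 20)]),
  (60, 1363763442, [(3, 17), (4, 11), (5, 7), (6, 14), (10, 2), (12, 3), (12, 8), (12, 18), (15,
    5), (20, 10)]),
  (63, 519043443, [(7, 2), (9, 12)]),
  (70, 596548476, [(5, 9), (7, 3), (10, 4)]),
  (72, 1258571982, [(8, 1), (8, 10), (9, 15), (18, 6), (24, 12)]),
  (80, 411140923, [(5, 11), (10, 6), (16, 4)]),
  (84, 927842502, [(4, 17), (7, 5), (12, 2), (12, 9), (12, 16), (21, 7), (28, 14)]),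
  (90, 1495309008, [(5, 13), (9, 1), (10, 8), (15, 3), (18, 12), (30, 15)]),
  (112, 598594063, [(7, 9), (14, 2), (16, 12)]),
  (120, 730164091, [(5, 19), (8, 7), (10, 14), (15, 9), (20, 4), (24, 6), (24, 16), (30, 10),
    (40, 20)]),
  (126, 744201510, [(7, 11), (9, 5), (14, 4), (18, 3)]),
  (140, 448105109, [(7, 13), (10, 18), (14, 6), (20, 8), (20, 15), (28, 7)]),
  (144, 651409644, [(9, 7), (16, 2), (16, 20), (36, 12)]),
  (168, 729816255, [(7, 17), (8, 13), (14, 10), (21, 3), (24, 4), (24, 18), (42, 14)]),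
  (180, 809951721, [(9, 11), (18, 2), (20, 16), (30, 6), (36, 9), (45, 15)]),
  (210, 1469202784, [(10, 11), (14, 1), (14, 16), (21, 9), (30, 5), (30, 12), (35, 7)]),
  (240, 1201506820, [(15, 1), (16, 14), (30, 18), (40, 8), (48, 12), (60, 20)]),
  (252, 356961403, [(9, 19), (18, 10), (21, 15), (28, 8), (36, 6)]),
  (280, 294234433, [(28, 12), (35, 5), (40, 16), (56, 14)]),
  (336, 416301381, [(16, 5), (28, 20), (42, 6), (48, 8)]),
  (360, 463523603, [(36, 4), (40, 5), (60, 12), (72, 18)]),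
  (420, 1615713162, [(15, 13), (20, 1), (28, 2), (42, 18), (60, 10), (70, 14)]),
  (630, 498846070, [(18, 17), (42, 3), (63, 7), (70, 20), (90, 15)]),
  (720, 461898498, [(45, 3), (72, 8), (80, 10)]),
  (840, 825812243, [(21, 19), (24, 11), (40, 2), (56, 4), (105, 15), (120, 20)]),
  (1260, 1471280736, [(28, 17), (35, 1), (60, 3), (84, 6), (126, 14)]),
  (1680, 467369348, [(35, 13), (80, 4), (105, 7), (112, 8)]),
  (2520, 713205991, [(45, 11), (70, 2), (120, 6), (168, 12)]),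
  (5040, 299228749, [(63, 17), (140, 4), (240, 12)])]

theorem ok29 : okP 29 kl29 = true := by
  decide +kernel

/-- Keys for the box of `5040 * 31`. -/
def kl31 : List (ℕ × ℕ × List (ℕ × ℕ)) := [
  (2, 966101694, [(1, 1)]),
  (3, 466393921, [(1, 2)]),
  (4, 766413402, [(1, 3), (2, 2)]),
  (5, 216978375, [(1, 4)]),
  (6, 1650370151, [(1, 5), (2, 1), (2, 4), (3, 3)]),
  (7, 134229495, [(1, 6)]),
  (8, 461920068, [(1, 7), (2, 6), (4, 4)]),
  (9, 227376777, [(1, 8), (3, 6)]),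
  (10, 639987984, [(1, 9), (2, 3), (2, 8), (5, 5)]),
  (12, 1868087800, [(1, 11), (2, 10), (3, 1), (3, 9), (4, 2), (4, 8), (6, 6)]),
  (14, 377163814, [(1, 13), (2, 5), (2, 12), (7, 7)]),
  (15, 629104392, [(1, 14), (3, 2), (3, 12), (5, 10)]),
  (16, 223985554, [(1, 15), (2, 14), (4, 12), (8, 8)]),
  (18, 642377305, [(1, 17), (2, 7), (2, 16), (3, 15), (6, 3), (6, 12), (9, 9)]),
  (20, 1289526016, [(1, 19), (2, 18), (4, 1), (4, 6), (4, 16), (5, 15), (10, 10)]),
  (21, 306586697, [(1, 20), (3, 4), (3, 18), (7, 14)]),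
  (24, 984556623, [(3, 5), (4, 20), (6, 2), (6, 18), (8, 4), (8, 16), (12, 12)]),
  (28, 410080430, [(4, 3), (4, 10), (14, 14)]),
  (30, 1645658520, [(2, 13), (3, 7), (5, 1), (6, 4), (6, 9), (10, 5), (10, 20), (15, 15)]),
  (35, 466393921, [(5, 2)]),
  (36, 669473896, [(4, 5), (4, 14), (9, 3), (12, 6), (18, 18)]),
  (40, 840716927, [(5, 3), (8, 2), (8, 12), (20, 20)]),
  (42, 1290747118, [(2, 19), (3, 11), (6, 1), (6, 8), (6, 15), (14, 7)]),
  (45, 351207870, [(5, 4), (9, 6)]),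
  (48, 425388885, [(3, 13), (6, 10), (12, 4), (16, 8)]),
  (56, 1121985192, [(7, 1), (8, 6), (8, 20)]),
  (60, 1363763442, [(3, 17), (4, 11), (5, 7), (6, 14), (10, 2), (12, 3), (12, 8), (12, 18), (15,
    5), (20, 10)]),
  (63, 519043443, [(7, 2), (9, 12)]),
  (70, 596548476, [(5, 9), (7, 3), (10, 4)]),
  (72, 1258571982, [(8, 1), (8, 10), (9, 15), (18, 6), (24, 12)]),
  (80, 411140923, [(5, 11), (10, 6), (16, 4)]),
  (84, 927842502, [(4, 17), (7, 5), (12, 2), (12, 9), (12, 16), (21, 7), (28, 14)]),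
  (90, 1495309008, [(5, 13), (9, 1), (10, 8), (15, 3), (18, 12), (30, 15)]),
  (112, 598594063, [(7, 9), (14, 2), (16, 12)]),
  (120, 730164091, [(5, 19), (8, 7), (10, 14), (15, 9), (20, 4), (24, 6), (24, 16), (30, 10),
    (40, 20)]),
  (126, 744201510, [(7, 11), (9, 5), (14, 4), (18, 3)]),
  (140, 448105109, [(7, 13), (10, 18), (14, 6), (20, 8), (20, 15), (28, 7)]),
  (144, 651409644, [(9, 7), (16, 2), (16, 20), (36, 12)]),
  (168, 729816255, [(7, 17), (8, 13), (14, 10), (21, 3), (24, 4), (24, 18), (42, 14)]),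
  (180, 809951721, [(9, 11), (18, 2), (20, 16), (30, 6), (36, 9), (45, 15)]),
  (210, 1469202784, [(10, 11), (14, 1), (14, 16), (21, 9), (30, 5), (30, 12), (35, 7)]),
  (240, 1201506820, [(15, 1), (16, 14), (30, 18), (40, 8), (48, 12), (60, 20)]),
  (252, 356961403, [(9, 19), (18, 10), (21, 15), (28, 8), (36, 6)]),
  (280, 294234433, [(28, 12), (35, 5), (40, 16), (56, 14)]),
  (336, 416301381, [(16, 5), (28, 20), (42, 6), (48, 8)]),
  (360, 463523603, [(36, 4), (40, 5), (60, 12), (72, 18)]),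
  (420, 1615713162, [(15, 13), (20, 1), (28, 2), (42, 18), (60, 10), (70, 14)]),
  (630, 498846070, [(18, 17), (42, 3), (63, 7), (70, 20), (90, 15)]),
  (720, 461898498, [(45, 3), (72, 8), (80, 10)]),
  (840, 825812243, [(21, 19), (24, 11), (40, 2), (56, 4), (105, 15), (120, 20)]),
  (1260, 1471280736, [(28, 17), (35, 1), (60, 3), (84, 6), (126, 14)]),
  (1680, 467369348, [(35, 13), (80, 4), (105, 7), (112, 8)]),
  (2520, 713205991, [(45, 11), (70, 2), (120, 6), (168, 12)]),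
  (5040, 299228749, [(63, 17), (140, 4), (240, 12)])]

theorem ok31 : okP 31 kl31 = true := by
  decide +kernel

/-- Keys for the box of `5040 * 37`. -/
def kl37 : List (ℕ × ℕ × List (ℕ × ℕ)) := [
  (2, 966101694, [(1, 1)]),
  (3, 466393921, [(1, 2)]),
  (4, 766413402, [(1, 3), (2, 2)]),
  (5, 216978375, [(1, 4)]),
  (6, 1650370151, [(1, 5), (2, 1), (2, 4), (3, 3)]),
  (7, 134229495, [(1, 6)]),
  (8, 461920068, [(1, 7), (2, 6), (4, 4)]),
  (9, 227376777, [(1, 8), (3, 6)]),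
  (10, 639987984, [(1, 9), (2, 3), (2, 8), (5, 5)]),
  (12, 1868087800, [(1, 11), (2, 10), (3, 1), (3, 9), (4, 2), (4, 8), (6, 6)]),
  (14, 377163814, [(1, 13), (2, 5), (2, 12), (7, 7)]),
  (15, 629104392, [(1, 14), (3, 2), (3, 12), (5, 10)]),
  (16, 223985554, [(1, 15), (2, 14), (4, 12), (8, 8)]),
  (18, 642377305, [(1, 17), (2, 7), (2, 16), (3, 15), (6, 3), (6, 12), (9, 9)]),
  (20, 1289526016, [(1, 19), (2, 18), (4, 1), (4, 6), (4, 16), (5, 15), (10, 10)]),
  (21, 306586697, [(1, 20), (3, 4), (3, 18), (7, 14)]),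
  (24, 984556623, [(3, 5), (4, 20), (6, 2), (6, 18), (8, 4), (8, 16), (12, 12)]),
  (28, 410080430, [(4, 3), (4, 10), (14, 14)]),
  (30, 1645658520, [(2, 13), (3, 7), (5, 1), (6, 4), (6, 9), (10, 5), (10, 20), (15, 15)]),
  (35, 466393921, [(5, 2)]),
  (36, 669473896, [(4, 5), (4, 14), (9, 3), (12, 6), (18, 18)]),
  (40, 840716927, [(5, 3), (8, 2), (8, 12), (20, 20)]),
  (42, 1290747118, [(2, 19), (3, 11), (6, 1), (6, 8), (6, 15), (14, 7)]),
  (45, 351207870, [(5, 4), (9, 6)]),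
  (48, 425388885, [(3, 13), (6, 10), (12, 4), (16, 8)]),
  (56, 1121985192, [(7, 1), (8, 6), (8, 20)]),
  (60, 1363763442, [(3, 17), (4, 11), (5, 7), (6, 14), (10, 2), (12, 3), (12, 8), (12, 18), (15,
    5), (20, 10)]),
  (63, 519043443, [(7, 2), (9, 12)]),
  (70, 596548476, [(5, 9), (7, 3), (10, 4)]),
  (72, 1258571982, [(8, 1), (8, 10), (9, 15), (18, 6), (24, 12)]),
  (80, 411140923, [(5, 11), (10, 6), (16, 4)]),
  (84, 927842502, [(4, 17), (7, 5), (12, 2), (12, 9), (12, 16), (21, 7), (28, 14)]),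
  (90, 1495309008, [(5, 13), (9, 1), (10, 8), (15, 3), (18, 12), (30, 15)]),
  (112, 598594063, [(7, 9), (14, 2), (16, 12)]),
  (120, 730164091, [(5, 19), (8, 7), (10, 14), (15, 9), (20, 4), (24, 6), (24, 16), (30, 10),
    (40, 20)]),
  (126, 744201510, [(7, 11), (9, 5), (14, 4), (18, 3)]),
  (140, 448105109, [(7, 13), (10, 18), (14, 6), (20, 8), (20, 15), (28, 7)]),
  (144, 651409644, [(9, 7), (16, 2), (16, 20), (36, 12)]),
  (168, 729816255, [(7, 17), (8, 13), (14, 10), (21, 3), (24, 4), (24, 18), (42, 14)]),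
  (180, 809951721, [(9, 11), (18, 2), (20, 16), (30, 6), (36, 9), (45, 15)]),
  (210, 1469202784, [(10, 11), (14, 1), (14, 16), (21, 9), (30, 5), (30, 12), (35, 7)]),
  (240, 1201506820, [(15, 1), (16, 14), (30, 18), (40, 8), (48, 12), (60, 20)]),
  (252, 356961403, [(9, 19), (18, 10), (21, 15), (28, 8), (36, 6)]),
  (280, 294234433, [(28, 12), (35, 5), (40, 16), (56, 14)]),
  (336, 416301381, [(16, 5), (28, 20), (42, 6), (48, 8)]),
  (360, 463523603, [(36, 4), (40, 5), (60, 12), (72, 18)]),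
  (420, 1615713162, [(15, 13), (20, 1), (28, 2), (42, 18), (60, 10), (70, 14)]),
  (630, 498846070, [(18, 17), (42, 3), (63, 7), (70, 20), (90, 15)]),
  (720, 461898498, [(45, 3), (72, 8), (80, 10)]),
  (840, 825812243, [(21, 19), (24, 11), (40, 2), (56, 4), (105, 15), (120, 20)]),
  (1260, 1471280736, [(28, 17), (35, 1), (60, 3), (84, 6), (126, 14)]),
  (1680, 467369348, [(35, 13), (80, 4), (105, 7), (112, 8)]),
  (2520, 713205991, [(45, 11), (70, 2), (120, 6), (168, 12)]),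
  (5040, 299228749, [(63, 17), (140, 4), (240, 12)])]

theorem ok37 : okP 37 kl37 = true := by
  decide +kernel

/-- Keys for the box of `5040 * 41`. -/
def kl41 : List (ℕ × ℕ × List (ℕ × ℕ)) := [
  (2, 966101694, [(1, 1)]),
  (3, 466393921, [(1, 2)]),
  (4, 766413402, [(1, 3), (2, 2)]),
  (5, 216978375, [(1, 4)]),
  (6, 1650370151, [(1, 5), (2, 1), (2, 4), (3, 3)]),
  (7, 134229495, [(1, 6)]),
  (8, 461920068, [(1, 7), (2, 6), (4, 4)]),
  (9, 227376777, [(1, 8), (3, 6)]),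
  (10, 639987984, [(1, 9), (2, 3), (2, 8), (5, 5)]),
  (12, 1868087800, [(1, 11), (2, 10), (3, 1), (3, 9), (4, 2), (4, 8), (6, 6)]),
  (14, 377163814, [(1, 13), (2, 5), (2, 12), (7, 7)]),
  (15, 629104392, [(1, 14), (3, 2), (3, 12), (5, 10)]),
  (16, 223985554, [(1, 15), (2, 14), (4, 12), (8, 8)]),
  (18, 642377305, [(1, 17), (2, 7), (2, 16), (3, 15), (6, 3), (6, 12), (9, 9)]),
  (20, 1289526016, [(1, 19), (2, 18), (4, 1), (4, 6), (4, 16), (5, 15), (10, 10)]),
  (21, 306586697, [(1, 20), (3, 4), (3, 18), (7, 14)]),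
  (24, 984556623, [(3, 5), (4, 20), (6, 2), (6, 18), (8, 4), (8, 16), (12, 12)]),
  (28, 410080430, [(4, 3), (4, 10), (14, 14)]),
  (30, 1645658520, [(2, 13), (3, 7), (5, 1), (6, 4), (6, 9), (10, 5), (10, 20), (15, 15)]),
  (35, 466393921, [(5, 2)]),
  (36, 669473896, [(4, 5), (4, 14), (9, 3), (12, 6), (18, 18)]),
  (40, 840716927, [(5, 3), (8, 2), (8, 12), (20, 20)]),
  (42, 1290747118, [(2, 19), (3, 11), (6, 1), (6, 8), (6, 15), (14, 7)]),
  (45, 351207870, [(5, 4), (9, 6)]),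
  (48, 425388885, [(3, 13), (6, 10), (12, 4), (16, 8)]),
  (56, 1121985192, [(7, 1), (8, 6), (8, 20)]),
  (60, 1363763442, [(3, 17), (4, 11), (5, 7), (6, 14), (10, 2), (12, 3), (12, 8), (12, 18), (15,
    5), (20, 10)]),
  (63, 519043443, [(7, 2), (9, 12)]),
  (70, 596548476, [(5, 9), (7, 3), (10, 4)]),
  (72, 1258571982, [(8, 1), (8, 10), (9, 15), (18, 6), (24, 12)]),
  (80, 411140923, [(5, 11), (10, 6), (16, 4)]),
  (84, 927842502, [(4, 17), (7, 5), (12, 2), (12, 9), (12, 16), (21, 7), (28, 14)]),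
  (90, 1495309008, [(5, 13), (9, 1), (10, 8), (15, 3), (18, 12), (30, 15)]),
  (112, 598594063, [(7, 9), (14, 2), (16, 12)]),
  (120, 730164091, [(5, 19), (8, 7), (10, 14), (15, 9), (20, 4), (24, 6), (24, 16), (30, 10),
    (40, 20)]),
  (126, 744201510, [(7, 11), (9, 5), (14, 4), (18, 3)]),
  (140, 448105109, [(7, 13), (10, 18), (14, 6), (20, 8), (20, 15), (28, 7)]),
  (144, 651409644, [(9, 7), (16, 2), (16, 20), (36, 12)]),
  (168, 729816255, [(7, 17), (8, 13), (14, 10), (21, 3), (24, 4), (24, 18), (42, 14)]),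
  (180, 809951721, [(9, 11), (18, 2), (20, 16), (30, 6), (36, 9), (45, 15)]),
  (210, 1469202784, [(10, 11), (14, 1), (14, 16), (21, 9), (30, 5), (30, 12), (35, 7)]),
  (240, 1201506820, [(15, 1), (16, 14), (30, 18), (40, 8), (48, 12), (60, 20)]),
  (252, 356961403, [(9, 19), (18, 10), (21, 15), (28, 8), (36, 6)]),
  (280, 294234433, [(28, 12), (35, 5), (40, 16), (56, 14)]),
  (336, 416301381, [(16, 5), (28, 20), (42, 6), (48, 8)]),
  (360, 463523603, [(36, 4), (40, 5), (60, 12), (72, 18)]),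
  (420, 1615713162, [(15, 13), (20, 1), (28, 2), (42, 18), (60, 10), (70, 14)]),
  (630, 498846070, [(18, 17), (42, 3), (63, 7), (70, 20), (90, 15)]),
  (720, 461898498, [(45, 3), (72, 8), (80, 10)]),
  (840, 825812243, [(21, 19), (24, 11), (40, 2), (56, 4), (105, 15), (120, 20)]),
  (1260, 1471280736, [(28, 17), (35, 1), (60, 3), (84, 6), (126, 14)]),
  (1680, 467369348, [(35, 13), (80, 4), (105, 7), (112, 8)]),
  (2520, 713205991, [(45, 11), (70, 2), (120, 6), (168, 12)]),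
  (5040, 299228749, [(63, 17), (140, 4), (240, 12)])]

theorem ok41 : okP 41 kl41 = true := by
  decide +kernel

/-- Keys for the box of `5040 * 43`. -/
def kl43 : List (ℕ × ℕ × List (ℕ × ℕ)) := [
  (2, 966101694, [(1, 1)]),
  (3, 466393921, [(1, 2)]),
  (4, 766413402, [(1, 3), (2, 2)]),
  (5, 216978375, [(1, 4)]),
  (6, 1650370151, [(1, 5), (2, 1), (2, 4), (3, 3)]),
  (7, 134229495, [(1, 6)]),
  (8, 461920068, [(1, 7), (2, 6), (4, 4)]),
  (9, 227376777, [(1, 8), (3, 6)]),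
  (10, 639987984, [(1, 9), (2, 3), (2, 8), (5, 5)]),
  (12, 1868087800, [(1, 11), (2, 10), (3, 1), (3, 9), (4, 2), (4, 8), (6, 6)]),
  (14, 377163814, [(1, 13), (2, 5), (2, 12), (7, 7)]),
  (15, 629104392, [(1, 14), (3, 2), (3, 12), (5, 10)]),
  (16, 223985554, [(1, 15), (2, 14), (4, 12), (8, 8)]),
  (18, 642377305, [(1, 17), (2, 7), (2, 16), (3, 15), (6, 3), (6, 12), (9, 9)]),
  (20, 1289526016, [(1, 19), (2, 18), (4, 1), (4, 6), (4, 16), (5, 15), (10, 10)]),
  (21, 306586697, [(1, 20), (3, 4), (3, 18), (7, 14)]),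
  (24, 984556623, [(3, 5), (4, 20), (6, 2), (6, 18), (8, 4), (8, 16), (12, 12)]),
  (28, 410080430, [(4, 3), (4, 10), (14, 14)]),
  (30, 1645658520, [(2, 13), (3, 7), (5, 1), (6, 4), (6, 9), (10, 5), (10, 20), (15, 15)]),
  (35, 466393921, [(5, 2)]),
  (36, 669473896, [(4, 5), (4, 14), (9, 3), (12, 6), (18, 18)]),
  (40, 840716927, [(5, 3), (8, 2), (8, 12), (20, 20)]),
  (42, 1290747118, [(2, 19), (3, 11), (6, 1), (6, 8), (6, 15), (14, 7)]),
  (45, 351207870, [(5, 4), (9, 6)]),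
  (48, 425388885, [(3, 13), (6, 10), (12, 4), (16, 8)]),
  (56, 1121985192, [(7, 1), (8, 6), (8, 20)]),
  (60, 1363763442, [(3, 17), (4, 11), (5, 7), (6, 14), (10, 2), (12, 3), (12, 8), (12, 18), (15,
    5), (20, 10)]),
  (63, 519043443, [(7, 2), (9, 12)]),
  (70, 596548476, [(5, 9), (7, 3), (10, 4)]),
  (72, 1258571982, [(8, 1), (8, 10), (9, 15), (18, 6), (24, 12)]),
  (80, 411140923, [(5, 11), (10, 6), (16, 4)]),
  (84, 927842502, [(4, 17), (7, 5), (12, 2), (12, 9), (12, 16), (21, 7), (28, 14)]),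
  (90, 1495309008, [(5, 13), (9, 1), (10, 8), (15, 3), (18, 12), (30, 15)]),
  (112, 598594063, [(7, 9), (14, 2), (16, 12)]),
  (120, 730164091, [(5, 19), (8, 7), (10, 14), (15, 9), (20, 4), (24, 6), (24, 16), (30, 10),
    (40, 20)]),
  (126, 744201510, [(7, 11), (9, 5), (14, 4), (18, 3)]),
  (140, 448105109, [(7, 13), (10, 18), (14, 6), (20, 8), (20, 15), (28, 7)]),
  (144, 651409644, [(9, 7), (16, 2), (16, 20), (36, 12)]),
  (168, 729816255, [(7, 17), (8, 13), (14, 10), (21, 3), (24, 4), (24, 18), (42, 14)]),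
  (180, 809951721, [(9, 11), (18, 2), (20, 16), (30, 6), (36, 9), (45, 15)]),
  (210, 1469202784, [(10, 11), (14, 1), (14, 16), (21, 9), (30, 5), (30, 12), (35, 7)]),
  (240, 1201506820, [(15, 1), (16, 14), (30, 18), (40, 8), (48, 12), (60, 20)]),
  (252, 356961403, [(9, 19), (18, 10), (21, 15), (28, 8), (36, 6)]),
  (280, 294234433, [(28, 12), (35, 5), (40, 16), (56, 14)]),
  (336, 416301381, [(16, 5), (28, 20), (42, 6), (48, 8)]),
  (360, 463523603, [(36, 4), (40, 5), (60, 12), (72, 18)]),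
  (420, 1615713162, [(15, 13), (20, 1), (28, 2), (42, 18), (60, 10), (70, 14)]),
  (630, 498846070, [(18, 17), (42, 3), (63, 7), (70, 20), (90, 15)]),
  (720, 461898498, [(45, 3), (72, 8), (80, 10)]),
  (840, 825812243, [(21, 19), (24, 11), (40, 2), (56, 4), (105, 15), (120, 20)]),
  (1260, 1471280736, [(28, 17), (35, 1), (60, 3), (84, 6), (126, 14)]),
  (1680, 467369348, [(35, 13), (80, 4), (105, 7), (112, 8)]),
  (2520, 713205991, [(45, 11), (70, 2), (120, 6), (168, 12)]),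
  (5040, 299228749, [(63, 17), (140, 4), (240, 12)])]

theorem ok43 : okP 43 kl43 = true := by
  decide +kernel

/-- Keys for the box of `5040 * 47`. -/
def kl47 : List (ℕ × ℕ × List (ℕ × ℕ)) := [
  (2, 966101694, [(1, 1)]),
  (3, 466393921, [(1, 2)]),
  (4, 766413402, [(1, 3), (2, 2)]),
  (5, 216978375, [(1, 4)]),
  (6, 1650370151, [(1, 5), (2, 1), (2, 4), (3, 3)]),
  (7, 134229495, [(1, 6)]),
  (8, 461920068, [(1, 7), (2, 6), (4, 4)]),
  (9, 227376777, [(1, 8), (3, 6)]),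
  (10, 639987984, [(1, 9), (2, 3), (2, 8), (5, 5)]),
  (12, 1868087800, [(1, 11), (2, 10), (3, 1), (3, 9), (4, 2), (4, 8), (6, 6)]),
  (14, 377163814, [(1, 13), (2, 5), (2, 12), (7, 7)]),
  (15, 629104392, [(1, 14), (3, 2), (3, 12), (5, 10)]),
  (16, 223985554, [(1, 15), (2, 14), (4, 12), (8, 8)]),
  (18, 642377305, [(1, 17), (2, 7), (2, 16), (3, 15), (6, 3), (6, 12), (9, 9)]),
  (20, 1289526016, [(1, 19), (2, 18), (4, 1), (4, 6), (4, 16), (5, 15), (10, 10)]),
  (21, 306586697, [(1, 20), (3, 4), (3, 18), (7, 14)]),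
  (24, 984556623, [(3, 5), (4, 20), (6, 2), (6, 18), (8, 4), (8, 16), (12, 12)]),
  (28, 410080430, [(4, 3), (4, 10), (14, 14)]),
  (30, 1645658520, [(2, 13), (3, 7), (5, 1), (6, 4), (6, 9), (10, 5), (10, 20), (15, 15)]),
  (35, 466393921, [(5, 2)]),
  (36, 669473896, [(4, 5), (4, 14), (9, 3), (12, 6), (18, 18)]),
  (40, 840716927, [(5, 3), (8, 2), (8, 12), (20, 20)]),
  (42, 1290747118, [(2, 19), (3, 11), (6, 1), (6, 8), (6, 15), (14, 7)]),
  (45, 351207870, [(5, 4), (9, 6)]),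
  (48, 425388885, [(3, 13), (6, 10), (12, 4), (16, 8)]),
  (56, 1121985192, [(7, 1), (8, 6), (8, 20)]),
  (60, 1363763442, [(3, 17), (4, 11), (5, 7), (6, 14), (10, 2), (12, 3), (12, 8), (12, 18), (15,
    5), (20, 10)]),
  (63, 519043443, [(7, 2), (9, 12)]),
  (70, 596548476, [(5, 9), (7, 3), (10, 4)]),
  (72, 1258571982, [(8, 1), (8, 10), (9, 15), (18, 6), (24, 12)]),
  (80, 411140923, [(5, 11), (10, 6), (16, 4)]),
  (84, 927842502, [(4, 17), (7, 5), (12, 2), (12, 9), (12, 16), (21, 7), (28, 14)]),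
  (90, 1495309008, [(5, 13), (9, 1), (10, 8), (15, 3), (18, 12), (30, 15)]),
  (112, 598594063, [(7, 9), (14, 2), (16, 12)]),
  (120, 730164091, [(5, 19), (8, 7), (10, 14), (15, 9), (20, 4), (24, 6), (24, 16), (30, 10),
    (40, 20)]),
  (126, 744201510, [(7, 11), (9, 5), (14, 4), (18, 3)]),
  (140, 448105109, [(7, 13), (10, 18), (14, 6), (20, 8), (20, 15), (28, 7)]),
  (144, 651409644, [(9, 7), (16, 2), (16, 20), (36, 12)]),
  (168, 729816255, [(7, 17), (8, 13), (14, 10), (21, 3), (24, 4), (24, 18), (42, 14)]),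
  (180, 809951721, [(9, 11), (18, 2), (20, 16), (30, 6), (36, 9), (45, 15)]),
  (210, 1469202784, [(10, 11), (14, 1), (14, 16), (21, 9), (30, 5), (30, 12), (35, 7)]),
  (240, 1201506820, [(15, 1), (16, 14), (30, 18), (40, 8), (48, 12), (60, 20)]),
  (252, 356961403, [(9, 19), (18, 10), (21, 15), (28, 8), (36, 6)]),
  (280, 294234433, [(28, 12), (35, 5), (40, 16), (56, 14)]),
  (336, 416301381, [(16, 5), (28, 20), (42, 6), (48, 8)]),
  (360, 463523603, [(36, 4), (40, 5), (60, 12), (72, 18)]),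
  (420, 1615713162, [(15, 13), (20, 1), (28, 2), (42, 18), (60, 10), (70, 14)]),
  (630, 498846070, [(18, 17), (42, 3), (63, 7), (70, 20), (90, 15)]),
  (720, 461898498, [(45, 3), (72, 8), (80, 10)]),
  (840, 825812243, [(21, 19), (24, 11), (40, 2), (56, 4), (105, 15), (120, 20)]),
  (1260, 1471280736, [(28, 17), (35, 1), (60, 3), (84, 6), (126, 14)]),
  (1680, 467369348, [(35, 13), (80, 4), (105, 7), (112, 8)]),
  (2520, 713205991, [(45, 11), (70, 2), (120, 6), (168, 12)]),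
  (5040, 299228749, [(63, 17), (140, 4), (240, 12)])]

theorem ok47 : okP 47 kl47 = true := by
  decide +kernel

/-- Keys for the box of `5040 * 53`. -/
def kl53 : List (ℕ × ℕ × List (ℕ × ℕ)) := [
  (2, 966101694, [(1, 1)]),
  (3, 466393921, [(1, 2)]),
  (4, 766413402, [(1, 3), (2, 2)]),
  (5, 216978375, [(1, 4)]),
  (6, 1650370151, [(1, 5), (2, 1), (2, 4), (3, 3)]),
  (7, 134229495, [(1, 6)]),
  (8, 461920068, [(1, 7), (2, 6), (4, 4)]),
  (9, 227376777, [(1, 8), (3, 6)]),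
  (10, 639987984, [(1, 9), (2, 3), (2, 8), (5, 5)]),
  (12, 1868087800, [(1, 11), (2, 10), (3, 1), (3, 9), (4, 2), (4, 8), (6, 6)]),
  (14, 377163814, [(1, 13), (2, 5), (2, 12), (7, 7)]),
  (15, 629104392, [(1, 14), (3, 2), (3, 12), (5, 10)]),
  (16, 223985554, [(1, 15), (2, 14), (4, 12), (8, 8)]),
  (18, 642377305, [(1, 17), (2, 7), (2, 16), (3, 15), (6, 3), (6, 12), (9, 9)]),
  (20, 1289526016, [(1, 19), (2, 18), (4, 1), (4, 6), (4, 16), (5, 15), (10, 10)]),
  (21, 306586697, [(1, 20), (3, 4), (3, 18), (7, 14)]),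
  (24, 984556623, [(3, 5), (4, 20), (6, 2), (6, 18), (8, 4), (8, 16), (12, 12)]),
  (28, 410080430, [(4, 3), (4, 10), (14, 14)]),
  (30, 1645658520, [(2, 13), (3, 7), (5, 1), (6, 4), (6, 9), (10, 5), (10, 20), (15, 15)]),
  (35, 466393921, [(5, 2)]),
  (36, 669473896, [(4, 5), (4, 14), (9, 3), (12, 6), (18, 18)]),
  (40, 840716927, [(5, 3), (8, 2), (8, 12), (20, 20)]),
  (42, 1290747118, [(2, 19), (3, 11), (6, 1), (6, 8), (6, 15), (14, 7)]),
  (45, 351207870, [(5, 4), (9, 6)]),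
  (48, 425388885, [(3, 13), (6, 10), (12, 4), (16, 8)]),
  (56, 1121985192, [(7, 1), (8, 6), (8, 20)]),
  (60, 1363763442, [(3, 17), (4, 11), (5, 7), (6, 14), (10, 2), (12, 3), (12, 8), (12, 18), (15,
    5), (20, 10)]),
  (63, 519043443, [(7, 2), (9, 12)]),
  (70, 596548476, [(5, 9), (7, 3), (10, 4)]),
  (72, 1258571982, [(8, 1), (8, 10), (9, 15), (18, 6), (24, 12)]),
  (80, 411140923, [(5, 11), (10, 6), (16, 4)]),
  (84, 927842502, [(4, 17), (7, 5), (12, 2), (12, 9), (12, 16), (21, 7), (28, 14)]),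
  (90, 1495309008, [(5, 13), (9, 1), (10, 8), (15, 3), (18, 12), (30, 15)]),
  (112, 598594063, [(7, 9), (14, 2), (16, 12)]),
  (120, 730164091, [(5, 19), (8, 7), (10, 14), (15, 9), (20, 4), (24, 6), (24, 16), (30, 10),
    (40, 20)]),
  (126, 744201510, [(7, 11), (9, 5), (14, 4), (18, 3)]),
  (140, 448105109, [(7, 13), (10, 18), (14, 6), (20, 8), (20, 15), (28, 7)]),
  (144, 651409644, [(9, 7), (16, 2), (16, 20), (36, 12)]),
  (168, 729816255, [(7, 17), (8, 13), (14, 10), (21, 3), (24, 4), (24, 18), (42, 14)]),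
  (180, 809951721, [(9, 11), (18, 2), (20, 16), (30, 6), (36, 9), (45, 15)]),
  (210, 1469202784, [(10, 11), (14, 1), (14, 16), (21, 9), (30, 5), (30, 12), (35, 7)]),
  (240, 1201506820, [(15, 1), (16, 14), (30, 18), (40, 8), (48, 12), (60, 20)]),
  (252, 356961403, [(9, 19), (18, 10), (21, 15), (28, 8), (36, 6)]),
  (280, 294234433, [(28, 12), (35, 5), (40, 16), (56, 14)]),
  (336, 416301381, [(16, 5), (28, 20), (42, 6), (48, 8)]),
  (360, 463523603, [(36, 4), (40, 5), (60, 12), (72, 18)]),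
  (420, 1615713162, [(15, 13), (20, 1), (28, 2), (42, 18), (60, 10), (70, 14)]),
  (630, 498846070, [(18, 17), (42, 3), (63, 7), (70, 20), (90, 15)]),
  (720, 461898498, [(45, 3), (72, 8), (80, 10)]),
  (840, 825812243, [(21, 19), (24, 11), (40, 2), (56, 4), (105, 15), (120, 20)]),
  (1260, 1471280736, [(28, 17), (35, 1), (60, 3), (84, 6), (126, 14)]),
  (1680, 467369348, [(35, 13), (80, 4), (105, 7), (112, 8)]),
  (2520, 713205991, [(45, 11), (70, 2), (120, 6), (168, 12)]),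
  (5040, 299228749, [(63, 17), (140, 4), (240, 12)])]

theorem ok53 : okP 53 kl53 = true := by
  decide +kernel

end Box

theorem box_p (p : ℕ) (hp : p ∈ [19, 23, 29, 31, 37, 41, 43, 47, 53]) (n : ℕ)
    (hn : n ∣ 5040 * p) : Good n := by
  simp only [List.mem_cons, List.not_mem_nil, or_false] at hp
  rcases hp with rfl | rfl | rfl | rfl | rfl | rfl | rfl | rfl | rfl
  · exact Box.okP_sound 19 (by norm_num) (by norm_num) Box.kl19 Box.ok19 n hn
  · exact Box.okP_sound 23 (by norm_num) (by norm_num) Box.kl23 Box.ok23 n hn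
  · exact Box.okP_sound 29 (by norm_num) (by norm_num) Box.kl29 Box.ok29 n hn
  · exact Box.okP_sound 31 (by norm_num) (by norm_num) Box.kl31 Box.ok31 n hn
  · exact Box.okP_sound 37 (by norm_num) (by norm_num) Box.kl37 Box.ok37 n hn
  · exact Box.okP_sound 41 (by norm_num) (by norm_num) Box.kl41 Box.ok41 n hn
  · exact Box.okP_sound 43 (by norm_num) (by norm_num) Box.kl43 Box.ok43 n hn
  · exact Box.okP_sound 47 (by norm_num) (by norm_num) Box.kl47 Box.ok47 n hn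
  · exact Box.okP_sound 53 (by norm_num) (by norm_num) Box.kl53 Box.ok53 n hn

end Pool.MP_9e760c_nt.GapSum
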