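import Mathlib
import Pool.Agent.Lib.MP_9e760c_nt.Defs

/-!
# MP_9e760c_nt, piece B: the chain lemma for the near part

For a prime `p ≥ 11`, `p ∤ m` and a finite set `X` of positive integers not divisible by
`2 ^ (v₂ m + 1)`, `∑_{d ∣ m} ∑_{e ∈ X} w (d - p e) ≤ c_p τ(m)`.
-/

set_option autoImplicit false
open Finset

namespace Pool.MP_9e760c_nt.GapSum

/-- constants of the chain lemma -/
noncomputable def cch (p : ℕ) : ℝ := if p < 19 then 0.75 else if p < 59 then 0.608 else 0.58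

namespace Near

/-- integer upper bound for `10^9 * w k` (`k` natural). -/
def wN (k : ℕ) : ℕ :=
  if k = 0 then 0 else if 58 ≤ k then 0 else ((58 - k) * (59 - k) * 1000000000) / (3422 * k) + 1

/-- the same in the shifted variable `t = y + 57`. -/
def WN (t : ℕ) : ℕ := if t < 115 then wN ((t - 57) + (57 - t)) else 0

/-- scaled class sum. -/
def S (p : ℕ) (P : ℕ → Bool) (t0 : ℕ) : ℕ → ℕ
  | 0 => 0
  | n + 1 => S p P t0 n + (if P (t0 + n * p) then WN (t0 + n * p) else 0)

/-- scaled class sum over the window, class of `r + 57`. -/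
def F (p : ℕ) (P : ℕ → Bool) (r : ℕ) : ℕ := S p P ((r + 57) % p) (114 / p + 1)

/-- no condition -/
def tt (_ : ℕ) : Bool := true
/-- `y = t - 57` even -/
def ev (t : ℕ) : Bool := t % 2 == 1
/-- `y = t - 57` not `2` modulo `4` -/
def q4 (t : ℕ) : Bool := t % 4 != 3

/-- scaled constants -/
def cN (p : ℕ) : ℕ := if p < 19 then 750000000 else if p < 59 then 608000000 else 580000000

/-- the five inequalities for the class `r` -/
def Good1 (p c r : ℕ) : Bool :=
  Nat.ble (F p ev r) c && Nat.ble (F p tt r + F p q4 (2 * r)) (2 * c) &&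
  Nat.ble (F p tt r + F p tt (2 * r) + F p tt (4 * r)) (3 * c) &&
  Nat.ble (F p tt r + F p tt (2 * r) + F p tt (4 * r) + F p tt (8 * r)) (4 * c) &&
  Nat.ble (F p tt r + F p tt (2 * r) + F p tt (4 * r) + F p tt (8 * r) + F p tt (16 * r)) (5 * c)

/-- the finite check for one `p` -/
def chk (p : ℕ) : Bool :=
  (p % 2 == 0) || (p % 3 == 0) || (p % 5 == 0) || (p % 7 == 0) ||
    (List.range p).all fun r => (r == 0) || Good1 p (cN p) r

theorem chk_all : ((List.range 106).all fun k => chk (k + 11)) = true := by decide +kernel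

/-- the five inequalities, as a proposition about all `r` prime to `p` -/
structure Ineq (p c r : ℕ) : Prop where
  g1 : F p ev r ≤ c
  g2 : F p tt r + F p q4 (2 * r) ≤ 2 * c
  g3 : F p tt r + F p tt (2 * r) + F p tt (4 * r) ≤ 3 * c
  g4 : F p tt r + F p tt (2 * r) + F p tt (4 * r) + F p tt (8 * r) ≤ 4 * c
  g5 : F p tt r + F p tt (2 * r) + F p tt (4 * r) + F p tt (8 * r) + F p tt (16 * r) ≤ 5 * c

theorem F_mod (p : ℕ) (P : ℕ → Bool) (k r : ℕ) : F p P (k * (r % p)) = F p P (k * r) := by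
  have h : (k * (r % p) + 57) % p = (k * r + 57) % p := by
    rw [Nat.add_mod, Nat.mul_mod, Nat.mod_mod, ← Nat.mul_mod, ← Nat.add_mod]
  unfold F
  rw [h]

theorem F_mod1 (p : ℕ) (P : ℕ → Bool) (r : ℕ) : F p P (r % p) = F p P r := by
  simpa using F_mod p P 1 r

theorem ineq_small (p : ℕ) (hp : p.Prime) (h11 : 11 ≤ p) (h : p < 117) (r : ℕ) (hr : ¬ p ∣ r) :
    Ineq p (cN p) r := by
  have h0 := chk_all
  rw [List.all_eq_true] at h0
  have h1 := h0 (p - 11) (List.mem_range.2 (by omega))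
  rw [show p - 11 + 11 = p by omega] at h1
  have hq : ∀ q : ℕ, q.Prime → q < p → p % q ≠ 0 := by
    intro q hq hlt hmod
    have := (Nat.prime_dvd_prime_iff_eq hq hp).1 (Nat.dvd_of_mod_eq_zero hmod)
    omega
  have e2 := hq 2 Nat.prime_two (by omega)
  have e3 := hq 3 Nat.prime_three (by omega)
  have e5 := hq 5 Nat.prime_five (by omega)
  have e7 := hq 7 (by norm_num) (by omega)
  unfold chk at h1
  simp only [Bool.or_eq_true, beq_iff_eq, e2, e3, e5, e7, false_or] at h1
  rw [List.all_eq_true] at h1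
  have hrm : r % p ≠ 0 := fun h => hr (Nat.dvd_of_mod_eq_zero h)
  have h2 := h1 (r % p) (List.mem_range.2 (Nat.mod_lt _ (by omega)))
  simp only [Bool.or_eq_true, beq_iff_eq, hrm, false_or] at h2
  unfold Good1 at h2
  simp only [Bool.and_eq_true, Nat.ble_eq, F_mod, F_mod1] at h2
  exact ⟨h2.1.1.1.1, h2.1.1.1.2, h2.1.1.2, h2.1.2, h2.2⟩

/-! ### `p ≥ 117` -/

theorem F_large (p : ℕ) (h : 117 ≤ p) (P : ℕ → Bool) (r : ℕ) :
    F p P r = if P ((r + 57) % p) then WN ((r + 57) % p) else 0 := by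
  unfold F
  rw [Nat.div_eq_of_lt (by omega)]
  simp [S]

/-- `10^9 w(1)`, `10^9 w(2)`, `10^9 w(3)` rounded up -/
theorem WN_bound (t : ℕ) : WN t ≤ 300019482 + (if t = 56 ∨ t = 58 then 666082213 else 0) +
    (if t = 55 ∨ t = 59 then 166374440 else 0) := by
  by_cases h : t < 115
  · have key : ∀ t : Fin 115, WN t ≤ 300019482 + (if (t : ℕ) = 56 ∨ (t : ℕ) = 58 then 666082213 else 0) +
      (if (t : ℕ) = 55 ∨ (t : ℕ) = 59 then 166374440 else 0) := by decide +kernel
    exact key ⟨t, h⟩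
  · unfold WN
    rw [if_neg h]
    omega


/-- `t = (s + 57) % p` is congruent to `s + 57`. -/
theorem dvd_sub_mod (p s : ℕ) : (p : ℤ) ∣ (((s + 57) % p : ℕ) : ℤ) - 57 - s := by
  have h := Int.emod_emod_of_dvd ((s : ℤ) + 57) (dvd_refl (p : ℤ))
  have h2 : (((s + 57) % p : ℕ) : ℤ) = ((s : ℤ) + 57) % p := by push_cast; rfl
  rw [h2]
  have h3 := Int.emod_add_mul_ediv ((s : ℤ) + 57) p
  refine ⟨-(((s : ℤ) + 57) / p), ?_⟩
  linarith

theorem pow_lt_17 (k : ℕ) (h : k ≤ 4) : 2 ^ k ≤ 16 := by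
  interval_cases k <;> norm_num

/-- distinctness of the representatives -/
theorem distinct (p : ℕ) (hp : p.Prime) (h : 117 ≤ p) (r : ℕ) (hr : ¬ p ∣ r) (i j : ℕ) (hij : i < j)
    (hj : j ≤ 4) (a b : ℤ) (ha : (p : ℤ) ∣ a - (2 ^ i * r : ℕ)) (hb : (p : ℤ) ∣ b - (2 ^ j * r : ℕ)) :
    a ≠ b ∧ a ≠ -b := by
  have hpI : Prime (p : ℤ) := Nat.prime_iff_prime_int.1 hp
  obtain ⟨k, rfl⟩ : ∃ k, j = i + k := ⟨j - i, by omega⟩
  have hk : 1 ≤ k := by omega
  have hk4 : k ≤ 4 := by omega
  have h16 := pow_lt_17 k hk4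
  have h2k : 2 ≤ 2 ^ k := by
    calc 2 = 2 ^ 1 := by norm_num
      _ ≤ 2 ^ k := Nat.pow_le_pow_right (by norm_num) hk
  have hri : ¬ (p : ℤ) ∣ (2 ^ i * r : ℕ) := by
    intro h1
    have h2 : p ∣ 2 ^ i * r := by exact_mod_cast h1
    rcases (Nat.Prime.dvd_mul hp).1 h2 with h3 | h3
    · have := Nat.le_of_dvd (by norm_num) (hp.dvd_of_dvd_pow h3)
      omega
    · exact hr h3
  constructor
  · intro hab
    subst hab
    have h1 : (p : ℤ) ∣ (2 ^ i * r : ℕ) * ((2 ^ k : ℕ) - 1 : ℤ) := by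
      have := dvd_sub ha hb
      have e : (a - (2 ^ i * r : ℕ)) - (a - (2 ^ (i + k) * r : ℕ)) =
          ((2 ^ i * r : ℕ) : ℤ) * (((2 ^ k : ℕ) : ℤ) - 1) := by
        push_cast; ring
      rwa [e] at this
    rcases hpI.dvd_or_dvd h1 with h2 | h2
    · exact hri h2
    · have := Int.le_of_dvd (by omega) h2
      omega
  · intro hab
    have h1 : (p : ℤ) ∣ (2 ^ i * r : ℕ) * ((2 ^ k : ℕ) + 1 : ℤ) := by
      have := dvd_add ha hb
      have e : (a - (2 ^ i * r : ℕ)) + (b - (2 ^ (i + k) * r : ℕ)) =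
          - (((2 ^ i * r : ℕ) : ℤ) * (((2 ^ k : ℕ) : ℤ) + 1)) := by
        rw [hab]; push_cast; ring
      rw [e] at this
      exact (dvd_neg.1 this)
    rcases hpI.dvd_or_dvd h1 with h2 | h2
    · exact hri h2
    · have := Int.le_of_dvd (by omega) h2
      omega

theorem sum_large (p : ℕ) (hp : p.Prime) (h : 117 ≤ p) (r : ℕ) (hr : ¬ p ∣ r) (L : ℕ) (hL : L ≤ 5) :
    ∑ i ∈ range L, F p tt (2 ^ i * r) ≤ L * 300019482 + 666082213 + 166374440 := by
  let t : ℕ → ℕ := fun i => (2 ^ i * r + 57) % p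
  have hF : ∀ i, F p tt (2 ^ i * r) = WN (t i) := fun i => by
    rw [F_large p h]; simp [tt, t]
  have hd : ∀ i j, i < j → j ≤ 4 → ((t i : ℤ) - 57 ≠ (t j : ℤ) - 57 ∧ (t i : ℤ) - 57 ≠ -((t j : ℤ) - 57)) :=
    fun i j hij hj => distinct p hp h r hr i j hij hj _ _ (dvd_sub_mod p _) (dvd_sub_mod p _)
  have one : ∀ (x y : ℕ), x + y = 114 → ∀ c : ℕ,
      ∑ i ∈ range L, (if t i = x ∨ t i = y then c else 0) ≤ c := by
    intro x y hxy c
    rw [← Finset.sum_filter, Finset.sum_const, smul_eq_mul]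
    have hc : ((range L).filter (fun i => t i = x ∨ t i = y)).card ≤ 1 := by
      rw [Finset.card_le_one]
      intro i hi j hj
      rw [mem_filter, mem_range] at hi hj
      by_contra hne
      rcases Nat.lt_or_gt_of_ne hne with hlt | hlt
      · have := hd i j hlt (by omega)
        omega
      · have := hd j i hlt (by omega)
        omega
    calc _ ≤ 1 * c := Nat.mul_le_mul_right _ hc
      _ = c := one_mul c
  calc ∑ i ∈ range L, F p tt (2 ^ i * r)
      ≤ ∑ i ∈ range L, (300019482 + (if t i = 56 ∨ t i = 58 then 666082213 else 0) +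
          (if t i = 55 ∨ t i = 59 then 166374440 else 0)) := by
        apply Finset.sum_le_sum
        intro i _
        rw [hF]
        exact WN_bound (t i)
    _ = L * 300019482 + ∑ i ∈ range L, (if t i = 56 ∨ t i = 58 then 666082213 else 0) +
          ∑ i ∈ range L, (if t i = 55 ∨ t i = 59 then 166374440 else 0) := by
        rw [Finset.sum_add_distrib, Finset.sum_add_distrib, Finset.sum_const, card_range, smul_eq_mul]
    _ ≤ _ := by
        have h1 := one 56 58 rfl 666082213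
        have h2 := one 55 59 rfl 166374440
        omega

theorem ineq_large (p : ℕ) (hp : p.Prime) (h : 117 ≤ p) (r : ℕ) (hr : ¬ p ∣ r) :
    Ineq p 580000000 r := by
  have hodd : p % 2 = 1 := by
    rcases hp.eq_two_or_odd with h2 | h2
    · omega
    · exact h2
  have s3 := sum_large p hp h r hr 3 (by omega)
  have s4 := sum_large p hp h r hr 4 (by omega)
  have s5 := sum_large p hp h r hr 5 (by omega)
  simp only [Finset.sum_range_succ, Finset.sum_range_zero, Nat.reducePow, one_mul, zero_add] at s3 s4 s5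
  refine ⟨?_, ?_, ?_, ?_, ?_⟩
  · rw [F_large p h]
    have hb := WN_bound ((r + 57) % p)
    by_cases he : ev ((r + 57) % p) = true
    · rw [if_pos he]
      simp only [ev, beq_iff_eq] at he
      generalize (r + 57) % p = t at *
      split_ifs at hb <;> omega
    · rw [if_neg he]
      omega
  · rw [F_large p h, F_large p h]
    have hb := WN_bound ((r + 57) % p)
    have hb' := WN_bound ((2 * r + 57) % p)
    obtain ⟨k, hk⟩ := dvd_sub_mod p r
    obtain ⟨k', hk'⟩ := dvd_sub_mod p (2 * r)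
    have hlt : (r + 57) % p < p := Nat.mod_lt _ (by omega)
    have hlt' : (2 * r + 57) % p < p := Nat.mod_lt _ (by omega)
    have hz : ∀ t, 115 ≤ t → WN t = 0 := fun t ht => by
      unfold WN; rw [if_neg (by omega)]
    have hz0 := hz ((r + 57) % p)
    have hz1 := hz ((2 * r + 57) % p)
    simp only [tt, if_true]
    generalize (r + 57) % p = t at *
    generalize (2 * r + 57) % p = t' at *
    -- 2 (t - 57) - (t' - 57) is a multiple of p
    have hrel : 2 * (t : ℤ) - 57 - t' = p * (2 * k - k') := by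
      push_cast at hk'
      linarith
    obtain ⟨K, hK⟩ : ∃ K : ℤ, K = 2 * k - k' := ⟨_, rfl⟩
    rw [← hK] at hrel
    -- the left side vanishes whenever it is small
    have hK0 : |2 * (t : ℤ) - 57 - t'| < p → 2 * (t : ℤ) - 57 - t' = 0 := fun hs =>
      Int.eq_zero_of_abs_lt_dvd ⟨K, hrel⟩ hs
    rw [abs_lt] at hK0
    by_cases hA : t = 56 ∨ t = 58
    · have h0 := hK0 ⟨by omega, by omega⟩
      have hq : q4 t' = false := by
        have : t' = 55 ∨ t' = 59 := by omega
        rcases this with rfl | rfl <;> rfl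
      rw [hq]
      simp only [Bool.false_eq_true, if_false]
      split_ifs at hb <;> omega
    · have hb2 : WN t ≤ 466393922 := by
        split_ifs at hb <;> omega
      have hq' : (if q4 t' = true then WN t' else 0) ≤ WN t' := by
        split_ifs <;> omega
      by_cases hB : t' = 56 ∨ t' = 58
      · by_cases hC : 115 ≤ t
        · have := hz0 hC
          split_ifs at hb' <;> omega
        · exfalso
          have h0 := hK0 ⟨by omega, by omega⟩
          omega
      · have hb3 : WN t' ≤ 466393922 := by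
          split_ifs at hb' <;> omega
        omega
  · omega
  · omega
  · omega

/-! ### from `w` to the scaled integer weights -/

theorem w_zero (y : ℤ) (h : 58 ≤ |y|) : w y = 0 := by
  unfold w
  rw [if_pos (Or.inr h)]

theorem wreal (k : ℕ) (h1 : 1 ≤ k) (h2 : k < 58) :
    (58 - (k : ℝ)) * (59 - (k : ℝ)) / (3422 * (k : ℝ)) ≤ (wN k : ℝ) / 10 ^ 9 := by
  have hk : (0 : ℝ) < k := by exact_mod_cast h1
  unfold wN
  rw [if_neg (by omega), if_neg (by omega)]
  have hfl := Nat.lt_floor_add_one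
    ((((58 - k) * (59 - k) * 1000000000 : ℕ) : ℝ) / ((3422 * k : ℕ) : ℝ))
  rw [Nat.floor_div_eq_div] at hfl
  have e : (((58 - k) * (59 - k) * 1000000000 : ℕ) : ℝ) / ((3422 * k : ℕ) : ℝ) =
      ((58 - (k : ℝ)) * (59 - (k : ℝ)) / (3422 * (k : ℝ))) * 10 ^ 9 := by
    rw [Nat.cast_mul, Nat.cast_mul, Nat.cast_sub (by omega), Nat.cast_sub (by omega)]
    push_cast
    field_simp
    norm_num
  rw [e] at hfl
  rw [le_div_iff₀ (by positivity)]
  push_cast
  exact hfl.le

theorem w_le_WN (t : ℕ) : w ((t : ℤ) - 57) ≤ (WN t : ℝ) / 10 ^ 9 := by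
  by_cases ht : t < 115
  · have habs : |(t : ℤ) - 57| = (((t - 57) + (57 - t) : ℕ) : ℤ) := by
      rcases le_total 57 t with h | h
      · rw [abs_of_nonneg (by omega)]; omega
      · rw [abs_of_nonpos (by omega)]; omega
    unfold w WN
    rw [if_pos ht, habs]
    by_cases h0 : t = 57
    · subst h0
      rw [if_pos (Or.inl (by norm_num))]
      positivity
    · have hk1 : 1 ≤ (t - 57) + (57 - t) := by omega
      have hk2 : (t - 57) + (57 - t) < 58 := by omega
      rw [if_neg (by omega)]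
      have habs' : |(((t : ℤ) - 57 : ℤ) : ℝ)| = (((t - 57) + (57 - t) : ℕ) : ℝ) := by
        rw [← Int.cast_abs, habs]
        rfl
      rw [habs']
      exact wreal _ hk1 hk2
  · rw [w_zero _ (by rw [abs_of_nonneg (by omega)]; omega)]
    positivity

theorem S_eq (p : ℕ) (P : ℕ → Bool) (t0 n : ℕ) :
    S p P t0 n = ∑ j ∈ range n, (if P (t0 + j * p) then WN (t0 + j * p) else 0) := by
  induction n with
  | zero => rfl
  | succ n ih => rw [S, ih, Finset.sum_range_succ]

theorem sum_X_le (p : ℕ) (hp : 0 < p) (r : ℕ) (X : Finset ℕ) (P : ℕ → Bool)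
    (hP : ∀ e ∈ X, ∀ t : ℕ, (t : ℤ) = (r : ℤ) - p * e + 57 → P t = true) :
    ∑ e ∈ X, w ((r : ℤ) - p * e) ≤ (F p P r : ℝ) / 10 ^ 9 := by
  have hmd := Nat.mod_add_div (r + 57) p
  have hlt := Nat.mod_lt (r + 57) hp
  unfold F
  rw [S_eq]
  generalize (r + 57) % p = t0 at *
  generalize (r + 57) / p = Q at *
  let g : ℕ → ℝ := fun j => ((if P (t0 + j * p) then WN (t0 + j * p) else 0 : ℕ) : ℝ) / 10 ^ 9
  have hg : ∀ j, 0 ≤ g j := fun j => by positivity
  -- restrict to the window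
  have h1 : ∑ e ∈ X, w ((r : ℤ) - p * e) = ∑ e ∈ X.filter (fun e : ℕ => |(r : ℤ) - p * e| < 58),
      w ((r : ℤ) - p * e) := by
    symm
    apply Finset.sum_filter_of_ne
    intro e _ hne
    by_contra hcon
    exact hne (w_zero _ (not_lt.1 hcon))
  rw [h1]
  have key : ∀ e ∈ X.filter (fun e : ℕ => |(r : ℤ) - p * e| < 58),
      e ≤ Q ∧ Q - e < 114 / p + 1 ∧ w ((r : ℤ) - p * e) ≤ g (Q - e) := by
    intro e he
    rw [mem_filter, abs_lt] at he
    obtain ⟨heX, hlo, hhi⟩ := he
    have hmdZ : (t0 : ℤ) + p * Q = r + 57 := by exact_mod_cast hmd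
    have hle : e ≤ Q := by
      by_contra hcon
      push Not at hcon
      have : (p : ℤ) * (Q + 1) ≤ p * e := by
        apply mul_le_mul_of_nonneg_left _ (by positivity)
        exact_mod_cast hcon
      have hlt' : (t0 : ℤ) < p := by exact_mod_cast hlt
      linarith
    have hval : ((t0 + (Q - e) * p : ℕ) : ℤ) = (r : ℤ) - p * e + 57 := by
      rw [Nat.cast_add, Nat.cast_mul, Nat.cast_sub hle]
      linarith
    refine ⟨hle, ?_, ?_⟩
    · rw [Nat.lt_succ_iff, Nat.le_div_iff_mul_le hp]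
      have : ((t0 + (Q - e) * p : ℕ) : ℤ) ≤ 114 := by rw [hval]; linarith
      have : t0 + (Q - e) * p ≤ 114 := by exact_mod_cast this
      omega
    · have hPt := hP e heX _ hval
      have hw := w_le_WN (t0 + (Q - e) * p)
      rw [hval] at hw
      show _ ≤ ((if P (t0 + (Q - e) * p) then WN (t0 + (Q - e) * p) else 0 : ℕ) : ℝ) / 10 ^ 9
      rw [if_pos hPt]
      calc w ((r : ℤ) - p * e) = w ((r : ℤ) - p * e + 57 - 57) := by rw [add_sub_cancel_right]
        _ ≤ _ := hw
  calc ∑ e ∈ X.filter (fun e : ℕ => |(r : ℤ) - p * e| < 58), w ((r : ℤ) - p * e)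
      ≤ ∑ e ∈ X.filter (fun e : ℕ => |(r : ℤ) - p * e| < 58), g (Q - e) :=
        Finset.sum_le_sum fun e he => (key e he).2.2
    _ = ∑ j ∈ (X.filter (fun e : ℕ => |(r : ℤ) - p * e| < 58)).image (fun e => Q - e), g j := by
        rw [Finset.sum_image]
        intro a ha b hb hab
        have ha' := (key a ha).1
        have hb' := (key b hb).1
        simp only at hab
        omega
    _ ≤ ∑ j ∈ range (114 / p + 1), g j := by
        apply Finset.sum_le_sum_of_subset_of_nonneg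
        · intro j hj
          rw [mem_image] at hj
          obtain ⟨e, he, rfl⟩ := hj
          exact mem_range.2 (key e he).2.1
        · intro j _ _
          exact hg j
    _ = _ := by
        rw [← Finset.sum_div, Nat.cast_sum]

/-! ### chains -/

theorem cN_cast (p : ℕ) : (cN p : ℝ) / 10 ^ 9 = cch p := by
  unfold cN cch
  split_ifs <;> norm_num

theorem ineq_all (p : ℕ) (hp : p.Prime) (h11 : 11 ≤ p) (r : ℕ) (hr : ¬ p ∣ r) :
    Ineq p (cN p) r := by
  by_cases h : p < 117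
  · exact ineq_small p hp h11 h r hr
  · have : cN p = 580000000 := by
      unfold cN
      rw [if_neg (by omega), if_neg (by omega)]
    rw [this]
    exact ineq_large p hp (by omega) r hr

theorem chain (p : ℕ) (hp : p.Prime) (h11 : 11 ≤ p) : ∀ L, 3 ≤ L → ∀ r, ¬ p ∣ r →
    ∑ i ∈ range L, F p tt (2 ^ i * r) ≤ L * cN p := by
  intro L
  induction L using Nat.strong_induction_on with
  | _ L ih =>
    intro hL r hr
    have H := ineq_all p hp h11 r hr
    by_cases h6 : L < 6
    · have : L = 3 ∨ L = 4 ∨ L = 5 := by omega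
      rcases this with rfl | rfl | rfl
      · simpa [Finset.sum_range_succ] using H.g3
      · simpa [Finset.sum_range_succ] using H.g4
      · simpa [Finset.sum_range_succ] using H.g5
    · obtain ⟨M, rfl⟩ : ∃ M, L = 3 + M := ⟨L - 3, by omega⟩
      have hr8 : ¬ p ∣ 8 * r := by
        intro h
        rcases (Nat.Prime.dvd_mul hp).1 h with h | h
        · have := Nat.le_of_dvd (by norm_num) h
          omega
        · exact hr h
      have h1 := ih M (by omega) (by omega) (8 * r) hr8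
      rw [Finset.sum_range_add]
      have h2 : ∀ i, 2 ^ (3 + i) * r = 2 ^ i * (8 * r) := fun i => by
        rw [pow_add]; ring
      simp only [h2]
      have h3 : ∑ i ∈ range 3, F p tt (2 ^ i * r) ≤ 3 * cN p := by
        simpa [Finset.sum_range_succ] using H.g3
      calc _ ≤ 3 * cN p + M * cN p := Nat.add_le_add h3 h1
        _ = (3 + M) * cN p := by ring

/-- the sum over one chain `r, 2r, …, 2^a r` with `r` odd. -/
theorem chain_sum (p : ℕ) (hp : p.Prime) (h11 : 11 ≤ p) (a : ℕ) (X : Finset ℕ)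
    (hX : ∀ e ∈ X, 0 < e ∧ ¬ 2 ^ (a + 1) ∣ e) (r : ℕ) (hr : ¬ p ∣ r) (hodd : r % 2 = 1) :
    ∑ i ∈ range (a + 1), ∑ e ∈ X, w (((2 ^ i * r : ℕ) : ℤ) - p * e) ≤ ((a + 1 : ℕ) : ℝ) * cch p := by
  have hpodd : p % 2 = 1 := by
    rcases hp.eq_two_or_odd with h2 | h2
    · omega
    · exact h2
  have hp0 : 0 < p := hp.pos
  have H := ineq_all p hp h11 r hr
  have fin : ∀ (n L : ℕ), n ≤ L * cN p → (n : ℝ) / 10 ^ 9 ≤ (L : ℝ) * cch p := by
    intro n L hn
    rw [← cN_cast, ← mul_div_assoc]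
    apply div_le_div_of_nonneg_right _ (by positivity)
    exact_mod_cast hn
  have he : a = 0 ∨ a = 1 ∨ 3 ≤ a + 1 := by omega
  rcases he with rfl | rfl | h3
  · simp only [zero_add, Finset.sum_range_one]
    have h1 := sum_X_le p hp0 (2 ^ 0 * r) X ev (by
      intro e he t ht
      have h2 := (hX e he).2
      simp only [zero_add, pow_one] at h2
      simp only [ev, beq_iff_eq]
      have hpe : (p * e) % 2 = 1 := by
        rw [Nat.mul_mod, hpodd]
        have : e % 2 = 1 := by omega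
        rw [this]
      have ht' : (t : ℤ) = (r : ℤ) - ((p * e : ℕ) : ℤ) + 57 := by
        rw [ht]; push_cast; ring
      omega)
    refine h1.trans ?_
    rw [pow_zero, one_mul]
    exact fin _ 1 (by simpa using H.g1)
  · rw [show (1 + 1 : ℕ) = 2 from rfl, Finset.sum_range_succ, Finset.sum_range_one]
    have h1 := sum_X_le p hp0 (2 ^ 0 * r) X tt (fun _ _ _ _ => rfl)
    have h2 := sum_X_le p hp0 (2 ^ 1 * r) X q4 (by
      intro e he t ht
      have h2 := (hX e he).2
      have h4 : ¬ 4 ∣ e := by simpa using h2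
      have h4' : ¬ 4 ∣ p * e := by
        intro h
        have hc : Nat.Coprime 4 p := by
          have : Nat.Coprime (2 ^ 2) p := Nat.Coprime.pow_left 2
            ((Nat.Prime.coprime_iff_not_dvd Nat.prime_two).2 (by omega))
          simpa using this
        exact h4 (hc.dvd_of_dvd_mul_left h)
      simp only [q4, bne_iff_ne]
      have ht' : (t : ℤ) = 2 * (r : ℤ) - ((p * e : ℕ) : ℤ) + 57 := by
        rw [ht]; push_cast; ring
      omega)
    calc _ ≤ (F p tt (2 ^ 0 * r) : ℝ) / 10 ^ 9 + (F p q4 (2 ^ 1 * r) : ℝ) / 10 ^ 9 := add_le_add h1 h2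
      _ = ((F p tt r + F p q4 (2 * r) : ℕ) : ℝ) / 10 ^ 9 := by
          rw [pow_zero, one_mul, pow_one, Nat.cast_add, add_div]
      _ ≤ _ := fin _ 2 H.g2
  · have h1 : ∀ i ∈ range (a + 1), ∑ e ∈ X, w (((2 ^ i * r : ℕ) : ℤ) - p * e) ≤
        (F p tt (2 ^ i * r) : ℝ) / 10 ^ 9 := fun i _ =>
      sum_X_le p hp0 (2 ^ i * r) X tt (fun _ _ _ _ => rfl)
    refine (Finset.sum_le_sum h1).trans ?_
    rw [← Finset.sum_div, ← Nat.cast_sum]
    exact fin _ (a + 1) (chain p hp h11 (a + 1) h3 r hr)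

end Near

/-- PIECE B: the near (chain) lemma. -/
theorem near_chain (p : ℕ) (hp : p.Prime) (hp11 : 11 ≤ p) (m : ℕ) (hm : 0 < m) (hpm : ¬ p ∣ m)
    (X : Finset ℕ) (hX : ∀ e ∈ X, 0 < e ∧ ¬ 2 ^ (padicValNat 2 m + 1) ∣ e) :
    ∑ d ∈ m.divisors, ∑ e ∈ X, w ((d : ℤ) - p * e) ≤ cch p * (m.divisors.card : ℝ) := by
  obtain ⟨a, ha⟩ : ∃ a, a = padicValNat 2 m := ⟨_, rfl⟩
  rw [← ha] at hX
  obtain ⟨m', hm'⟩ : ∃ m', m = 2 ^ a * m' := by
    have := @pow_padicValNat_dvd 2 m
    rw [← ha] at this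
    exact this
  have hm'odd : ¬ 2 ∣ m' := by
    rintro ⟨k, rfl⟩
    have h1 : 2 ^ (padicValNat 2 m + 1) ∣ m := ⟨k, by rw [← ha, hm']; ring⟩
    exact pow_succ_padicValNat_not_dvd hm.ne' h1
  have hm'0 : m' ≠ 0 := by
    rintro rfl
    simp at hm'
    omega
  have hcop : Nat.Coprime (2 ^ a) m' :=
    Nat.Coprime.pow_left a ((Nat.Prime.coprime_iff_not_dvd Nat.prime_two).2 hm'odd)
  have hsum : ∀ f : ℕ → ℝ, ∑ d ∈ m.divisors, f d =
      ∑ d' ∈ m'.divisors, ∑ i ∈ range (a + 1), f (2 ^ i * d') := by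
    intro f
    rw [hm', Nat.divisors_mul, Finset.mul_def, Finset.sum_image hcop.mul_injOn_divisors,
      Finset.sum_product, Nat.sum_divisors_prime_pow Nat.prime_two, Finset.sum_comm]
  rw [hsum]
  have hcard : (m.divisors.card : ℝ) = ((a + 1 : ℕ) : ℝ) * (m'.divisors.card : ℝ) := by
    rw [hm', hcop.card_divisors_mul, Nat.divisors_prime_pow Nat.prime_two]
    simp
  calc ∑ d' ∈ m'.divisors, ∑ i ∈ range (a + 1), ∑ e ∈ X, w (((2 ^ i * d' : ℕ) : ℤ) - p * e)
      ≤ ∑ d' ∈ m'.divisors, ((a + 1 : ℕ) : ℝ) * cch p := by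
        apply Finset.sum_le_sum
        intro d' hd'
        rw [Nat.mem_divisors] at hd'
        apply Near.chain_sum p hp hp11 a X hX d'
        · intro h
          exact hpm (h.trans (hd'.1.trans ⟨2 ^ a, by rw [hm']; ring⟩))
        · by_contra hcon
          exact hm'odd ((Nat.dvd_of_mod_eq_zero (by omega)).trans hd'.1)
    _ = cch p * (m.divisors.card : ℝ) := by
        rw [Finset.sum_const, nsmul_eq_mul, hcard]
        ring

end Pool.MP_9e760c_nt.GapSum
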