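import Mathlib
import Pool.Agent.Lib.MP_9e760c_nt.Defs

set_option autoImplicit false
open Finset

namespace Pool.MP_9e760c_nt.GapSum

/-- general window `H` -/
noncomputable def KH (H : ℕ) (x : ℤ) : ℝ :=
  if (H : ℤ) ≤ |x| then 1 / (|x| : ℝ) else (2 * (H : ℝ) + 1 - (|x| : ℝ)) / ((H : ℝ) * (H + 1))

noncomputable def Tri (u : ℕ) (x : ℤ) : ℝ := max 0 ((u : ℝ) - (|x| : ℝ))

theorem K_eq_KH (x : ℤ) : K x = KH 58 x := by
  unfold K KH
  by_cases h : (58 : ℤ) ≤ |x|
  · have h' : ((58 : ℕ) : ℤ) ≤ |x| := by exact_mod_cast h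
    rw [if_pos h, if_pos h']
  · have h' : ¬ ((58 : ℕ) : ℤ) ≤ |x| := by exact_mod_cast h
    rw [if_neg h, if_neg h']
    norm_num

theorem KH_succ (H : ℕ) (hH : 1 ≤ H) (x : ℤ) :
    KH H x = KH (H + 1) x + 2 / ((H : ℝ) * (H + 1) * (H + 2)) * Tri (H + 1) x := by
  have hH' : (1 : ℝ) ≤ H := by exact_mod_cast hH
  have h0 : (0 : ℝ) < H := by linarith
  unfold KH Tri
  rcases lt_trichotomy (|x|) (H : ℤ) with h | h | h
  · have h1 : ¬ ((H : ℤ) ≤ |x|) := not_le.mpr h
    have h2 : ¬ (((H + 1 : ℕ) : ℤ) ≤ |x|) := by push_cast; omega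
    rw [if_neg h1, if_neg h2]
    have hx : (|x| : ℝ) < H := by
      have := (Int.cast_lt (R := ℝ)).mpr h
      push_cast at this
      exact this
    rw [max_eq_right (by push_cast; linarith)]
    push_cast
    field_simp
    ring
  · have h1 : ((H : ℤ) ≤ |x|) := h.symm.le
    have h2 : ¬ (((H + 1 : ℕ) : ℤ) ≤ |x|) := by push_cast; omega
    rw [if_pos h1, if_neg h2]
    have hx : (|x| : ℝ) = H := by
      have := congrArg (Int.cast (R := ℝ)) h
      push_cast at this
      exact this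
    rw [max_eq_right (by push_cast; linarith), hx]
    push_cast
    field_simp
    ring
  · have h1 : ((H : ℤ) ≤ |x|) := h.le
    have h2 : (((H + 1 : ℕ) : ℤ) ≤ |x|) := by push_cast; omega
    rw [if_pos h1, if_pos h2]
    have hx : ((H : ℝ) + 1) ≤ (|x| : ℝ) := by
      have := (Int.cast_le (R := ℝ)).mpr h2
      push_cast at this
      exact this
    rw [max_eq_left (by push_cast; linarith)]
    ring

theorem tri_count (u : ℕ) (M : ℤ) (a b : ℤ) (ha : |a| + u ≤ M) (_hb : |b| + u ≤ M) :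
    (∑ t ∈ Finset.Icc (-M) M,
      (if t ≤ a ∧ a < t + u then (1 : ℝ) else 0) * (if t ≤ b ∧ b < t + u then (1 : ℝ) else 0))
      = Tri u (a - b) := by
  have h1 : ∀ t : ℤ, (if t ≤ a ∧ a < t + u then (1 : ℝ) else 0) *
      (if t ≤ b ∧ b < t + u then (1 : ℝ) else 0)
      = if t ∈ Finset.Icc (max a b - u + 1) (min a b) then (1 : ℝ) else 0 := by
    intro t
    by_cases h : t ∈ Finset.Icc (max a b - u + 1) (min a b)
    · rw [if_pos h]
      rw [Finset.mem_Icc] at h
      have ha1 : t ≤ a ∧ a < t + u := by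
        constructor
        · exact h.2.trans (min_le_left _ _)
        · have := le_max_left a b; omega
      have hb1 : t ≤ b ∧ b < t + u := by
        constructor
        · exact h.2.trans (min_le_right _ _)
        · have := le_max_right a b; omega
      rw [if_pos ha1, if_pos hb1, one_mul]
    · rw [if_neg h]
      rw [Finset.mem_Icc, not_and_or] at h
      by_cases ha1 : t ≤ a ∧ a < t + u
      · by_cases hb1 : t ≤ b ∧ b < t + u
        · exfalso
          rcases h with h | h
          · apply h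
            rcases max_choice a b with h' | h' <;> rw [h'] <;> omega
          · apply h
            exact le_min ha1.1 hb1.1
        · rw [if_neg hb1, mul_zero]
      · rw [if_neg ha1, zero_mul]
  rw [Finset.sum_congr rfl (fun t _ => h1 t), Finset.sum_ite_mem]
  have h2 : Finset.Icc (-M) M ∩ Finset.Icc (max a b - u + 1) (min a b)
      = Finset.Icc (max a b - u + 1) (min a b) := by
    apply Finset.inter_eq_right.mpr
    intro t ht
    rw [Finset.mem_Icc] at ht ⊢
    have e1 := neg_abs_le a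
    have e2 := le_abs_self a
    have e3 : min a b ≤ a := min_le_left _ _
    have e4 : a ≤ max a b := le_max_left _ _
    constructor <;> omega
  rw [h2, Finset.sum_const, Int.card_Icc, nsmul_eq_mul, mul_one]
  unfold Tri
  rcases le_total a b with h | h
  · rw [max_eq_right h, min_eq_left h]
    have e : (|a - b| : ℤ) = b - a := by rw [abs_sub_comm]; exact abs_of_nonneg (by omega)
    have e' : |((a : ℝ)) - (b : ℝ)| = (b : ℝ) - a := by
      have := congrArg (Int.cast (R := ℝ)) e
      push_cast at this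
      exact this
    push_cast
    rw [e']
    rcases le_total (0 : ℤ) (a + 1 - (b - u + 1)) with h3 | h3
    · have : (((a + 1 - (b - u + 1)).toNat : ℕ) : ℝ) = ((a + 1 - (b - u + 1) : ℤ) : ℝ) := by
        have := Int.toNat_of_nonneg h3
        exact_mod_cast congrArg (Int.cast (R := ℝ)) this
      rw [this]
      have h4 : (0 : ℝ) ≤ ((a + 1 - (b - u + 1) : ℤ) : ℝ) := by exact_mod_cast h3
      push_cast at h4 ⊢
      rw [max_eq_right (by linarith)]
      ring
    · have : (a + 1 - (b - u + 1)).toNat = 0 := Int.toNat_of_nonpos h3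
      rw [this]
      have h4 : ((a + 1 - (b - u + 1) : ℤ) : ℝ) ≤ 0 := by exact_mod_cast h3
      push_cast at h4 ⊢
      rw [max_eq_left (by linarith)]
  · rw [max_eq_left h, min_eq_right h]
    have e : (|a - b| : ℤ) = a - b := abs_of_nonneg (by omega)
    have e' : |((a : ℝ)) - (b : ℝ)| = (a : ℝ) - b := by
      have := congrArg (Int.cast (R := ℝ)) e
      push_cast at this
      exact this
    push_cast
    rw [e']
    rcases le_total (0 : ℤ) (b + 1 - (a - u + 1)) with h3 | h3
    · have : (((b + 1 - (a - u + 1)).toNat : ℕ) : ℝ) = ((b + 1 - (a - u + 1) : ℤ) : ℝ) := by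
        have := Int.toNat_of_nonneg h3
        exact_mod_cast congrArg (Int.cast (R := ℝ)) this
      rw [this]
      have h4 : (0 : ℝ) ≤ ((b + 1 - (a - u + 1) : ℤ) : ℝ) := by exact_mod_cast h3
      push_cast at h4 ⊢
      rw [max_eq_right (by linarith)]
      ring
    · have : (b + 1 - (a - u + 1)).toNat = 0 := Int.toNat_of_nonpos h3
      rw [this]
      have h4 : ((b + 1 - (a - u + 1) : ℤ) : ℝ) ≤ 0 := by exact_mod_cast h3
      push_cast at h4 ⊢
      rw [max_eq_left (by linarith)]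

theorem tri_psd (u : ℕ) (s : Finset ℤ) (c : ℤ → ℝ) :
    0 ≤ ∑ x ∈ s, ∑ y ∈ s, c x * c y * Tri u (x - y) := by
  classical
  obtain ⟨M, hM⟩ : ∃ M : ℤ, ∀ x ∈ s, |x| + u ≤ M := by
    refine ⟨∑ x ∈ s, |x| + u, ?_⟩
    intro x hx
    have := Finset.single_le_sum (f := fun x : ℤ => |x|) (fun i _ => abs_nonneg i) hx
    simpa using this
  have key : ∑ x ∈ s, ∑ y ∈ s, c x * c y * Tri u (x - y)
      = ∑ t ∈ Finset.Icc (-M) M, (∑ x ∈ s, c x * (if t ≤ x ∧ x < t + u then (1 : ℝ) else 0)) ^ 2 := by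
    have h1 : ∀ x ∈ s, ∀ y ∈ s, c x * c y * Tri u (x - y)
        = ∑ t ∈ Finset.Icc (-M) M, (c x * (if t ≤ x ∧ x < t + u then (1 : ℝ) else 0)) *
          (c y * (if t ≤ y ∧ y < t + u then (1 : ℝ) else 0)) := by
      intro x hx y hy
      rw [← tri_count u M x y (hM x hx) (hM y hy), Finset.mul_sum]
      refine Finset.sum_congr rfl fun t _ => ?_
      ring
    rw [Finset.sum_congr rfl (fun x hx => Finset.sum_congr rfl (fun y hy => h1 x hx y hy))]
    rw [Finset.sum_congr rfl (fun x _ => Finset.sum_comm)]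
    rw [Finset.sum_comm]
    refine Finset.sum_congr rfl fun t _ => ?_
    rw [sq, Finset.sum_mul_sum]
  rw [key]
  exact Finset.sum_nonneg fun t _ => sq_nonneg _

theorem KH_psd (s : Finset ℤ) (c : ℤ → ℝ) (H : ℕ) (hH : 1 ≤ H) :
    0 ≤ ∑ x ∈ s, ∑ y ∈ s, c x * c y * KH H (x - y) := by
  classical
  obtain ⟨N, hN1, hN⟩ : ∃ N : ℕ, H ≤ N ∧ ∀ x ∈ s, ∀ y ∈ s, |x - y| < N := by
    refine ⟨H + (2 * ∑ x ∈ s, |x| ).toNat + 1, by omega, ?_⟩
    intro x hx y hy
    have h1 := Finset.single_le_sum (f := fun x : ℤ => |x|) (fun i _ => abs_nonneg i) hx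
    have h2 := Finset.single_le_sum (f := fun x : ℤ => |x|) (fun i _ => abs_nonneg i) hy
    have h3 : |x - y| ≤ |x| + |y| := abs_sub x y
    have h4 : (2 * ∑ x ∈ s, |x|) ≤ ((2 * ∑ x ∈ s, |x|).toNat : ℤ) := Int.self_le_toNat _
    push_cast
    omega
  have hbase : ∀ H' : ℕ, 1 ≤ H' → (∀ x ∈ s, ∀ y ∈ s, |x - y| < H') →
      0 ≤ ∑ x ∈ s, ∑ y ∈ s, c x * c y * KH H' (x - y) := by
    intro H' hH' hs
    have h1 : ∀ x ∈ s, ∀ y ∈ s, c x * c y * KH H' (x - y)
        = (1 / ((H' : ℝ) * (H' + 1))) * (c x * c y * Tri (2 * H' + 1) (x - y)) := by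
      intro x hx y hy
      have h2 := hs x hx y hy
      unfold KH Tri
      rw [if_neg (not_le.mpr h2)]
      have h3 : (|x - y| : ℝ) < H' := by
        have := (Int.cast_lt (R := ℝ)).mpr h2
        push_cast at this
        exact this
      have h0 : (0 : ℝ) < H' := by exact_mod_cast hH'
      push_cast
      rw [max_eq_right (by linarith)]
      field_simp
    rw [Finset.sum_congr rfl (fun x hx => Finset.sum_congr rfl (fun y hy => h1 x hx y hy))]
    simp_rw [← Finset.mul_sum]
    apply mul_nonneg (by positivity)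
    exact tri_psd _ s c
  obtain ⟨k, rfl⟩ : ∃ k, N = H + k := ⟨N - H, by omega⟩
  clear hN1
  induction k generalizing H with
  | zero => exact hbase H hH (by simpa using hN)
  | succ k ih =>
    have := ih (H + 1) (by omega) (by
      intro x hx y hy
      have := hN x hx y hy
      push_cast at this ⊢
      omega)
    have h1 : ∀ x ∈ s, ∀ y ∈ s, c x * c y * KH H (x - y)
        = c x * c y * KH (H + 1) (x - y) +
          (2 / ((H : ℝ) * (H + 1) * (H + 2))) * (c x * c y * Tri (H + 1) (x - y)) := by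
      intro x _ y _
      rw [KH_succ H hH]
      ring
    rw [Finset.sum_congr rfl (fun x hx => Finset.sum_congr rfl (fun y hy => h1 x hx y hy))]
    simp_rw [Finset.sum_add_distrib, ← Finset.mul_sum]
    apply add_nonneg this
    apply mul_nonneg (by positivity)
    exact tri_psd _ s c

theorem K_psd (s : Finset ℤ) (c : ℤ → ℝ) :
    0 ≤ ∑ x ∈ s, ∑ y ∈ s, c x * c y * K (x - y) := by
  simp_rw [K_eq_KH]
  exact KH_psd s c 58 (by norm_num)

/-- Cauchy-Schwarz for the positive definite kernel `K`. -/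
theorem kernel_cs (A B : Finset ℤ) :
    (∑ a ∈ A, ∑ b ∈ B, K (a - b)) ^ 2 ≤
      (∑ a ∈ A, ∑ a' ∈ A, K (a - a')) * (∑ b ∈ B, ∑ b' ∈ B, K (b - b')) := by
  classical
  have hKsymm : ∀ x : ℤ, K (-x) = K x := by
    intro x
    unfold K
    push_cast
    rw [abs_neg, abs_neg]
  set EA := ∑ a ∈ A, ∑ a' ∈ A, K (a - a') with hEA
  set EB := ∑ b ∈ B, ∑ b' ∈ B, K (b - b') with hEB
  set F := ∑ a ∈ A, ∑ b ∈ B, K (a - b) with hF
  have hF' : ∑ b ∈ B, ∑ a ∈ A, K (b - a) = F := by
    rw [hF, Finset.sum_comm]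
    refine Finset.sum_congr rfl fun a _ => Finset.sum_congr rfl fun b _ => ?_
    rw [← hKsymm (a - b)]
    congr 1
    ring
  have hquad : ∀ t : ℝ, 0 ≤ EA * (t * t) + (-2 * F) * t + EB := by
    intro t
    have h := K_psd (A ∪ B) (fun x => t * (if x ∈ A then 1 else 0) - (if x ∈ B then 1 else 0))
    have hsum : ∀ (C D : Finset ℤ) (hC : C ⊆ A ∪ B) (hD : D ⊆ A ∪ B),
        ∑ x ∈ A ∪ B, ∑ y ∈ A ∪ B, ((if x ∈ C then (1 : ℝ) else 0) * (if y ∈ D then (1 : ℝ) else 0))
          * K (x - y) = ∑ x ∈ C, ∑ y ∈ D, K (x - y) := by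
      intro C D hC hD
      have e1 : ∀ x ∈ A ∪ B, ∑ y ∈ A ∪ B, ((if x ∈ C then (1 : ℝ) else 0) *
          (if y ∈ D then (1 : ℝ) else 0)) * K (x - y)
          = if x ∈ C then ∑ y ∈ D, K (x - y) else 0 := by
        intro x _
        by_cases hx : x ∈ C
        · simp only [hx, if_true, one_mul]
          have : ∀ y : ℤ, (if y ∈ D then (1 : ℝ) else 0) * K (x - y)
              = if y ∈ D then K (x - y) else 0 := by
            intro y; split_ifs <;> simp
          simp_rw [this]
          rw [Finset.sum_ite_mem, Finset.inter_eq_right.mpr hD]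
        · simp only [hx, if_false, zero_mul, Finset.sum_const_zero]
      rw [Finset.sum_congr rfl e1, Finset.sum_ite_mem, Finset.inter_eq_right.mpr hC]
    have hAA := hsum A A Finset.subset_union_left Finset.subset_union_left
    have hAB := hsum A B Finset.subset_union_left Finset.subset_union_right
    have hBA := hsum B A Finset.subset_union_right Finset.subset_union_left
    have hBB := hsum B B Finset.subset_union_right Finset.subset_union_right
    have hexp : ∑ x ∈ A ∪ B, ∑ y ∈ A ∪ B,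
        (t * (if x ∈ A then (1 : ℝ) else 0) - (if x ∈ B then (1 : ℝ) else 0)) *
        (t * (if y ∈ A then (1 : ℝ) else 0) - (if y ∈ B then (1 : ℝ) else 0)) * K (x - y)
        = t * t * (∑ x ∈ A, ∑ y ∈ A, K (x - y)) - t * (∑ x ∈ A, ∑ y ∈ B, K (x - y))
          - t * (∑ x ∈ B, ∑ y ∈ A, K (x - y)) + ∑ x ∈ B, ∑ y ∈ B, K (x - y) := by
      rw [← hAA, ← hAB, ← hBA, ← hBB]
      simp_rw [Finset.mul_sum]
      rw [← Finset.sum_sub_distrib, ← Finset.sum_sub_distrib, ← Finset.sum_add_distrib]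
      refine Finset.sum_congr rfl fun x _ => ?_
      rw [← Finset.sum_sub_distrib, ← Finset.sum_sub_distrib, ← Finset.sum_add_distrib]
      refine Finset.sum_congr rfl fun y _ => ?_
      ring
    rw [hexp, hF', ← hEA, ← hEB, ← hF] at h
    nlinarith [h]
  have hd := discrim_le_zero hquad
  unfold discrim at hd
  nlinarith [hd]

end Pool.MP_9e760c_nt.GapSum
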