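import Mathlib
import Pool.Agent.Lib.MP_9e760c_nt.Defs
import Pool.Agent.Lib.MP_9e760c_nt.Kernel

set_option autoImplicit false
open Finset

namespace Pool.MP_9e760c_nt.GapSum

/-! ### elementary facts on `K` and `w` -/

theorem K_nonneg (x : ℤ) : 0 ≤ K x := by
  unfold K
  split_ifs with h
  · positivity
  · have h' : |x| < 58 := not_le.mp h
    have hx : (|x| : ℝ) < 58 := by
      have := (Int.cast_lt (R := ℝ)).mpr h'
      push_cast at this
      exact this
    apply div_nonneg _ (by norm_num)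
    linarith

theorem w_nonneg (x : ℤ) : 0 ≤ w x := by
  unfold w
  split_ifs with h
  · exact le_rfl
  · push Not at h
    have hx : (|x| : ℝ) < 58 := by
      have := (Int.cast_lt (R := ℝ)).mpr h.2
      push_cast at this
      exact this
    have h0 : (0 : ℝ) ≤ |(x : ℝ)| := abs_nonneg _
    apply div_nonneg _ (by positivity)
    apply mul_nonneg <;> linarith

theorem inv_le_w_add_K (x : ℤ) : 1 / |(x : ℝ)| ≤ w x + K x := by
  unfold w K
  by_cases hx : x = 0
  · subst hx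
    simp
    norm_num
  · by_cases h : 58 ≤ |x|
    · rw [if_pos (Or.inr h), if_pos h]
      simp
    · rw [if_neg (by tauto), if_neg h]
      have hpos : (0 : ℝ) < |(x : ℝ)| := by
        rw [abs_pos]
        exact_mod_cast hx
      rw [← sub_nonneg]
      have : ((58 - |(x : ℝ)|) * (59 - |(x : ℝ)|) / (3422 * |(x : ℝ)|) + (117 - |(x : ℝ)|) / 3422
        - 1 / |(x : ℝ)|) = 0 := by
        field_simp
        ring
      rw [this]

theorem K_le (x : ℤ) : K x ≤ (if x = 0 then 117 / 3422 else 0) + 1 / |(x : ℝ)| := by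
  unfold K
  by_cases hx : x = 0
  · subst hx
    simp
  · rw [if_neg hx, zero_add]
    split_ifs with h
    · exact le_rfl
    · have hpos : (0 : ℝ) < |(x : ℝ)| := by
        rw [abs_pos]
        exact_mod_cast hx
      have h' : |x| < 58 := not_le.mp h
      have hx58 : (|x| : ℤ) ≤ 57 := by omega
      have hx' : |(x : ℝ)| ≤ 57 := by
        have := (Int.cast_le (R := ℝ)).mpr hx58
        push_cast at this
        exact this
      rw [div_le_div_iff₀ (by norm_num) hpos]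
      nlinarith [hpos, hx']

theorem K_zero : K 0 = 117 / 3422 := by
  unfold K
  simp

/-! ### finset versions -/

noncomputable def S2F (A : Finset ℕ) : ℝ := ∑ d ∈ A, ∑ e ∈ A, 1 / |(d : ℝ) - (e : ℝ)|

noncomputable def EnF (A : Finset ℕ) : ℝ := ∑ d ∈ A, ∑ e ∈ A, K ((d : ℤ) - (e : ℤ))

theorem K_neg (x : ℤ) : K (-x) = K x := by
  unfold K
  push_cast
  rw [abs_neg, abs_neg]

theorem sum_union_sq {A C : Finset ℕ} (h : Disjoint A C) (g : ℕ → ℕ → ℝ)
    (hg : ∀ a b, g a b = g b a) :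
    ∑ d ∈ A ∪ C, ∑ e ∈ A ∪ C, g d e =
      ∑ d ∈ A, ∑ e ∈ A, g d e + ∑ d ∈ C, ∑ e ∈ C, g d e + 2 * ∑ d ∈ A, ∑ e ∈ C, g d e := by
  rw [Finset.sum_union h]
  have h1 : ∀ d, ∑ e ∈ A ∪ C, g d e = ∑ e ∈ A, g d e + ∑ e ∈ C, g d e := fun d =>
    Finset.sum_union h
  simp_rw [h1, Finset.sum_add_distrib]
  have h2 : ∑ d ∈ C, ∑ e ∈ A, g d e = ∑ d ∈ A, ∑ e ∈ C, g d e := by
    rw [Finset.sum_comm]
    exact Finset.sum_congr rfl fun a _ => Finset.sum_congr rfl fun b _ => hg _ _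
  rw [h2]
  ring

theorem div_split (l k j m : ℕ) (hl : l.Prime) (hlm : ¬ l ∣ m) (hm : 0 < m) (hj : 1 ≤ j)
    (hjk : j ≤ k) :
    (l ^ k * m).divisors =
      (l ^ (j - 1) * m).divisors ∪ ((l ^ (k - j) * m).divisors.image (fun e => l ^ j * e)) := by
  have hl0 : 0 < l := hl.pos
  ext d
  simp only [Finset.mem_union, Finset.mem_image, Nat.mem_divisors]
  constructor
  · rintro ⟨hd, _⟩
    by_cases h : l ^ j ∣ d
    · right
      obtain ⟨e, rfl⟩ := h
      refine ⟨e, ⟨?_, by positivity⟩, rfl⟩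
      have : l ^ k * m = l ^ j * (l ^ (k - j) * m) := by
        rw [← mul_assoc, ← pow_add]
        congr 2
        omega
      rw [this] at hd
      exact Nat.dvd_of_mul_dvd_mul_left (by positivity) hd
    · left
      refine ⟨?_, by positivity⟩
      have hcop : Nat.Coprime (l ^ k) m := Nat.Coprime.pow_left _ ((Nat.Prime.coprime_iff_not_dvd hl).mpr hlm)
      have h1 : d = Nat.gcd d (l ^ k) * Nat.gcd d m := by
        rw [← Nat.Coprime.gcd_mul d hcop]
        exact (Nat.gcd_eq_left hd).symm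
      obtain ⟨i, hi, hi2⟩ := (Nat.dvd_prime_pow hl).mp (Nat.gcd_dvd_right d (l ^ k))
      have hij : i < j := by
        by_contra hcon
        apply h
        have : l ^ j ∣ l ^ i := pow_dvd_pow _ (by omega)
        exact this.trans (hi2 ▸ Nat.gcd_dvd_left d (l ^ k))
      rw [h1, hi2]
      exact mul_dvd_mul (pow_dvd_pow _ (by omega)) (Nat.gcd_dvd_right d m)
  · rintro (⟨hd, _⟩ | ⟨e, ⟨he, _⟩, rfl⟩)
    · refine ⟨hd.trans ?_, by positivity⟩
      exact mul_dvd_mul (pow_dvd_pow _ (by omega)) (dvd_refl m)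
    · refine ⟨?_, by positivity⟩
      have : l ^ k * m = l ^ j * (l ^ (k - j) * m) := by
        rw [← mul_assoc, ← pow_add]
        congr 2
        omega
      rw [this]
      exact mul_dvd_mul (dvd_refl _) he

theorem div_split_disjoint (l k j m : ℕ) (hl : l.Prime) (hlm : ¬ l ∣ m) (hj : 1 ≤ j) :
    Disjoint (l ^ (j - 1) * m).divisors
      ((l ^ (k - j) * m).divisors.image (fun e => l ^ j * e)) := by
  rw [Finset.disjoint_left]
  intro d hd hd'
  rw [Finset.mem_image] at hd'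
  obtain ⟨e, _, rfl⟩ := hd'
  rw [Nat.mem_divisors] at hd
  obtain ⟨j', rfl⟩ : ∃ j', j = j' + 1 := ⟨j - 1, by omega⟩
  simp only [Nat.add_sub_cancel] at hd
  have h1 : l ^ j' * (l * e) ∣ l ^ j' * m := by
    have := hd.1
    rwa [pow_succ, mul_assoc] at this
  have h2 := Nat.dvd_of_mul_dvd_mul_left (pow_pos hl.pos _) h1
  exact hlm ((Dvd.intro _ rfl).trans h2)

theorem card_divisors_pow_mul (l i m : ℕ) (hl : l.Prime) (hlm : ¬ l ∣ m) :
    (l ^ i * m).divisors.card = (i + 1) * m.divisors.card := by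
  have hcop : Nat.Coprime (l ^ i) m := Nat.Coprime.pow_left _ ((Nat.Prime.coprime_iff_not_dvd hl).mpr hlm)
  rw [Nat.Coprime.card_divisors_mul hcop, Nat.divisors_prime_pow hl]
  simp

theorem split_bound (l k j m : ℕ) (hl : l.Prime) (hlm : ¬ l ∣ m) (hm : 0 < m) (hj : 1 ≤ j)
    (hjk : j ≤ k) :
    ∃ F : ℝ, 0 ≤ F ∧
      F ^ 2 ≤ En (l ^ (j - 1) * m) *
        (117 / 3422 * ((l ^ (k - j) * m).divisors.card : ℝ) + S2 (l ^ (k - j) * m) / (l : ℝ) ^ j) ∧
      S2 (l ^ k * m) ≤ S2 (l ^ (j - 1) * m) + S2 (l ^ (k - j) * m) / (l : ℝ) ^ j +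
        2 * (∑ d ∈ (l ^ (j - 1) * m).divisors, ∑ e ∈ (l ^ (k - j) * m).divisors,
          w ((d : ℤ) - (l : ℤ) ^ j * e)) + 2 * F ∧
      En (l ^ k * m) ≤ En (l ^ (j - 1) * m) +
        (117 / 3422 * ((l ^ (k - j) * m).divisors.card : ℝ) + S2 (l ^ (k - j) * m) / (l : ℝ) ^ j) +
        2 * F := by
  classical
  set A := (l ^ (j - 1) * m).divisors with hA
  set B := (l ^ (k - j) * m).divisors with hB
  set q : ℕ := l ^ j with hq
  have hq0 : 0 < q := pow_pos hl.pos _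
  have hqR : (0 : ℝ) < (q : ℝ) := by exact_mod_cast hq0
  have hqcast : (l : ℝ) ^ j = (q : ℝ) := by rw [hq]; push_cast; rfl
  have hqcastZ : (l : ℤ) ^ j = (q : ℤ) := by rw [hq]; push_cast; rfl
  have hinj : Function.Injective (fun e : ℕ => q * e) := fun a b hab =>
    Nat.eq_of_mul_eq_mul_left hq0 hab
  have hdiv : (l ^ k * m).divisors = A ∪ B.image (fun e => q * e) :=
    div_split l k j m hl hlm hm hj hjk
  have hdis : Disjoint A (B.image (fun e => q * e)) := div_split_disjoint l k j m hl hlm hj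
  rw [hqcast, hqcastZ]
  -- image sums
  have himg : ∀ g : ℕ → ℝ, ∑ e ∈ B.image (fun e => q * e), g e = ∑ e ∈ B, g (q * e) := by
    intro g
    rw [Finset.sum_image]
    intro a _ b _ hab
    exact hinj hab
  have hEB : ∑ e ∈ B, ∑ e' ∈ B, K (((q * e : ℕ) : ℤ) - ((q * e' : ℕ) : ℤ)) ≤
      117 / 3422 * (B.card : ℝ) + S2 (l ^ (k - j) * m) / (q : ℝ) := by
    have h1 : ∀ e ∈ B, ∀ e' ∈ B, K (((q * e : ℕ) : ℤ) - ((q * e' : ℕ) : ℤ)) ≤
        (if e = e' then 117 / 3422 else 0) + (1 / |(e : ℝ) - (e' : ℝ)|) / (q : ℝ) := by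
      intro e _ e' _
      refine (K_le _).trans ?_
      have h2 : (((q * e : ℕ) : ℤ) - ((q * e' : ℕ) : ℤ) = 0) ↔ e = e' := by
        rw [sub_eq_zero]
        constructor
        · intro h
          exact hinj (by exact_mod_cast h)
        · rintro rfl; rfl
      have h3 : (1 : ℝ) / |(((((q * e : ℕ) : ℤ) - ((q * e' : ℕ) : ℤ) : ℤ)) : ℝ)|
          = (1 / |(e : ℝ) - (e' : ℝ)|) / (q : ℝ) := by
        have : ((((q * e : ℕ) : ℤ) - ((q * e' : ℕ) : ℤ) : ℤ) : ℝ) = (q : ℝ) * ((e : ℝ) - e') := by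
          push_cast; ring
        rw [this, abs_mul, abs_of_pos hqR]
        rw [div_div]
        congr 1
        ring
      rw [h3]
      simp only [h2]
      exact le_rfl
    refine (Finset.sum_le_sum fun e he => Finset.sum_le_sum fun e' he' => h1 e he e' he').trans ?_
    simp_rw [Finset.sum_add_distrib]
    apply le_of_eq
    congr 1
    · have : ∀ e ∈ B, ∑ e' ∈ B, (if e = e' then (117 / 3422 : ℝ) else 0) = 117 / 3422 := by
        intro e he
        rw [Finset.sum_ite_eq]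
        simp [he]
      rw [Finset.sum_congr rfl this, Finset.sum_const, nsmul_eq_mul]
      ring
    · unfold S2
      rw [← hB, Finset.sum_div]
      refine Finset.sum_congr rfl fun e _ => ?_
      rw [Finset.sum_div]
  refine ⟨∑ a ∈ A, ∑ e ∈ B, K ((a : ℤ) - ((q * e : ℕ) : ℤ)), ?_, ?_, ?_, ?_⟩
  · exact Finset.sum_nonneg fun _ _ => Finset.sum_nonneg fun _ _ => K_nonneg _
  · have hcs := kernel_cs (A.image (fun a : ℕ => (a : ℤ))) (B.image (fun e : ℕ => ((q * e : ℕ) : ℤ)))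
    have hinjA : ∀ a ∈ A, ∀ b ∈ A, ((a : ℕ) : ℤ) = (b : ℤ) → a = b := fun a _ b _ h => by
      exact_mod_cast h
    have hinjB : ∀ a ∈ B, ∀ b ∈ B, (((q * a : ℕ)) : ℤ) = ((q * b : ℕ) : ℤ) → a = b := fun a _ b _ h =>
      hinj (by exact_mod_cast h)
    have e1 : ∀ g : ℤ → ℝ, ∑ a ∈ A.image (fun a : ℕ => (a : ℤ)), g a = ∑ a ∈ A, g (a : ℤ) :=
      fun g => Finset.sum_image hinjA
    have e2 : ∀ g : ℤ → ℝ, ∑ a ∈ B.image (fun e : ℕ => ((q * e : ℕ) : ℤ)), g a
        = ∑ a ∈ B, g ((q * a : ℕ) : ℤ) := fun g => Finset.sum_image hinjB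
    simp_rw [e1, e2] at hcs
    refine hcs.trans ?_
    apply mul_le_mul_of_nonneg_left hEB
    exact Finset.sum_nonneg fun _ _ => Finset.sum_nonneg fun _ _ => K_nonneg _
  · have e0 : S2 (l ^ k * m) = ∑ d ∈ A, ∑ e ∈ A, 1 / |(d : ℝ) - (e : ℝ)| +
        ∑ d ∈ B.image (fun e => q * e), ∑ e ∈ B.image (fun e => q * e), 1 / |(d : ℝ) - (e : ℝ)| +
        2 * ∑ d ∈ A, ∑ e ∈ B.image (fun e => q * e), 1 / |(d : ℝ) - (e : ℝ)| := by
      unfold S2
      rw [hdiv]
      apply sum_union_sq hdis (fun d e => 1 / |(d : ℝ) - (e : ℝ)|)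
      intro a b
      rw [abs_sub_comm]
    rw [e0]
    simp_rw [himg]
    have e1 : ∑ x ∈ B, ∑ x_1 ∈ B, 1 / |((q * x : ℕ) : ℝ) - ((q * x_1 : ℕ) : ℝ)| =
        S2 (l ^ (k - j) * m) / (q : ℝ) := by
      unfold S2
      rw [← hB, Finset.sum_div]
      refine Finset.sum_congr rfl fun e _ => ?_
      rw [Finset.sum_div]
      refine Finset.sum_congr rfl fun e' _ => ?_
      have : ((q * e : ℕ) : ℝ) - ((q * e' : ℕ) : ℝ) = (q : ℝ) * ((e : ℝ) - e') := by
        push_cast; ring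
      rw [this, abs_mul, abs_of_pos hqR]
      rw [div_div]
      congr 1
      ring
    rw [e1]
    have e2 : ∑ d ∈ A, ∑ x ∈ B, 1 / |(d : ℝ) - ((q * x : ℕ) : ℝ)| ≤
        ∑ d ∈ A, ∑ e ∈ B, w ((d : ℤ) - (q : ℤ) * e) +
          ∑ a ∈ A, ∑ e ∈ B, K ((a : ℤ) - ((q * e : ℕ) : ℤ)) := by
      simp_rw [← Finset.sum_add_distrib]
      refine Finset.sum_le_sum fun a _ => Finset.sum_le_sum fun e _ => ?_
      have := inv_le_w_add_K ((a : ℤ) - ((q * e : ℕ) : ℤ))
      push_cast at this ⊢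
      exact this
    have e3 : ∑ d ∈ A, ∑ e ∈ A, 1 / |(d : ℝ) - (e : ℝ)| = S2 (l ^ (j - 1) * m) := rfl
    rw [e3]
    linarith
  · have e0 : En (l ^ k * m) = ∑ d ∈ A, ∑ e ∈ A, K ((d : ℤ) - (e : ℤ)) +
        ∑ d ∈ B.image (fun e => q * e), ∑ e ∈ B.image (fun e => q * e), K ((d : ℤ) - (e : ℤ)) +
        2 * ∑ d ∈ A, ∑ e ∈ B.image (fun e => q * e), K ((d : ℤ) - (e : ℤ)) := by
      unfold En
      rw [hdiv]
      apply sum_union_sq hdis (fun d e => K ((d : ℤ) - (e : ℤ)))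
      intro a b
      rw [← K_neg]
      congr 1
      ring
    rw [e0]
    simp_rw [himg]
    have e3 : ∑ d ∈ A, ∑ e ∈ A, K ((d : ℤ) - (e : ℤ)) = En (l ^ (j - 1) * m) := rfl
    rw [e3]
    linarith

end Pool.MP_9e760c_nt.GapSum
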