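import Mathlib
import Pool.Agent.Lib.MP_9e760c_nt.Defs
import Pool.Agent.Lib.MP_9e760c_nt.Split

set_option autoImplicit false
open Finset

namespace Pool.MP_9e760c_nt.GapSum

/-- `10^7 w(h)` rounded up -/
def Wn (h : ℕ) : ℕ := ((58 - h) * (59 - h) * 10000000) / (3422 * h) + 1

/-- residue-class sum of `Wn` -/
def fN (q r : ℕ) : ℕ :=
  ∑ h ∈ Finset.Icc 1 57, ((if h % q = r % q then Wn h else 0) + (if (h + r) % q = 0 then Wn h else 0))

theorem w_le_Wn (y : ℤ) (hy : y ≠ 0) (hy' : |y| < 58) : w y ≤ (Wn y.natAbs : ℝ) / 10000000 := by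
  unfold w
  have h1 : ¬ (y = 0 ∨ 58 ≤ |y|) := by
    rintro (h | h)
    · exact hy h
    · omega
  rw [if_neg h1]
  set h := y.natAbs with hh
  have hpos : 0 < h := Int.natAbs_pos.mpr hy
  have hlt : h < 58 := by
    have : (h : ℤ) < 58 := by
      have h0 := hy'
      rwa [Int.abs_eq_natAbs] at h0
    exact_mod_cast this
  have e : |(y : ℝ)| = (h : ℝ) := by
    have : |y| = (h : ℤ) := Int.abs_eq_natAbs y
    have := congrArg (Int.cast (R := ℝ)) this
    push_cast at this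
    exact this
  rw [e]
  unfold Wn
  have h2 : (58 - h) * (59 - h) * 10000000 <
      (((58 - h) * (59 - h) * 10000000) / (3422 * h) + 1) * (3422 * h) := by
    have := Nat.lt_div_mul_add (a := (58 - h) * (59 - h) * 10000000) (b := 3422 * h) (by positivity)
    linarith
  have h3 : ((((58 - h) * (59 - h) * 10000000 : ℕ)) : ℝ) <
      ((((58 - h) * (59 - h) * 10000000) / (3422 * h) + 1 : ℕ) : ℝ) * ((3422 * h : ℕ) : ℝ) := by
    exact_mod_cast h2
  have h4 : ((((58 - h) * (59 - h) * 10000000 : ℕ)) : ℝ) = (58 - (h : ℝ)) * (59 - h) * 10000000 := by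
    push_cast [Nat.cast_sub (show h ≤ 58 by omega), Nat.cast_sub (show h ≤ 59 by omega)]
    ring
  rw [h4] at h3
  have hposR : (0 : ℝ) < (h : ℝ) := by exact_mod_cast hpos
  rw [div_le_div_iff₀ (by positivity) (by norm_num)]
  push_cast at h3 ⊢
  nlinarith

/-- for a single `d`, the near sum is at most the residue class sum -/
theorem near_le_fN (q : ℕ) (hq : 0 < q) (d : ℕ) (X : Finset ℕ) :
    ∑ e ∈ X, w ((d : ℤ) - (q : ℤ) * e) ≤ (fN q (d % q) : ℝ) / 10000000 := by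
  classical
  -- restrict to nonzero terms
  set P : Finset ℤ := (Finset.Ioo (-58 : ℤ) 58).filter (fun y => y ≠ 0 ∧ (q : ℤ) ∣ (d : ℤ) - y) with hP
  have hinj : ∀ a b : ℕ, (d : ℤ) - (q : ℤ) * a = (d : ℤ) - (q : ℤ) * b → a = b := by
    intro a b h
    have h1 : (q : ℤ) * a = (q : ℤ) * b := by linarith
    have h2 : (q : ℤ) ≠ 0 := by exact_mod_cast hq.ne'
    exact_mod_cast mul_left_cancel₀ h2 h1
  have h1 : ∑ e ∈ X, w ((d : ℤ) - (q : ℤ) * e) ≤ ∑ y ∈ P, w y := by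
    have h2 : ∑ e ∈ X, w ((d : ℤ) - (q : ℤ) * e) =
        ∑ e ∈ X.filter (fun e : ℕ => (d : ℤ) - (q : ℤ) * e ∈ P), w ((d : ℤ) - (q : ℤ) * e) := by
      symm
      apply Finset.sum_filter_of_ne
      intro e _ hne
      rw [hP, Finset.mem_filter, Finset.mem_Ioo]
      have h3 : ¬ ((d : ℤ) - (q : ℤ) * e = 0 ∨ 58 ≤ |(d : ℤ) - (q : ℤ) * e|) := by
        intro h
        apply hne
        unfold w
        rw [if_pos h]
      push Not at h3
      have h4 := abs_lt.mp h3.2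
      refine ⟨⟨h4.1, h4.2⟩, h3.1, ?_⟩
      exact ⟨e, by ring⟩
    rw [h2]
    have h5 : ∑ e ∈ X.filter (fun e : ℕ => (d : ℤ) - (q : ℤ) * e ∈ P), w ((d : ℤ) - (q : ℤ) * e)
        = ∑ y ∈ (X.filter (fun e : ℕ => (d : ℤ) - (q : ℤ) * e ∈ P)).image
            (fun e : ℕ => (d : ℤ) - (q : ℤ) * e), w y := by
      rw [Finset.sum_image]
      intro a _ b _ hab
      exact hinj a b hab
    rw [h5]
    apply Finset.sum_le_sum_of_subset_of_nonneg
    · intro y hy
      rw [Finset.mem_image] at hy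
      obtain ⟨e, he, rfl⟩ := hy
      exact (Finset.mem_filter.mp he).2
    · intro y _ _
      exact w_nonneg y
  refine h1.trans ?_
  -- bound by `Wn`
  have h6 : ∑ y ∈ P, w y ≤ ∑ y ∈ P, (Wn y.natAbs : ℝ) / 10000000 := by
    refine Finset.sum_le_sum fun y hy => ?_
    rw [hP, Finset.mem_filter, Finset.mem_Ioo] at hy
    exact w_le_Wn y hy.2.1 (abs_lt.mpr hy.1)
  refine h6.trans ?_
  rw [← Finset.sum_div]
  apply div_le_div_of_nonneg_right _ (by norm_num)
  rw [← Nat.cast_sum]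
  apply Nat.cast_le.mpr
  -- split in positive and negative
  unfold fN
  rw [Finset.sum_add_distrib, ← Finset.sum_filter, ← Finset.sum_filter]
  have hsplit : P = P.filter (fun y => 0 < y) ∪ P.filter (fun y => ¬ 0 < y) :=
    (Finset.filter_union_filter_not_eq _ _).symm
  rw [← Finset.sum_filter_add_sum_filter_not P (fun y => 0 < y)]
  apply add_le_add
  · have : ∑ y ∈ P.filter (fun y => 0 < y), Wn y.natAbs =
        ∑ h ∈ (P.filter (fun y => 0 < y)).image Int.natAbs, Wn h := by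
      rw [Finset.sum_image]
      intro a ha b hb hab
      have ha' := (Finset.mem_filter.mp (Finset.mem_coe.mp ha)).2
      have hb' := (Finset.mem_filter.mp (Finset.mem_coe.mp hb)).2
      omega
    rw [this]
    apply Finset.sum_le_sum_of_subset
    intro h hh
    rw [Finset.mem_image] at hh
    obtain ⟨y, hy, rfl⟩ := hh
    rw [Finset.mem_filter, hP, Finset.mem_filter, Finset.mem_Ioo] at hy
    obtain ⟨⟨⟨_, h8⟩, _, h10⟩, h11⟩ := hy
    rw [Finset.mem_filter, Finset.mem_Icc]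
    refine ⟨⟨by omega, by omega⟩, ?_⟩
    have e1 : (d : ℤ) ≡ (y.natAbs : ℤ) [ZMOD q] := by
      have : (y.natAbs : ℤ) = y := Int.natAbs_of_nonneg h11.le
      rw [this]
      exact ((Int.modEq_iff_dvd).mpr h10).symm
    have e2 : d ≡ y.natAbs [MOD q] := (Int.natCast_modEq_iff).mp e1
    rw [Nat.mod_mod]
    exact e2.symm
  · have : ∑ y ∈ P.filter (fun y => ¬ 0 < y), Wn y.natAbs =
        ∑ h ∈ (P.filter (fun y => ¬ 0 < y)).image Int.natAbs, Wn h := by
      rw [Finset.sum_image]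
      intro a ha b hb hab
      have ha' := (Finset.mem_filter.mp (Finset.mem_coe.mp ha)).2
      have hb' := (Finset.mem_filter.mp (Finset.mem_coe.mp hb)).2
      omega
    rw [this]
    apply Finset.sum_le_sum_of_subset
    intro h hh
    rw [Finset.mem_image] at hh
    obtain ⟨y, hy, rfl⟩ := hh
    rw [Finset.mem_filter, hP, Finset.mem_filter, Finset.mem_Ioo] at hy
    obtain ⟨⟨⟨h7, _⟩, h9, h10⟩, h11⟩ := hy
    rw [Finset.mem_filter, Finset.mem_Icc]
    refine ⟨⟨by omega, by omega⟩, ?_⟩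
    have e0 : (y.natAbs : ℤ) = -y := by omega
    have e1 : (q : ℤ) ∣ ((y.natAbs + d : ℕ) : ℤ) := by
      have : ((y.natAbs + d : ℕ) : ℤ) = (d : ℤ) - y := by omega
      rw [this]
      exact h10
    have e2 : q ∣ y.natAbs + d := by exact_mod_cast e1
    have e3 : (y.natAbs + d % q) % q = (y.natAbs + d) % q := by
      rw [Nat.add_mod_mod]
    rw [e3]
    exact Nat.mod_eq_zero_of_dvd e2

/-- `∑_{d ∣ l^I m} g d = ∑_{i ≤ I} ∑_{u ∣ m} g (l^i u)` -/
theorem sum_divisors_pow_mul (l I m : ℕ) (hl : l.Prime) (hlm : ¬ l ∣ m) (hm : 0 < m) (g : ℕ → ℝ) :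
    ∑ d ∈ (l ^ I * m).divisors, g d = ∑ i ∈ Finset.range (I + 1), ∑ u ∈ m.divisors, g (l ^ i * u) := by
  induction I with
  | zero => simp
  | succ I ih =>
    have h1 := div_split l (I + 1) (I + 1) m hl hlm hm (by omega) le_rfl
    have h2 := div_split_disjoint l (I + 1) (I + 1) m hl hlm (by omega)
    simp only [Nat.add_sub_cancel, Nat.sub_self, pow_zero, one_mul] at h1 h2
    rw [h1, Finset.sum_union h2, ih, Finset.sum_range_succ _ (I + 1)]
    congr 1
    rw [Finset.sum_image]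
    intro a _ b _ hab
    exact Nat.eq_of_mul_eq_mul_left (pow_pos hl.pos _) hab

theorem near_small_aux (l I : ℕ) (hl : l.Prime) (C : ℕ → ℕ)
    (hC : ∀ i ∈ Finset.range (I + 1), ∀ r ∈ Finset.range (l ^ (I + 1)), ¬ l ∣ r →
      fN (l ^ (I + 1)) ((l ^ i * r) % (l ^ (I + 1))) ≤ C i)
    (m : ℕ) (hm : 0 < m) (hlm : ¬ l ∣ m) (X : Finset ℕ) :
    ∑ d ∈ (l ^ I * m).divisors, ∑ e ∈ X, w ((d : ℤ) - ((l ^ (I + 1) : ℕ) : ℤ) * e) ≤
      (∑ i ∈ Finset.range (I + 1), (C i : ℝ)) / 10000000 * (m.divisors.card : ℝ) := by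
  rw [sum_divisors_pow_mul l I m hl hlm hm, Finset.sum_div, Finset.sum_mul]
  refine Finset.sum_le_sum fun i hi => ?_
  rw [mul_comm, ← nsmul_eq_mul, ← Finset.sum_const]
  refine Finset.sum_le_sum fun u hu => ?_
  refine (near_le_fN _ (pow_pos hl.pos _) _ X).trans ?_
  apply div_le_div_of_nonneg_right _ (by norm_num)
  apply Nat.cast_le.mpr
  have h1 := hC i hi (u % (l ^ (I + 1))) (Finset.mem_range.mpr (Nat.mod_lt _ (pow_pos hl.pos _))) (by
    intro h
    have h2 : l ∣ l ^ (I + 1) := dvd_pow_self l (by omega)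
    have h3 : l ∣ u := (Nat.dvd_mod_iff h2).mp h
    exact hlm (h3.trans (Nat.dvd_of_mem_divisors hu)))
  rw [Nat.mul_mod_mod] at h1
  exact h1


def C2 (i : ℕ) : ℕ := [9789900, 4794700, 2308000, 1101800, 673200].getD i 0
def C3 (i : ℕ) : ℕ := [9879200, 3227600, 1114800].getD i 0
def C5 (i : ℕ) : ℕ := [9933181, 1980803].getD i 0
def C7 (i : ℕ) : ℕ := [9671950, 1126400].getD i 0

theorem check2 : ∀ i ∈ Finset.range (4 + 1), ∀ r ∈ Finset.range (2 ^ (4 + 1)), ¬ 2 ∣ r →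
      fN (2 ^ (4 + 1)) ((2 ^ i * r) % (2 ^ (4 + 1))) ≤ C2 i := by
  decide +kernel

theorem check3 : ∀ i ∈ Finset.range (2 + 1), ∀ r ∈ Finset.range (3 ^ (2 + 1)), ¬ 3 ∣ r →
      fN (3 ^ (2 + 1)) ((3 ^ i * r) % (3 ^ (2 + 1))) ≤ C3 i := by
  decide +kernel

theorem check5 : ∀ i ∈ Finset.range (1 + 1), ∀ r ∈ Finset.range (5 ^ (1 + 1)), ¬ 5 ∣ r →
      fN (5 ^ (1 + 1)) ((5 ^ i * r) % (5 ^ (1 + 1))) ≤ C5 i := by
  decide +kernel

theorem check7 : ∀ i ∈ Finset.range (1 + 1), ∀ r ∈ Finset.range (7 ^ (1 + 1)), ¬ 7 ∣ r →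
      fN (7 ^ (1 + 1)) ((7 ^ i * r) % (7 ^ (1 + 1))) ≤ C7 i := by
  decide +kernel


/-- near lemma for the fixed small prime powers. -/
theorem near_small (l j : ℕ) (c : ℝ)
    (h : (l = 2 ∧ j = 5 ∧ c = 1.8668) ∨ (l = 3 ∧ j = 3 ∧ c = 1.4222) ∨
      (l = 5 ∧ j = 2 ∧ c = 1.1914) ∨ (l = 7 ∧ j = 2 ∧ c = 1.0799))
    (m : ℕ) (hm : 0 < m) (hpm : ¬ l ∣ m) (X : Finset ℕ) :
    ∑ d ∈ (l ^ (j - 1) * m).divisors, ∑ e ∈ X, w ((d : ℤ) - l ^ j * e) ≤
      c * (m.divisors.card : ℝ) := by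
  have hT : (0 : ℝ) ≤ (m.divisors.card : ℝ) := by positivity
  rcases h with ⟨rfl, rfl, rfl⟩ | ⟨rfl, rfl, rfl⟩ | ⟨rfl, rfl, rfl⟩ | ⟨rfl, rfl, rfl⟩
  · have h1 := near_small_aux 2 4 (by norm_num) C2 check2 m hm hpm X
    have h2 : (∑ i ∈ Finset.range (4 + 1), (C2 i : ℝ)) / 10000000 ≤ 1.8668 := by
      simp [Finset.sum_range_succ, C2]; norm_num
    refine le_trans ?_ (mul_le_mul_of_nonneg_right h2 hT)
    refine le_trans (le_of_eq ?_) h1
    norm_num
  · have h1 := near_small_aux 3 2 (by norm_num) C3 check3 m hm hpm X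
    have h2 : (∑ i ∈ Finset.range (2 + 1), (C3 i : ℝ)) / 10000000 ≤ 1.4222 := by
      simp [Finset.sum_range_succ, C3]; norm_num
    refine le_trans ?_ (mul_le_mul_of_nonneg_right h2 hT)
    refine le_trans (le_of_eq ?_) h1
    norm_num
  · have h1 := near_small_aux 5 1 (by norm_num) C5 check5 m hm hpm X
    have h2 : (∑ i ∈ Finset.range (1 + 1), (C5 i : ℝ)) / 10000000 ≤ 1.1914 := by
      simp [Finset.sum_range_succ, C5]; norm_num
    refine le_trans ?_ (mul_le_mul_of_nonneg_right h2 hT)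
    refine le_trans (le_of_eq ?_) h1
    norm_num
  · have h1 := near_small_aux 7 1 (by norm_num) C7 check7 m hm hpm X
    have h2 : (∑ i ∈ Finset.range (1 + 1), (C7 i : ℝ)) / 10000000 ≤ 1.0799 := by
      simp [Finset.sum_range_succ, C7]; norm_num
    refine le_trans ?_ (mul_le_mul_of_nonneg_right h2 hT)
    refine le_trans (le_of_eq ?_) h1
    norm_num

end Pool.MP_9e760c_nt.GapSum
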