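/-
Copyright: helper54 (team pool).  Induction part of the proof that the full gap sum of the divisors
of `n` is smaller than `τ(n)` for `n > 5040` (frozen statement S17915, problem MP_9e760c_nt).
-/
import Mathlib
import Pool.Agent.Lib.MP_9e760c_nt.Defs
import Pool.Agent.Lib.MP_9e760c_nt.Split
import Pool.Agent.Lib.MP_9e760c_nt.NearChain
import Pool.Agent.Lib.MP_9e760c_nt.NearSmall
import Pool.Agent.Lib.MP_9e760c_nt.BoxE
import Pool.Agent.Lib.MP_9e760c_nt.BoxF

set_option autoImplicit false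
open Finset

namespace Pool.MP_9e760c_nt.GapSum

/-! ### the induction -/

theorem step (l k j m : ℕ) (hl : l.Prime) (hlm : ¬ l ∣ m) (hm : 0 < m) (hj : 1 ≤ j)
    (hjk : j ≤ k) (x0 : ℕ) (hx : x0 ≤ k - j + 1) (RA RB cN γ : ℝ) (hγ0 : 0 ≤ γ)
    (_hRB : 0 ≤ RB)
    (hA : S2 (l ^ (j - 1) * m) ≤ RA * (j * (m.divisors.card : ℝ)))
    (hEA : En (l ^ (j - 1) * m) ≤ 0.8142 * (j * (m.divisors.card : ℝ)))
    (hB : S2 (l ^ (k - j) * m) ≤ RB * (((k - j + 1 : ℕ) : ℝ) * (m.divisors.card : ℝ)))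
    (hN : ∑ d ∈ (l ^ (j - 1) * m).divisors, ∑ e ∈ (l ^ (k - j) * m).divisors,
          w ((d : ℤ) - (l : ℤ) ^ j * e) ≤ cN * (m.divisors.card : ℝ))
    (hγ : 0.8142 * j * (117 / 3422 + RB / (l : ℝ) ^ j) ≤ γ ^ 2 * x0) :
    S2 (l ^ k * m) ≤ (RA * j + RB * ((k - j + 1 : ℕ) : ℝ) / (l : ℝ) ^ j + 2 * cN
        + 2 * γ * ((k - j + 1 : ℕ) : ℝ)) * (m.divisors.card : ℝ) ∧
    En (l ^ k * m) ≤ (0.8142 * j + (117 / 3422) * ((k - j + 1 : ℕ) : ℝ)
        + RB * ((k - j + 1 : ℕ) : ℝ) / (l : ℝ) ^ j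
        + 2 * γ * ((k - j + 1 : ℕ) : ℝ)) * (m.divisors.card : ℝ) := by
  obtain ⟨F, hF0, hF, hS, hE⟩ := split_bound l k j m hl hlm hm hj hjk
  set x : ℕ := k - j + 1 with hxdef
  have hcardB : ((l ^ (k - j) * m).divisors.card : ℝ) = (x : ℝ) * (m.divisors.card : ℝ) := by
    rw [card_divisors_pow_mul l (k - j) m hl hlm]
    push_cast [hxdef]
    ring
  rw [hcardB] at hF hE
  set T : ℝ := (m.divisors.card : ℝ) with hT
  have hT0 : 0 ≤ T := by positivity
  have hx0 : (x0 : ℝ) ≤ (x : ℝ) := by exact_mod_cast hx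
  have hxx : (0 : ℝ) ≤ (x : ℝ) := by positivity
  have hx00 : (0 : ℝ) ≤ (x0 : ℝ) := by positivity
  have hq : (0 : ℝ) < (l : ℝ) ^ j := by
    have : (0 : ℝ) < l := by exact_mod_cast hl.pos
    positivity
  have hSB : S2 (l ^ (k - j) * m) / (l : ℝ) ^ j ≤ RB * ((x : ℝ) * T) / (l : ℝ) ^ j :=
    div_le_div_of_nonneg_right hB hq.le
  have hSB0 : 0 ≤ S2 (l ^ (k - j) * m) := by
    unfold S2
    exact Finset.sum_nonneg fun _ _ => Finset.sum_nonneg fun _ _ => by positivity
  have hFle : F ≤ γ * x * T := by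
    have h1 : F ^ 2 ≤ (γ * x * T) ^ 2 := by
      calc F ^ 2 ≤ En (l ^ (j - 1) * m) * (117 / 3422 * ((x : ℝ) * T)
              + S2 (l ^ (k - j) * m) / (l : ℝ) ^ j) := hF
        _ ≤ (0.8142 * (j * T)) * (117 / 3422 * ((x : ℝ) * T) + RB * ((x : ℝ) * T) / (l : ℝ) ^ j) := by
            apply mul_le_mul hEA (by linarith) _ (by positivity)
            positivity
        _ = (0.8142 * j * (117 / 3422 + RB / (l : ℝ) ^ j)) * ((x : ℝ) * T ^ 2) := by ring
        _ ≤ (γ ^ 2 * x0) * ((x : ℝ) * T ^ 2) := by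
            apply mul_le_mul_of_nonneg_right hγ (by positivity)
        _ ≤ (γ ^ 2 * x) * ((x : ℝ) * T ^ 2) := by
            apply mul_le_mul_of_nonneg_right _ (by positivity)
            apply mul_le_mul_of_nonneg_left hx0 (by positivity)
        _ = (γ * x * T) ^ 2 := by ring
    exact (sq_le_sq₀ hF0 (by positivity)).mp h1
  have hSB' : RB * ((x : ℝ) * T) / (l : ℝ) ^ j = RB * (x : ℝ) / (l : ℝ) ^ j * T := by ring
  constructor
  · calc S2 (l ^ k * m) ≤ _ := hS
      _ ≤ RA * (j * T) + RB * (x : ℝ) / (l : ℝ) ^ j * T + 2 * (cN * T) + 2 * (γ * x * T) := by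
          linarith
      _ = _ := by ring
  · calc En (l ^ k * m) ≤ _ := hE
      _ ≤ 0.8142 * (j * T) + (117 / 3422 * ((x : ℝ) * T) + RB * (x : ℝ) / (l : ℝ) ^ j * T)
          + 2 * (γ * x * T) := by linarith
      _ = _ := by ring

theorem exc_dvd (n : ℕ) (h : n ∈ Exc) : n ∣ 5040 := by
  revert h
  unfold Exc
  intro h
  simp only [List.mem_cons, List.not_mem_nil, or_false] at h
  rcases h with h | h | h | h | h | h | h | h | h | h | h | h | h | h <;> subst h <;> decide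

theorem not_exc_of_prime (p n : ℕ) (hp : p.Prime) (hp11 : 11 ≤ p) (h : p ∣ n) : n ∉ Exc := by
  intro hn
  have h1 : p ∣ 5040 := h.trans (exc_dvd n hn)
  have h2 : p ∣ 2 ^ 4 * 3 ^ 2 * 5 * 7 := by norm_num; exact h1
  rw [hp.dvd_mul, hp.dvd_mul, hp.dvd_mul] at h2
  rcases h2 with ((h2 | h2) | h2) | h2
  · have := Nat.le_of_dvd (by norm_num) (hp.dvd_of_dvd_pow h2); omega
  · have := Nat.le_of_dvd (by norm_num) (hp.dvd_of_dvd_pow h2); omega
  · have := Nat.le_of_dvd (by norm_num) h2; omega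
  · have := Nat.le_of_dvd (by norm_num) h2; omega

/-- from the two numeric inequalities to `Good`. -/
theorem good_of_bounds (l k m : ℕ) (hl : l.Prime) (hlm : ¬ l ∣ m) (hm : 0 < m) (a b : ℝ)
    (hS : S2 (l ^ k * m) ≤ a * (m.divisors.card : ℝ))
    (hE : En (l ^ k * m) ≤ b * (m.divisors.card : ℝ))
    (ha : a < 2 * ((k : ℝ) + 1)) (hb : b ≤ 0.8142 * ((k : ℝ) + 1)) : Good (l ^ k * m) := by
  have hcard : ((l ^ k * m).divisors.card : ℝ) = ((k : ℝ) + 1) * (m.divisors.card : ℝ) := by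
    rw [card_divisors_pow_mul l k m hl hlm]; push_cast; ring
  have hT : (0 : ℝ) < (m.divisors.card : ℝ) := by
    have : 0 < m.divisors.card := Finset.card_pos.mpr ⟨1, by simp [hm.ne']⟩
    exact_mod_cast this
  have hlt : S2 (l ^ k * m) < 2 * ((l ^ k * m).divisors.card : ℝ) := by
    rw [hcard]
    nlinarith
  have hpos : (0 : ℝ) ≤ ((l ^ k * m).divisors.card : ℝ) := by positivity
  refine ⟨by linarith, ?_, fun _ => hlt⟩
  rw [hcard]
  nlinarith

theorem val_ok (p k m : ℕ) (hp : p.Prime) (hp11 : 11 ≤ p) (hm : 0 < m) :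
    ∀ e ∈ (p ^ k * m).divisors, 0 < e ∧ ¬ 2 ^ (padicValNat 2 m + 1) ∣ e := by
  intro e he
  refine ⟨Nat.pos_of_mem_divisors he, ?_⟩
  intro h
  have h1 : 2 ^ (padicValNat 2 m + 1) ∣ p ^ k * m := h.trans (Nat.dvd_of_mem_divisors he)
  have hcop : Nat.Coprime (2 ^ (padicValNat 2 m + 1)) (p ^ k) := by
    apply Nat.Coprime.pow
    rw [Nat.coprime_primes Nat.prime_two hp]
    omega
  have h2 := hcop.dvd_of_dvd_mul_left h1
  exact pow_succ_padicValNat_not_dvd (p := 2) hm.ne' h2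

theorem step_prime (p k m : ℕ) (hp : p.Prime) (hp11 : 11 ≤ p) (hpm : ¬ p ∣ m) (hm : 0 < m)
    (hk : 1 ≤ k) (x0 : ℕ) (hx : x0 ≤ k) (RA RB γ : ℝ) (hγ0 : 0 ≤ γ) (hRB : 0 ≤ RB)
    (hA : S2 m ≤ RA * (m.divisors.card : ℝ))
    (hEA : En m ≤ 0.8142 * (m.divisors.card : ℝ))
    (hB : S2 (p ^ (k - 1) * m) ≤ RB * ((k : ℝ) * (m.divisors.card : ℝ)))
    (hγ : 0.8142 * (117 / 3422 + RB / (p : ℝ)) ≤ γ ^ 2 * x0)
    (hfin1 : RA + RB * k / (p : ℝ) + 2 * cch p + 2 * γ * k < 2 * ((k : ℝ) + 1))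
    (hfin2 : 0.8142 + (117 / 3422) * k + RB * k / (p : ℝ) + 2 * γ * k ≤ 0.8142 * ((k : ℝ) + 1)) :
    Good (p ^ k * m) := by
  have hk1 : k - 1 + 1 = k := by omega
  have h := step p k 1 m hp hpm hm le_rfl hk x0 (by omega) RA RB (cch p) γ hγ0 hRB
    (by simpa using hA) (by simpa using hEA) (by rw [hk1]; exact hB)
    (by
      have := near_chain p hp hp11 m hm hpm (p ^ (k - 1) * m).divisors (val_ok p (k - 1) m hp hp11 hm)
      simpa using this)
    (by simpa using hγ)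
  rw [hk1] at h
  refine good_of_bounds p k m hp hpm hm _ _ h.1 h.2 ?_ ?_
  · simpa using hfin1
  · simpa using hfin2

theorem caseC1 (p m : ℕ) (hp : p.Prime) (hp19 : 19 ≤ p) (hpm : ¬ p ∣ m) (hm : 0 < m)
    (hG : Good m) (hne : m ∉ Exc) : Good (p ^ 1 * m) := by
  have hpR : (19 : ℝ) ≤ (p : ℝ) := by exact_mod_cast hp19
  have hinv : 1 / (p : ℝ) ≤ 1 / 19 := one_div_le_one_div_of_le (by norm_num) hpR
  have hc : cch p ≤ 0.608 := by
    unfold cch
    rw [if_neg (by omega)]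
    split_ifs <;> norm_num
  refine step_prime p 1 m hp (by omega) hpm hm le_rfl 1 le_rfl 2 2 0.33705 (by norm_num)
    (by norm_num) (hG.2.2 hne).le hG.2.1 (by simpa using (hG.2.2 hne).le) ?_ ?_ ?_
  · have : (2 : ℝ) / p = 2 * (1 / p) := by ring
    rw [this]
    push_cast
    nlinarith
  · have : (2 : ℝ) * ((1 : ℕ) : ℝ) / p = 2 * (1 / p) := by push_cast; ring
    rw [this]
    push_cast
    nlinarith
  · have : (2 : ℝ) * ((1 : ℕ) : ℝ) / p = 2 * (1 / p) := by push_cast; ring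
    rw [this]
    push_cast
    nlinarith

theorem caseC1E (p m : ℕ) (hp : p.Prime) (hp59 : 59 ≤ p) (hpm : ¬ p ∣ m) (hm : 0 < m)
    (hG : Good m) : Good (p ^ 1 * m) := by
  have hpR : (59 : ℝ) ≤ (p : ℝ) := by exact_mod_cast hp59
  have hinv : 1 / (p : ℝ) ≤ 1 / 59 := one_div_le_one_div_of_le (by norm_num) hpR
  have hc : cch p = 0.58 := by
    unfold cch
    rw [if_neg (by omega), if_neg (by omega)]
  refine step_prime p 1 m hp (by omega) hpm hm le_rfl 1 le_rfl 2.254 2.254 0.2429 (by norm_num)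
    (by norm_num) hG.1 hG.2.1 (by simpa using hG.1) ?_ ?_ ?_
  · have : (2.254 : ℝ) / p = 2.254 * (1 / p) := by ring
    rw [this]
    push_cast
    nlinarith
  · have : (2.254 : ℝ) * ((1 : ℕ) : ℝ) / p = 2.254 * (1 / p) := by push_cast; ring
    rw [this, hc]
    push_cast
    nlinarith
  · have : (2.254 : ℝ) * ((1 : ℕ) : ℝ) / p = 2.254 * (1 / p) := by push_cast; ring
    rw [this]
    push_cast
    nlinarith

theorem caseC2 (p k m : ℕ) (hp : p.Prime) (hp11 : 11 ≤ p) (hpm : ¬ p ∣ m) (hm : 0 < m)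
    (hk : 2 ≤ k) (hG : Good m) (hG' : Good (p ^ (k - 1) * m)) : Good (p ^ k * m) := by
  have hpR : (11 : ℝ) ≤ (p : ℝ) := by exact_mod_cast hp11
  have hinv : 1 / (p : ℝ) ≤ 1 / 11 := one_div_le_one_div_of_le (by norm_num) hpR
  have hc : cch p ≤ 0.75 := by
    unfold cch
    split_ifs <;> norm_num
  have hkR : (2 : ℝ) ≤ (k : ℝ) := by exact_mod_cast hk
  have hne : p ^ (k - 1) * m ∉ Exc := by
    apply not_exc_of_prime p _ hp hp11
    exact (dvd_pow_self p (by omega)).mul_right m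
  have hcard : ((p ^ (k - 1) * m).divisors.card : ℝ) = (k : ℝ) * (m.divisors.card : ℝ) := by
    rw [card_divisors_pow_mul p (k - 1) m hp hpm]
    have : k - 1 + 1 = k := by omega
    rw [this]
    push_cast
    ring
  have hB := (hG'.2.2 hne).le
  rw [hcard] at hB
  have hkinv : (k : ℝ) * (1 / p) ≤ k * (1 / 11) := by
    apply mul_le_mul_of_nonneg_left hinv (by linarith)
  refine step_prime p k m hp hp11 hpm hm (by omega) 2 hk 2.254 2 0.2966 (by norm_num)
    (by norm_num) hG.1 hG.2.1 hB ?_ ?_ ?_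
  · have : (2 : ℝ) / p = 2 * (1 / p) := by ring
    rw [this]
    push_cast
    nlinarith
  · have : (2 : ℝ) * (k : ℝ) / p = 2 * (k * (1 / p)) := by ring
    rw [this]
    nlinarith
  · have : (2 : ℝ) * (k : ℝ) / p = 2 * (k * (1 / p)) := by ring
    rw [this]
    nlinarith

theorem good_card (l i m : ℕ) (hl : l.Prime) (hlm : ¬ l ∣ m) (h : Good (l ^ i * m)) :
    S2 (l ^ i * m) ≤ 2.254 * (((i + 1 : ℕ) : ℝ) * (m.divisors.card : ℝ)) ∧
    En (l ^ i * m) ≤ 0.8142 * (((i + 1 : ℕ) : ℝ) * (m.divisors.card : ℝ)) ∧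
    (l ^ i * m ∉ Exc → S2 (l ^ i * m) ≤ 2 * (((i + 1 : ℕ) : ℝ) * (m.divisors.card : ℝ))) := by
  have hcard : ((l ^ i * m).divisors.card : ℝ) = ((i + 1 : ℕ) : ℝ) * (m.divisors.card : ℝ) := by
    rw [card_divisors_pow_mul l i m hl hlm]; push_cast; ring
  rw [← hcard]
  exact ⟨h.1, h.2.1, fun hn => (h.2.2 hn).le⟩

theorem case2 (k m : ℕ) (hpm : ¬ 2 ∣ m) (hm : 0 < m) (hk : 8 ≤ k)
    (hG : Good (2 ^ 4 * m)) (hG' : Good (2 ^ (k - 5) * m)) : Good (2 ^ k * m) := by
  have h1 := good_card 2 4 m Nat.prime_two hpm hG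
  have h2 := good_card 2 (k - 5) m Nat.prime_two hpm hG'
  have hN := near_small 2 5 1.8668 (by norm_num) m hm hpm (2 ^ (k - 5) * m).divisors
  have h := step 2 k 5 m Nat.prime_two hpm hm (by norm_num) (by omega) 4 (by omega) 2.254 2.254
    1.8668 0.3264 (by norm_num) (by norm_num) (by simpa using h1.1) (by simpa using h1.2.1)
    h2.1 (by simpa using hN) (by norm_num)
  have hx : ((k - 5 + 1 : ℕ) : ℝ) = (k : ℝ) - 4 := by
    have : k - 5 + 1 = k - 4 := by omega
    rw [this, Nat.cast_sub (by omega)]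
    norm_num
  have hkR : (8 : ℝ) ≤ (k : ℝ) := by exact_mod_cast hk
  rw [hx] at h
  refine good_of_bounds 2 k m Nat.prime_two hpm hm _ _ h.1 h.2 ?_ ?_
  · push_cast; norm_num; linarith
  · push_cast; norm_num; linarith

theorem case3 (k m : ℕ) (hpm : ¬ 3 ∣ m) (hm : 0 < m) (hk : 5 ≤ k)
    (hG : Good (3 ^ 2 * m)) (hG' : Good (3 ^ (k - 3) * m)) : Good (3 ^ k * m) := by
  have h1 := good_card 3 2 m Nat.prime_three hpm hG
  have h2 := good_card 3 (k - 3) m Nat.prime_three hpm hG'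
  have hN := near_small 3 3 1.4222 (by norm_num) m hm hpm (3 ^ (k - 3) * m).divisors
  have h := step 3 k 3 m Nat.prime_three hpm hm (by norm_num) (by omega) 3 (by omega) 2.254 2.254
    1.4222 0.3097 (by norm_num) (by norm_num) (by simpa using h1.1) (by simpa using h1.2.1)
    h2.1 (by simpa using hN) (by norm_num)
  have hx : ((k - 3 + 1 : ℕ) : ℝ) = (k : ℝ) - 2 := by
    have : k - 3 + 1 = k - 2 := by omega
    rw [this, Nat.cast_sub (by omega)]
    norm_num
  have hkR : (5 : ℝ) ≤ (k : ℝ) := by exact_mod_cast hk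
  rw [hx] at h
  refine good_of_bounds 3 k m Nat.prime_three hpm hm _ _ h.1 h.2 ?_ ?_
  · push_cast; norm_num; linarith
  · push_cast; norm_num; linarith

theorem case7 (k m : ℕ) (hpm : ¬ 7 ∣ m) (hm : 0 < m) (hk : 3 ≤ k)
    (hG : Good (7 ^ 1 * m)) (hG' : Good (7 ^ (k - 2) * m)) : Good (7 ^ k * m) := by
  have h7 : Nat.Prime 7 := by norm_num
  have h1 := good_card 7 1 m h7 hpm hG
  have h2 := good_card 7 (k - 2) m h7 hpm hG'
  have hN := near_small 7 2 1.0799 (by norm_num) m hm hpm (7 ^ (k - 2) * m).divisors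
  have h := step 7 k 2 m h7 hpm hm (by norm_num) (by omega) 2 (by omega) 2.254 2.254
    1.0799 0.2556 (by norm_num) (by norm_num) (by simpa using h1.1) (by simpa using h1.2.1)
    h2.1 (by simpa using hN) (by norm_num)
  have hx : ((k - 2 + 1 : ℕ) : ℝ) = (k : ℝ) - 1 := by
    have : k - 2 + 1 = k - 1 := by omega
    rw [this, Nat.cast_sub (by omega)]
    norm_num
  have hkR : (3 : ℝ) ≤ (k : ℝ) := by exact_mod_cast hk
  rw [hx] at h
  refine good_of_bounds 7 k m h7 hpm hm _ _ h.1 h.2 ?_ ?_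
  · push_cast; norm_num; linarith
  · push_cast; norm_num; linarith

theorem case5 (k m : ℕ) (hpm : ¬ 5 ∣ m) (hm : 0 < m) (hk : 3 ≤ k)
    (hG : Good (5 ^ 1 * m)) (hG' : Good (5 ^ (k - 2) * m)) : Good (5 ^ k * m) := by
  have h5 : Nat.Prime 5 := by norm_num
  have h1 := good_card 5 1 m h5 hpm hG
  have h2 := good_card 5 (k - 2) m h5 hpm hG'
  have hN := near_small 5 2 1.1914 (by norm_num) m hm hpm (5 ^ (k - 2) * m).divisors
  have hx : ((k - 2 + 1 : ℕ) : ℝ) = (k : ℝ) - 1 := by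
    have : k - 2 + 1 = k - 1 := by omega
    rw [this, Nat.cast_sub (by omega)]
    norm_num
  have hkR : (3 : ℝ) ≤ (k : ℝ) := by exact_mod_cast hk
  by_cases hE : 5 ^ 1 * m ∈ Exc
  · by_cases hk3 : k = 3
    · subst hk3
      apply box_five
      have h3 := exc_dvd _ hE
      have h4 : m ∣ 1008 := by
        have : (5040 : ℕ) = 5 ^ 1 * 1008 := by norm_num
        rw [this] at h3
        exact Nat.dvd_of_mul_dvd_mul_left (by norm_num) h3
      have h5' : 5 ^ 3 * m ∣ 5 ^ 3 * 1008 := mul_dvd_mul (dvd_refl _) h4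
      have : (5 : ℕ) ^ 3 * 1008 = 2 ^ 4 * 3 ^ 2 * 5 ^ 3 * 7 := by norm_num
      rwa [this] at h5'
    · have hk4 : 4 ≤ k := by omega
      have hkR4 : (4 : ℝ) ≤ (k : ℝ) := by exact_mod_cast hk4
      have h := step 5 k 2 m h5 hpm hm (by norm_num) (by omega) 3 (by omega) 2.254 2.254
        1.1914 0.2599 (by norm_num) (by norm_num) (by simpa using h1.1) (by simpa using h1.2.1)
        h2.1 (by simpa using hN) (by norm_num)
      rw [hx] at h
      refine good_of_bounds 5 k m h5 hpm hm _ _ h.1 h.2 ?_ ?_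
      · push_cast; norm_num; linarith
      · push_cast; norm_num; linarith
  · have h := step 5 k 2 m h5 hpm hm (by norm_num) (by omega) 2 (by omega) 2 2.254
      1.1914 0.3183 (by norm_num) (by norm_num) (by simpa using h1.2.2 hE) (by simpa using h1.2.1)
      h2.1 (by simpa using hN) (by norm_num)
    rw [hx] at h
    refine good_of_bounds 5 k m h5 hpm hm _ _ h.1 h.2 ?_ ?_
    · push_cast; norm_num; linarith
    · push_cast; norm_num; linarith

theorem exists_pow_mul (n p : ℕ) (hn : 0 < n) (hp : p.Prime) :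
    ∃ k m : ℕ, ¬ p ∣ m ∧ n = p ^ k * m ∧ 0 < m := by
  obtain ⟨k, m, h1, h2⟩ := Nat.exists_eq_pow_mul_and_not_dvd hn.ne' p hp.ne_one
  refine ⟨k, m, h1, h2, ?_⟩
  rcases Nat.eq_zero_or_pos m with h | h
  · subst h; simp at h1
  · exact h

theorem le_exp_of_dvd (p k m j : ℕ) (hp : p.Prime) (hpm : ¬ p ∣ m) (h : p ^ j ∣ p ^ k * m) :
    j ≤ k := by
  by_contra hcon
  have h1 : p ^ (k + 1) ∣ p ^ k * m := (pow_dvd_pow p (by omega)).trans h
  rw [pow_succ] at h1
  exact hpm (Nat.dvd_of_mul_dvd_mul_left (pow_pos hp.pos k) h1)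

theorem pow_mul_lt (p k i m : ℕ) (hp : p.Prime) (hm : 0 < m) (h : i < k) :
    p ^ i * m < p ^ k * m :=
  Nat.mul_lt_mul_of_pos_right (Nat.pow_lt_pow_right hp.one_lt h) hm

theorem good_all (n : ℕ) (hn : 0 < n) : Good n := by
  induction n using Nat.strong_induction_on with
  | _ n ih =>
  by_cases h1 : ∃ p : ℕ, p.Prime ∧ 19 ≤ p ∧ p ∣ n
  · obtain ⟨p, hp, hp19, hpn⟩ := h1
    obtain ⟨k, m, hpm, rfl, hm⟩ := exists_pow_mul n p hn hp
    have hk : 1 ≤ k := le_exp_of_dvd p k m 1 hp hpm (by simpa using hpn)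
    have hGm : Good m := by
      have := ih (p ^ 0 * m) (pow_mul_lt p k 0 m hp hm hk) (by simpa using hm)
      simpa using this
    rcases Nat.lt_or_ge 1 k with hk2 | hk2
    · refine caseC2 p k m hp (by omega) hpm hm hk2 hGm ?_
      exact ih _ (pow_mul_lt p k (k - 1) m hp hm (by omega)) (by have := hp.pos; positivity)
    · have hk1 : k = 1 := le_antisymm hk2 hk
      subst hk1
      by_cases hE : m ∈ Exc
      · by_cases hp59 : 59 ≤ p
        · exact caseC1E p m hp hp59 hpm hm hGm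
        · apply box_p p
          · have hlt : p < 59 := by omega
            interval_cases p <;> first
              | (exfalso; revert hp; norm_num; done)
              | simp
          · rw [pow_one, mul_comm]
            exact mul_dvd_mul (exc_dvd m hE) (dvd_refl p)
      · exact caseC1 p m hp hp19 hpm hm hGm hE
  · push Not at h1
    by_cases h2 : ∃ p : ℕ, p.Prime ∧ 11 ≤ p ∧ p ^ 2 ∣ n
    · obtain ⟨p, hp, hp11, hpn⟩ := h2
      obtain ⟨k, m, hpm, rfl, hm⟩ := exists_pow_mul n p hn hp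
      have hk : 2 ≤ k := le_exp_of_dvd p k m 2 hp hpm hpn
      have hGm : Good m := by
        have := ih (p ^ 0 * m) (pow_mul_lt p k 0 m hp hm (by omega)) (by simpa using hm)
        simpa using this
      refine caseC2 p k m hp (by omega) hpm hm hk hGm ?_
      exact ih _ (pow_mul_lt p k (k - 1) m hp hm (by omega)) (by have := hp.pos; positivity)
    · push Not at h2
      by_cases h3 : 7 ^ 3 ∣ n
      · have hp : Nat.Prime 7 := by norm_num
        obtain ⟨k, m, hpm, rfl, hm⟩ := exists_pow_mul n 7 hn hp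
        have hk : 3 ≤ k := le_exp_of_dvd 7 k m 3 hp hpm h3
        exact case7 k m hpm hm hk
          (ih _ (pow_mul_lt 7 k 1 m hp hm (by omega)) (by positivity))
          (ih _ (pow_mul_lt 7 k (k - 2) m hp hm (by omega)) (by positivity))
      by_cases h4 : 5 ^ 3 ∣ n
      · have hp : Nat.Prime 5 := by norm_num
        obtain ⟨k, m, hpm, rfl, hm⟩ := exists_pow_mul n 5 hn hp
        have hk : 3 ≤ k := le_exp_of_dvd 5 k m 3 hp hpm h4
        exact case5 k m hpm hm hk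
          (ih _ (pow_mul_lt 5 k 1 m hp hm (by omega)) (by positivity))
          (ih _ (pow_mul_lt 5 k (k - 2) m hp hm (by omega)) (by positivity))
      by_cases h5 : 3 ^ 5 ∣ n
      · have hp : Nat.Prime 3 := by norm_num
        obtain ⟨k, m, hpm, rfl, hm⟩ := exists_pow_mul n 3 hn hp
        have hk : 5 ≤ k := le_exp_of_dvd 3 k m 5 hp hpm h5
        exact case3 k m hpm hm hk
          (ih _ (pow_mul_lt 3 k 2 m hp hm (by omega)) (by positivity))
          (ih _ (pow_mul_lt 3 k (k - 3) m hp hm (by omega)) (by positivity))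
      by_cases h6 : 2 ^ 8 ∣ n
      · have hp : Nat.Prime 2 := by norm_num
        obtain ⟨k, m, hpm, rfl, hm⟩ := exists_pow_mul n 2 hn hp
        have hk : 8 ≤ k := le_exp_of_dvd 2 k m 8 hp hpm h6
        exact case2 k m hpm hm hk
          (ih _ (pow_mul_lt 2 k 4 m hp hm (by omega)) (by positivity))
          (ih _ (pow_mul_lt 2 k (k - 5) m hp hm (by omega)) (by positivity))
      apply box_main
      rw [Nat.dvd_iff_prime_pow_dvd_dvd]
      intro p k hp hpk
      rcases Nat.eq_zero_or_pos k with hk0 | hk0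
      · subst hk0; simp
      have hpn : p ∣ n := (dvd_pow_self p hk0.ne').trans hpk
      have hp19 : p < 19 := by
        by_contra hcon
        exact h1 p hp (by omega) hpn
      -- bound on `k`
      have hkle : ∀ c : ℕ, ¬ p ^ (c + 1) ∣ n → k ≤ c := by
        intro c hc
        by_contra hcon
        exact hc ((pow_dvd_pow p (by omega)).trans hpk)
      have hfin : ∀ c : ℕ, ¬ p ^ (c + 1) ∣ n →
          p ^ c ∣ 2 ^ 7 * 3 ^ 4 * 5 ^ 2 * 7 ^ 2 * 11 * 13 * 17 →
          p ^ k ∣ 2 ^ 7 * 3 ^ 4 * 5 ^ 2 * 7 ^ 2 * 11 * 13 * 17 := fun c hc hd =>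
        (pow_dvd_pow p (hkle c hc)).trans hd
      interval_cases p
      all_goals first
        | (exfalso; revert hp; norm_num; done)
        | exact hfin 7 h6 (by norm_num)
        | exact hfin 4 h5 (by norm_num)
        | exact hfin 2 h4 (by norm_num)
        | exact hfin 2 h3 (by norm_num)
        | exact hfin 1 (h2 _ hp (by norm_num)) (by norm_num)

theorem frozen (n : ℕ) (hn : 5040 < n) :
    (∑ d ∈ n.divisors, ∑ e ∈ n.divisors.filter (fun e => d < e),
        (1 : ℝ) / ((e : ℝ) - (d : ℝ))) < (n.divisors.card : ℝ) := by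
  have hG := good_all n (by omega)
  have hne : n ∉ Exc := by
    intro h
    have := Nat.le_of_dvd (by norm_num) (exc_dvd n h)
    omega
  have h := hG.2.2 hne
  have key : S2 n = 2 * ∑ d ∈ n.divisors, ∑ e ∈ n.divisors.filter (fun e => d < e),
        (1 : ℝ) / ((e : ℝ) - (d : ℝ)) := by
    unfold S2
    have e1 : ∀ d ∈ n.divisors, ∑ e ∈ n.divisors, 1 / |(d : ℝ) - (e : ℝ)| =
        ∑ e ∈ n.divisors, ((if d < e then 1 / ((e : ℝ) - (d : ℝ)) else 0) +
          (if e < d then 1 / ((d : ℝ) - (e : ℝ)) else 0)) := by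
      intro d _
      refine Finset.sum_congr rfl fun e _ => ?_
      rcases lt_trichotomy d e with h | h | h
      · have h' : (d : ℝ) < e := by exact_mod_cast h
        rw [if_pos h, if_neg (by omega), abs_sub_comm, abs_of_pos (by linarith)]
        ring
      · subst h; simp
      · have h' : (e : ℝ) < d := by exact_mod_cast h
        rw [if_neg (by omega), if_pos h, abs_of_pos (by linarith)]
        ring
    rw [Finset.sum_congr rfl e1]
    simp_rw [Finset.sum_add_distrib]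
    have e2 : ∑ d ∈ n.divisors, ∑ e ∈ n.divisors, (if e < d then 1 / ((d : ℝ) - (e : ℝ)) else 0)
        = ∑ d ∈ n.divisors, ∑ e ∈ n.divisors, (if d < e then 1 / ((e : ℝ) - (d : ℝ)) else 0) :=
      Finset.sum_comm
    rw [e2]
    simp_rw [Finset.sum_filter]
    ring
  linarith

end Pool.MP_9e760c_nt.GapSum
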